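import Mathlib
import Pool.Agent.TH163.GolodAny

/-!
# A Golod algebra all of whose matrix rings over the augmentation ideal are nil
-/

set_option autoImplicit false

namespace Pool.Agent.R706.GolodMat

open Finset Module MonoidAlgebra Pool.Agent.Helper884.Golod Pool.Agent.TH163.GolodAny

variable {K : Type} [Field K]

lemma exists_c (c : ℝ) : ∃ n0 : ℕ, ∀ n, n0 ≤ n → c ≤ (1/15) * (5/4)^n := by
  have h := (tendsto_pow_atTop_atTop_of_one_lt (show (1:ℝ) < 5/4 by norm_num)).eventually_ge_atTop
    (15 * c)
  obtain ⟨n0, hn0⟩ := Filter.eventually_atTop.mp h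
  exact ⟨n0, fun n hn => by have := hn0 n hn; linarith⟩

/-- Golod's construction for matrices of all sizes simultaneously, over a countable field: there is
a two-sided ideal of the free algebra on two letters with infinite quotient such that every square
matrix over the augmentation ideal has a power with entries in the ideal. -/
theorem golod_matrices [Countable K] :
    ∃ I : Ideal (T K), I.IsTwoSided ∧ Infinite (T K ⧸ I) ∧ (∀ f ∈ I, f.coeff 1 = 0) ∧
      ∀ (m : ℕ) (M : Matrix (Fin m) (Fin m) (T K)), (∀ a b, M a b ∈ Ge K 1) →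
        ∃ N : ℕ, ∀ a b, (M ^ N) a b ∈ I := by
  classical
  have : Countable (T K) := (coeffEquiv (R := K) (M := FreeMonoid (Fin 2))).countable_iff.mpr
    inferInstance
  -- enumeration
  let X := Σ m : ℕ, {M : Matrix (Fin m) (Fin m) (T K) // ∀ a b, M a b ∈ Ge K 1}
  have : Nonempty X := ⟨⟨1, ⟨0, fun a b => by simp⟩⟩⟩
  have : ∀ m, Countable (Matrix (Fin m) (Fin m) (T K)) := fun m =>
    (inferInstance : Countable (Fin m → Fin m → T K))
  obtain ⟨W, hW⟩ := exists_surjective_nat X
  choose g hg using exists_c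
  let c : ℕ → ℕ := fun k => g (((W k).1 * (W k).1 : ℕ) : ℝ)
  obtain ⟨es, es0, es1⟩ : ∃ es : ℕ → ℕ, es 0 = c 0 + 1 ∧
      ∀ k, es (k+1) = max (max (es k + 1) (md ((W k).2.1 ^ (es k)))) (c (k+1)) :=
    ⟨fun k => Nat.rec (c 0 + 1) (fun k e => max (max (e+1) (md ((W k).2.1 ^ e))) (c (k+1))) k, rfl,
      fun _ => rfl⟩
  have es_mono : StrictMono es := strictMono_nat_of_lt_succ (fun k => by
    rw [es1]
    exact lt_of_lt_of_le (Nat.lt_succ_self _) ((le_max_left _ _).trans (le_max_left _ _)))
  have es_c : ∀ k, c k ≤ es k := by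
    intro k
    rcases k with _ | k
    · rw [es0]; omega
    · rw [es1]; exact le_max_right _ _
  let idx : ℕ → ℕ := fun j => Nat.findGreatest (fun k => es k ≤ j) j
  have hidx : ∀ k j, es k ≤ j → j < es (k+1) → idx j = k := by
    intro k j h1 h2
    have hkj : k ≤ j := (es_mono.le_apply).trans h1
    apply le_antisymm
    · by_contra h3
      push Not at h3
      have h4 := Nat.findGreatest_spec (P := fun k => es k ≤ j) (n := j) (m := k) hkj h1
      have h5 : es (k+1) ≤ es (Nat.findGreatest (fun k => es k ≤ j) j) := es_mono.monotone h3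
      omega
    · exact Nat.le_findGreatest (P := fun k => es k ≤ j) hkj h1
  have hidx2 : ∀ j, es 0 ≤ j → es (idx j) ≤ j := fun j hj =>
    Nat.findGreatest_spec (P := fun k => es k ≤ j) (n := j) (m := 0) (Nat.zero_le _) hj
  let R : ℕ → Submodule K (T K) := fun j => if j < es 0 then ⊥ else
    Submodule.span K (Set.range (fun ab : Fin (W (idx j)).1 × Fin (W (idx j)).1 =>
      comp j (((W (idx j)).2.1 ^ (es (idx j))) ab.1 ab.2)))
  have hR : ∀ n, R n ≤ D K n := by
    intro n
    simp only [R]
    split_ifs with h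
    · exact bot_le
    · rw [Submodule.span_le]
      rintro _ ⟨ab, rfl⟩
      exact comp_mem n _
  have hRr : ∀ n, (finrank K (R n) : ℝ) ≤ (1/15) * (5/4)^n := by
    intro n
    by_cases h : n < es 0
    · have : R n = ⊥ := if_pos h
      rw [this]
      have h0 : finrank K (⊥ : Submodule K (T K)) = 0 := finrank_bot K (T K)
      rw [h0, Nat.cast_zero]
      positivity
    · have hRn : R n = Submodule.span K (Set.range (fun ab : Fin (W (idx n)).1 × Fin (W (idx n)).1 =>
          comp n (((W (idx n)).2.1 ^ (es (idx n))) ab.1 ab.2))) := if_neg h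
      rw [hRn]
      have h1 := finrank_range_le_card (R := K) (fun ab : Fin (W (idx n)).1 × Fin (W (idx n)).1 =>
          comp n (((W (idx n)).2.1 ^ (es (idx n))) ab.1 ab.2))
      rw [Fintype.card_prod, Fintype.card_fin] at h1
      have h2 : ((finrank K (Submodule.span K (Set.range
          (fun ab : Fin (W (idx n)).1 × Fin (W (idx n)).1 =>
          comp n (((W (idx n)).2.1 ^ (es (idx n))) ab.1 ab.2)))) : ℕ) : ℝ) ≤
          (((W (idx n)).1 * (W (idx n)).1 : ℕ) : ℝ) := by
        exact_mod_cast h1
      refine h2.trans ((hg _ _ (es_c (idx n))).trans ?_)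
      apply mul_le_mul_of_nonneg_left _ (by norm_num)
      exact pow_le_pow_right₀ (by norm_num) (hidx2 n (by omega))
  have hlt := Jd_lt' (K := K) (D := D K) (R := R) finrank_D D_mul D_zero hR hRr
  refine ⟨It R, inferInstance, infinite_quot R hR hlt, ?_, ?_⟩
  · intro f hf
    have h1 := comp_mem_Jd R hR f hf 0
    have h2 : Jd (D K) R 0 = ⊥ := rfl
    rw [h2, Submodule.mem_bot] at h1
    have h3 := comp_coeff 0 f 1
    rw [h1] at h3
    simpa using h3.symm
  · intro m M hM
    obtain ⟨k, hk⟩ := hW ⟨m, M, hM⟩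
    have hmain : ∀ a b, ((W k).2.1 ^ es k) a b ∈ It R := by
      intro a b
      rw [mem_It]
      have hge : ((W k).2.1 ^ es k) a b ∈ Ge K (es k) := matrix_pow_Ge _ (W k).2.2 _ a b
      rw [sum_comp (((W k).2.1 ^ es k) a b) (es (k+1)) (by
        intro w hw
        have h1 := lt_md _ a b w hw
        rw [es1]
        exact lt_of_lt_of_le h1 ((le_max_right _ _).trans (le_max_left _ _)))]
      apply Submodule.sum_mem
      intro j hj
      rw [Finset.mem_range] at hj
      rcases Nat.lt_or_ge j (es k) with h | h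
      · rw [comp_eq_zero_of_Ge hge h]; exact Submodule.zero_mem _
      · have h1 := hidx k j h hj
        have h2 : es 0 ≤ j := (es_mono.monotone (Nat.zero_le k)).trans h
        have h3 : comp j (((W k).2.1 ^ es k) a b) ∈ R j := by
          have hRj : R j = Submodule.span K (Set.range
            (fun ab : Fin (W (idx j)).1 × Fin (W (idx j)).1 =>
            comp j (((W (idx j)).2.1 ^ (es (idx j))) ab.1 ab.2))) := if_neg (by omega)
          rw [hRj, h1]
          exact Submodule.subset_span ⟨(a, b), rfl⟩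
        obtain ⟨j', rfl⟩ : ∃ j', j = j' + 1 := ⟨j - 1, by omega⟩
        exact (le_iSup (Jd (D K) R) (j'+1)) (R_le D_zero j' h3)
    rw [hk] at hmain
    exact ⟨es k, hmain⟩

end Pool.Agent.R706.GolodMat
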