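import Mathlib

/-!
# A graded left artinian ring has finite support
-/

set_option autoImplicit false

namespace Pool.Agent.R706.GrFin

open DirectSum

universe u

variable {S : Type u} [Ring S] (𝒜 : ℤ → AddSubgroup S) [GradedRing 𝒜]

/-- homogeneous component -/
def pr (i : ℤ) : S →+ S := GradedRing.proj 𝒜 i

theorem pr_mem (i : ℤ) (a : S) : pr 𝒜 i a ∈ 𝒜 i := by
  rw [pr, GradedRing.proj_apply]
  exact Subtype.prop _

theorem pr_same {i : ℤ} {a : S} (h : a ∈ 𝒜 i) : pr 𝒜 i a = a := by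
  rw [pr, GradedRing.proj_apply, decompose_of_mem_same _ h]

theorem pr_ne {i j : ℤ} {a : S} (h : a ∈ 𝒜 i) (hij : i ≠ j) : pr 𝒜 j a = 0 := by
  rw [pr, GradedRing.proj_apply, decompose_of_mem_ne _ h hij]

theorem pr_mul_right {j : ℤ} {b : S} (hb : b ∈ 𝒜 j) (i : ℤ) (a : S) :
    pr 𝒜 (i + j) (a * b) = pr 𝒜 i a * b := by
  rw [pr, pr, GradedRing.proj_apply, GradedRing.proj_apply,
    coe_decompose_mul_add_of_right_mem 𝒜 hb]

theorem pr_mul_left {j : ℤ} {b : S} (hb : b ∈ 𝒜 j) (i : ℤ) (a : S) :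
    pr 𝒜 (j + i) (b * a) = b * pr 𝒜 i a := by
  rw [pr, pr, GradedRing.proj_apply, GradedRing.proj_apply,
    coe_decompose_mul_add_of_left_mem 𝒜 hb]

theorem pr_bound (a : S) : ∃ B : ℕ, ∀ i : ℤ, B < i.natAbs → pr 𝒜 i a = 0 := by
  classical
  refine ⟨(decompose 𝒜 a).support.sup Int.natAbs, fun i hi => ?_⟩
  by_contra h
  have hmem : i ∈ (decompose 𝒜 a).support := by
    rw [DFinsupp.mem_support_iff]
    intro h0
    apply h
    rw [pr, GradedRing.proj_apply, h0]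
    rfl
  exact absurd (Finset.le_sup (f := Int.natAbs) hmem) (not_le.2 hi)

theorem sum_pr (a : S) (B : ℕ) (hB : ∀ i : ℤ, B < i.natAbs → pr 𝒜 i a = 0) :
    ∑ i ∈ Finset.Icc (-(B : ℤ)) B, pr 𝒜 i a = a := by
  classical
  conv_rhs => rw [← sum_support_decompose 𝒜 a]
  symm
  apply Finset.sum_subset_zero_on_sdiff
  · intro i hi
    rw [Finset.mem_Icc]
    by_contra h
    have h1 := hB i (by omega)
    rw [pr, GradedRing.proj_apply] at h1
    rw [DFinsupp.mem_support_iff] at hi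
    apply hi
    ext
    rw [h1]; rfl
  · intro i hi
    rw [Finset.mem_sdiff, DFinsupp.mem_support_iff, not_not] at hi
    rw [pr, GradedRing.proj_apply, hi.2]
    rfl
  · intro i _
    rw [pr, GradedRing.proj_apply]

theorem pow_mem_gr {d : ℤ} {a : S} (ha : a ∈ 𝒜 d) (k : ℕ) : a ^ k ∈ 𝒜 (k * d) := by
  induction k with
  | zero => simpa using SetLike.GradedOne.one_mem
  | succ k ih =>
    rw [pow_succ, show ((k + 1 : ℕ) : ℤ) * d = k * d + d by push_cast; ring]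
    exact SetLike.GradedMul.mul_mem ih ha

/-- in a left artinian graded ring all homogeneous elements of nonzero degree are nilpotent -/
theorem nilp [IsArtinianRing S] {d : ℤ} (hd : d ≠ 0) {a : S} (ha : a ∈ 𝒜 d) :
    ∃ k : ℕ, a ^ k = 0 := by
  let ρ : S →ₗ[S] S := LinearMap.id - LinearMap.toSpanSingleton S S a
  have hρ : ∀ s, ρ s = s - s * a := fun s => rfl
  have hinj : Function.Injective ρ := by
    rw [injective_iff_map_eq_zero]
    intro s hs
    rw [hρ, sub_eq_zero] at hs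
    have h1 : ∀ i, pr 𝒜 (i + d) s = pr 𝒜 i s * a := by
      intro i
      conv_lhs => rw [hs]
      exact pr_mul_right 𝒜 ha i s
    have h2 : ∀ (k : ℕ) i, pr 𝒜 i s = pr 𝒜 (i - k * d) s * a ^ k := by
      intro k
      induction k with
      | zero => intro i; simp
      | succ k ih =>
        intro i
        rw [ih i, pow_succ', ← mul_assoc, ← h1]
        congr 3
        push_cast; ring
    obtain ⟨B, hB⟩ := pr_bound 𝒜 s
    have h3 : ∀ i, pr 𝒜 i s = 0 := by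
      intro i
      rw [h2 (B + i.natAbs + 1) i, hB, zero_mul]
      have h4 : ((B + i.natAbs + 1 : ℕ) : ℤ).natAbs ≤ (((B + i.natAbs + 1 : ℕ) : ℤ) * d).natAbs := by
        rw [Int.natAbs_mul]
        exact Nat.le_mul_of_pos_right _ (Int.natAbs_pos.2 hd)
      have h5 : (((B + i.natAbs + 1 : ℕ) : ℤ) * d).natAbs ≤
          (i - ((B + i.natAbs + 1 : ℕ) : ℤ) * d).natAbs + i.natAbs := by
        omega
      rw [Int.natAbs_natCast] at h4
      omega
    rw [← sum_pr 𝒜 s B hB]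
    exact Finset.sum_eq_zero fun i _ => h3 i
  obtain ⟨s, hs⟩ := IsArtinian.surjective_of_injective_endomorphism ρ hinj 1
  rw [hρ] at hs
  have h1 : ∀ i, pr 𝒜 (i + d) s = pr 𝒜 i s * a + pr 𝒜 (i + d) 1 := by
    intro i
    rw [← pr_mul_right 𝒜 ha i s, ← map_add]
    congr 1
    rw [← hs]; abel
  have hone : ∀ i, i ≠ 0 → pr 𝒜 i (1 : S) = 0 := fun i hi =>
    pr_ne 𝒜 (SetLike.GradedOne.one_mem : (1 : S) ∈ 𝒜 0) (Ne.symm hi)
  obtain ⟨B, hB⟩ := pr_bound 𝒜 s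
  have hbig : ∀ k : ℤ, B < k.natAbs → pr 𝒜 (k * d) s = 0 := by
    intro k hk
    apply hB
    rw [Int.natAbs_mul]
    exact lt_of_lt_of_le hk (Nat.le_mul_of_pos_right _ (Int.natAbs_pos.2 hd))
  -- negative multiples
  have hneg : ∀ k : ℕ, k ≤ B → pr 𝒜 (-((B : ℤ) + 1 - k) * d) s = 0 := by
    intro k
    induction k with
    | zero =>
      intro _
      apply hbig
      omega
    | succ k ih =>
      intro hk
      have h2 := h1 (-((B : ℤ) + 1 - k) * d)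
      rw [ih (by omega), zero_mul, zero_add] at h2
      rw [show -((B : ℤ) + 1 - (k + 1 : ℕ)) * d = -((B : ℤ) + 1 - k) * d + d by push_cast; ring, h2]
      apply hone
      rw [show -((B : ℤ) + 1 - k) * d + d = ((k : ℤ) - B) * d by ring]
      apply mul_ne_zero _ hd
      omega
  have hz : pr 𝒜 (-d) s = 0 := by
    have := hneg B le_rfl
    rwa [show -((B : ℤ) + 1 - B) * d = -d by ring] at this
  have h0 : pr 𝒜 0 s = 1 := by
    have h2 := h1 (-d)
    rw [hz, zero_mul, zero_add, neg_add_cancel,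
      pr_same 𝒜 (SetLike.GradedOne.one_mem : (1 : S) ∈ 𝒜 0)] at h2
    exact h2
  have hpos : ∀ k : ℕ, pr 𝒜 ((k : ℤ) * d) s = a ^ k := by
    intro k
    induction k with
    | zero => simpa using h0
    | succ k ih =>
      have h2 := h1 ((k : ℤ) * d)
      rw [ih, ← pow_succ, show (k : ℤ) * d + d = ((k + 1 : ℕ) : ℤ) * d by push_cast; ring,
        hone _ (mul_ne_zero (by omega) hd), add_zero] at h2
      exact h2
  exact ⟨B + 1, by rw [← hpos]; exact hbig _ (by omega)⟩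

/-- homogeneous left ideals -/
def HomI (I : Ideal S) : Prop := ∀ x ∈ I, ∀ i, pr 𝒜 i x ∈ I

theorem homI_span_mul_sup {I K : Ideal S} (hI : HomI 𝒜 I) (hK : HomI 𝒜 K) {j : ℤ} {x : S}
    (hx : x ∈ 𝒜 j) : HomI 𝒜 (Submodule.map (LinearMap.toSpanSingleton S S x) I ⊔ K) := by
  intro y hy i
  obtain ⟨y1, h1, y2, h2, rfl⟩ := Submodule.mem_sup.1 hy
  obtain ⟨a, ha, rfl⟩ := Submodule.mem_map.1 h1
  rw [map_add]
  apply Submodule.add_mem
  · apply Submodule.mem_sup_left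
    refine Submodule.mem_map.2 ⟨pr 𝒜 (i - j) a, hI a ha _, ?_⟩
    show pr 𝒜 (i - j) a * x = pr 𝒜 i (a * x)
    have := pr_mul_right 𝒜 hx (i - j) a
    rw [sub_add_cancel] at this
    exact this.symm
  · exact Submodule.mem_sup_right (hK _ h2 i)

/-- A graded left artinian ring has finite support. -/
theorem finite_support [IsArtinianRing S] : ∃ n : ℕ, ∀ i : ℤ, n < i.natAbs → 𝒜 i = ⊥ := by
  classical
  by_contra hcon
  push Not at hcon
  let Inf : Ideal S → Prop := fun I => ∀ B : ℕ, ∃ i : ℤ, B < i.natAbs ∧ ∃ x ∈ I, x ∈ 𝒜 i ∧ x ≠ 0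
  have htop : HomI 𝒜 (⊤ : Ideal S) ∧ Inf ⊤ := by
    refine ⟨fun _ _ _ => trivial, fun B => ?_⟩
    obtain ⟨i, hi, hne⟩ := hcon B
    obtain ⟨⟨x, hx⟩, hx0'⟩ := AddSubgroup.ne_bot_iff_exists_ne_zero.1 hne
    have hx0 : x ≠ 0 := fun h => hx0' (Subtype.ext h)
    exact ⟨i, hi, x, trivial, hx, hx0⟩
  -- minimal `L`
  obtain ⟨L, ⟨hLh, hLi⟩, hLmin⟩ := (inferInstance : WellFoundedLT (Ideal S)).wf.has_min
    {I : Ideal S | HomI 𝒜 I ∧ Inf I} ⟨⊤, htop⟩
  have hL0 : L ≠ ⊥ := by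
    rintro rfl
    obtain ⟨i, _, x, hx, _, hx0⟩ := hLi 0
    exact hx0 hx
  -- maximal `K`
  obtain ⟨K, ⟨hKh, hKL⟩, hKmax⟩ := (inferInstance : WellFoundedGT (Ideal S)).wf.has_min
    {I : Ideal S | HomI 𝒜 I ∧ I < L} ⟨⊥, by
      refine ⟨?_, bot_lt_iff_ne_bot.2 hL0⟩
      intro x hx i
      rw [Submodule.mem_bot] at hx
      rw [hx, map_zero]
      exact Submodule.zero_mem _⟩
  have hmax : ∀ N : Ideal S, HomI 𝒜 N → K < N → N ≤ L → N = L := by
    intro N hN hKN hNL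
    by_contra hne
    exact hKmax N ⟨hN, lt_of_le_of_ne hNL hne⟩ hKN
  have hKfin : ∃ B : ℕ, ∀ i : ℤ, B < i.natAbs → ∀ x ∈ K, x ∈ 𝒜 i → x = 0 := by
    by_contra h
    push Not at h
    exact hLmin K ⟨hKh, h⟩ hKL
  obtain ⟨B, hB⟩ := hKfin
  -- infinitely many degrees
  let T : Set ℤ := {i | ∃ x ∈ L, x ∈ 𝒜 i ∧ x ∉ K}
  have hT : T.Infinite := by
    intro hfin
    obtain ⟨i, hi, x, hx, hxi, hx0⟩ := hLi (max B (hfin.toFinset.sup Int.natAbs))
    have hiT : i ∈ T := ⟨x, hx, hxi, fun hxK => hx0 (hB i (by omega) x hxK hxi)⟩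
    have := Finset.le_sup (f := Int.natAbs) (hfin.mem_toFinset.2 hiT)
    omega
  let e : ℕ ↪ T := hT.natEmbedding
  choose x hxL hxe hxK using fun k : ℕ => (e k).2
  let 𝔞 : ℕ → Ideal S := fun k =>
    { carrier := {s | ∀ j < k, s * x j ∈ K}
      zero_mem' := fun j _ => by rw [zero_mul]; exact Submodule.zero_mem _
      add_mem' := fun {s t} hs ht j hj => by
        rw [add_mul]; exact Submodule.add_mem _ (hs j hj) (ht j hj)
      smul_mem' := fun r s hs j hj => by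
        rw [smul_eq_mul, mul_assoc]; exact Submodule.smul_mem K r (hs j hj) }
  have ha : ∀ {k s}, s ∈ 𝔞 k ↔ ∀ j < k, s * x j ∈ K := Iff.rfl
  have hanti : ∀ k l, k ≤ l → 𝔞 l ≤ 𝔞 k := by
    intro k l hkl s hs j hj
    exact hs j (by omega)
  obtain ⟨n, hn⟩ := IsArtinian.monotone_stabilizes (R := S) (M := S)
    ⟨fun k => OrderDual.toDual (𝔞 k), fun k l hkl => hanti k l hkl⟩
  have hn' : 𝔞 n = 𝔞 (n + 1) := hn (n + 1) (by omega)
  have hP : ∃ k, ∀ s ∈ 𝔞 k, s * x n ∈ K := ⟨n, fun s hs => by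
    rw [hn'] at hs; exact hs n (by omega)⟩
  have hkn : Nat.find hP ≤ n := Nat.find_min' hP (fun s hs => by
    rw [hn'] at hs; exact hs n (by omega))
  have hk0 : Nat.find hP ≠ 0 := by
    intro h0
    have h1 := Nat.find_spec hP 1 (by rw [h0]; intro j hj; omega)
    rw [one_mul] at h1
    exact hxK n h1
  obtain ⟨m, hm⟩ : ∃ m, Nat.find hP = m + 1 := ⟨Nat.find hP - 1, by omega⟩
  have hm1 : ∀ s ∈ 𝔞 (m + 1), s * x n ∈ K := by rw [← hm]; exact Nat.find_spec hP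
  have hm2 : ∃ s ∈ 𝔞 m, s * x n ∉ K := by
    have := Nat.find_min hP (m := m) (by omega)
    push Not at this
    exact this
  have hij : ((e m : T) : ℤ) ≠ e n := by
    intro h
    have := e.injective (Subtype.ext h)
    omega
  obtain ⟨i, hi⟩ : ∃ i : ℤ, ((e m : T) : ℤ) = i := ⟨_, rfl⟩
  obtain ⟨j, hj⟩ : ∃ j : ℤ, ((e n : T) : ℤ) = j := ⟨_, rfl⟩
  rw [hi, hj] at hij
  set u := x m with hu
  set w := x n with hw
  have hu𝒜 : u ∈ 𝒜 i := hi ▸ hxe m
  have hw𝒜 : w ∈ 𝒜 j := hj ▸ hxe n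
  have f1 : ∀ a ∈ 𝔞 m, a * u ∈ K → a * w ∈ K := by
    intro a ha1 ha2
    apply hm1
    intro l hl
    rcases Nat.lt_succ_iff_lt_or_eq.1 hl with h | h
    · exact ha1 l h
    · rw [h]; exact ha2
  obtain ⟨a0, ha0, ha0w⟩ := hm2
  have ha0u : a0 * u ∉ K := fun h => ha0w (f1 a0 ha0 h)
  have h𝔞h : HomI 𝒜 (𝔞 m) := by
    intro s hs l k hk
    rw [← pr_mul_right 𝒜 (hxe k) l s]
    exact hKh _ (hs k hk) _
  -- `𝔞 u + K = L`
  have hgen : ∀ (I : Ideal S), HomI 𝒜 I → ∀ {l : ℤ} {y : S}, y ∈ 𝒜 l → y ∈ L →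
      (∃ a ∈ I, a * y ∉ K) → Submodule.map (LinearMap.toSpanSingleton S S y) I ⊔ K = L := by
    intro I hI l y hy hyL hay
    obtain ⟨a, haI, hay⟩ := hay
    apply hmax _ (homI_span_mul_sup 𝒜 hI hKh hy)
    · apply lt_of_le_of_ne le_sup_right
      intro heq
      apply hay
      rw [heq]
      exact Submodule.mem_sup_left (Submodule.mem_map.2 ⟨a, haI, rfl⟩)
    · apply sup_le _ hKL.le
      rintro _ ⟨a, _, rfl⟩
      exact L.smul_mem a hyL
  have hLu : u ∈ Submodule.map (LinearMap.toSpanSingleton S S u) (𝔞 m) ⊔ K := by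
    rw [hgen _ h𝔞h hu𝒜 (hxL m) ⟨a0, ha0, ha0u⟩]
    exact hxL m
  obtain ⟨y1, h1, y2, h2, h12⟩ := Submodule.mem_sup.1 hLu
  obtain ⟨b', hb', rfl⟩ := Submodule.mem_map.1 h1
  let b := pr 𝒜 0 b'
  have hb : b ∈ 𝔞 m := h𝔞h b' hb' 0
  have hb0 : b ∈ 𝒜 0 := pr_mem 𝒜 0 b'
  have hbu : u - b * u ∈ K := by
    have h3 := congrArg (pr 𝒜 i) h12
    rw [map_add, pr_same 𝒜 hu𝒜] at h3
    have h4 : pr 𝒜 i (LinearMap.toSpanSingleton S S u b') = b * u := by
      show pr 𝒜 i (b' * u) = _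
      have := pr_mul_right 𝒜 hu𝒜 0 b'
      rwa [zero_add] at this
    rw [h4] at h3
    rw [sub_eq_of_eq_add' h3.symm]
    exact hKh _ h2 i
  let v := b * w
  have hv𝒜 : v ∈ 𝒜 j := by
    have := SetLike.GradedMul.mul_mem hb0 hw𝒜
    rwa [zero_add] at this
  have hvL : v ∈ L := L.smul_mem b (hxL n)
  have f4 : ∀ s, s * u ∈ K → s * v ∈ K := by
    intro s hs
    have h3 : (s * b) * u ∈ K := by
      have h4 : (s * b) * u = s * u - s * (u - b * u) := by noncomm_ring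
      rw [h4]
      exact Submodule.sub_mem _ hs (K.smul_mem s hbu)
    have h5 := f1 (s * b) ((𝔞 m).smul_mem s hb) h3
    rwa [mul_assoc] at h5
  have f5 : v ∉ K := by
    intro hv
    apply ha0w
    have h3 : (a0 - a0 * b) * u ∈ K := by
      have h4 : (a0 - a0 * b) * u = a0 * (u - b * u) := by noncomm_ring
      rw [h4]
      exact K.smul_mem a0 hbu
    have h5 := f1 (a0 - a0 * b) (Submodule.sub_mem _ ha0 ((𝔞 m).smul_mem a0 hb)) h3
    have h6 : a0 * w = (a0 - a0 * b) * w + a0 * v := by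
      show a0 * w = (a0 - a0 * b) * w + a0 * (b * w)
      noncomm_ring
    rw [h6]
    exact Submodule.add_mem _ h5 (K.smul_mem a0 hv)
  have hgenu : ∀ {l : ℤ} {y : S}, y ∈ 𝒜 l → y ∈ L → y ∉ K → ∀ z ∈ L, ∃ t, z - t * y ∈ K := by
    intro l y hy hyL hyK z hz
    have h3 := hgen ⊤ (fun _ _ _ => trivial) hy hyL ⟨1, trivial, by rwa [one_mul]⟩
    rw [← h3] at hz
    obtain ⟨z1, hz1, z2, hz2, rfl⟩ := Submodule.mem_sup.1 hz
    obtain ⟨t, _, rfl⟩ := Submodule.mem_map.1 hz1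
    refine ⟨t, ?_⟩
    show t * y + z2 - t * y ∈ K
    rw [add_sub_cancel_left]
    exact hz2
  have huK : u ∉ K := hxK m
  obtain ⟨c', hc'⟩ := hgenu hu𝒜 (hxL m) huK v hvL
  let c := pr 𝒜 (j - i) c'
  have hc𝒜 : c ∈ 𝒜 (j - i) := pr_mem 𝒜 _ _
  have hc : v - c * u ∈ K := by
    have h3 := hKh _ hc' j
    rw [map_sub, pr_same 𝒜 hv𝒜] at h3
    have h4 := pr_mul_right 𝒜 hu𝒜 (j - i) c'
    rw [sub_add_cancel] at h4
    rwa [h4] at h3
  have hck : ∀ k : ℕ, c ^ k * u ∉ K := by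
    intro k
    induction k with
    | zero => rw [pow_zero, one_mul]; exact huK
    | succ k ih =>
      intro hk
      obtain ⟨t, ht⟩ := hgenu (SetLike.GradedMul.mul_mem (pow_mem_gr 𝒜 hc𝒜 k) hu𝒜)
        (L.smul_mem _ (hxL m)) ih u (hxL m)
      have h3 : (1 - t * c ^ k) * u ∈ K := by
        have h4 : (1 - t * c ^ k) * u = u - t * (c ^ k * u) := by noncomm_ring
        rw [h4]; exact ht
      have h5 := f4 _ h3
      apply f5
      have h6 : v = (1 - t * c ^ k) * v + t * c ^ k * (v - c * u) + t * (c ^ (k + 1) * u) := by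
        rw [pow_succ]; noncomm_ring
      rw [h6]
      exact Submodule.add_mem _ (Submodule.add_mem _ h5 (K.smul_mem _ hc)) (K.smul_mem _ hk)
  obtain ⟨k, hk⟩ := nilp 𝒜 (sub_ne_zero.2 (Ne.symm hij)) hc𝒜
  apply hck k
  rw [hk, zero_mul]
  exact Submodule.zero_mem _

end Pool.Agent.R706.GrFin
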