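import Mathlib
import Pool.Agent.R706.GrFin

/-!
# Modules with a bounded grading: Harada-Sai argument and local endomorphism rings
-/

set_option autoImplicit false

namespace Pool.Agent.R706.GrMod

open Pool.Agent.R706.GrFin Pointwise

universe u v w

variable {S : Type u} [Ring S] (𝒜 : ℤ → AddSubgroup S)

/-- a grading (with bounded support) on a left module, given by its projections -/
structure Grd (M : Type v) [AddCommGroup M] [Module S M] where
  p : ℤ → M →+ M
  B : ℕ
  zero : ∀ i : ℤ, B < i.natAbs → ∀ m, p i m = 0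
  orth : ∀ i j, i ≠ j → ∀ m, p i (p j m) = 0
  sum : ∀ m, ∑ i ∈ Finset.Icc (-(B : ℤ)) B, p i m = m
  smul : ∀ i j, ∀ a ∈ 𝒜 j, ∀ m, p (j + i) (a • m) = a • p i m

variable {𝒜} {M : Type v} [AddCommGroup M] [Module S M] (D : Grd 𝒜 M)

theorem Grd.idem (i : ℤ) (m : M) : D.p i (D.p i m) = D.p i m := by
  classical
  by_cases hi : D.B < i.natAbs
  · rw [D.zero i hi, D.zero i hi]
  · have h1 := congrArg (D.p i) (D.sum m)
    rw [map_sum, Finset.sum_eq_single i (fun j _ hj => D.orth i j (Ne.symm hj) m)
      (fun h => absurd (Finset.mem_Icc.2 (by omega)) h)] at h1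
    exact h1

theorem Grd.pp (i j : ℤ) (m : M) : D.p i (D.p j m) = if i = j then D.p i m else 0 := by
  split_ifs with h
  · rw [h, D.idem]
  · exact D.orth i j h m

theorem Grd.smul' (i j : ℤ) {a : S} (ha : a ∈ 𝒜 j) (m : M) :
    D.p i (a • m) = a • D.p (i - j) m := by
  have := D.smul (i - j) j a ha m
  rwa [add_sub_cancel] at this

theorem Grd.ext_zero {m : M} (h : ∀ i, D.p i m = 0) : m = 0 := by
  rw [← D.sum m]
  exact Finset.sum_eq_zero fun i _ => h i

theorem Grd.ext {m m' : M} (h : ∀ i, D.p i m = D.p i m') : m = m' := by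
  rw [← sub_eq_zero]
  apply D.ext_zero
  intro i
  rw [map_sub, h, sub_self]

/-- graded submodules -/
def IsGr (N : Submodule S M) : Prop := ∀ x ∈ N, ∀ i, D.p i x ∈ N

/-- homogeneous endomorphisms -/
def Hmg (d : ℤ) (h : Module.End S M) : Prop := ∀ i m, D.p (i + d) (h m) = h (D.p i m)

variable {D}

theorem Hmg.ker {d : ℤ} {h : Module.End S M} (hh : Hmg D d h) : IsGr D (LinearMap.ker h) := by
  intro x hx i
  rw [LinearMap.mem_ker] at hx ⊢
  rw [← hh, hx, map_zero]

theorem Hmg.range {d : ℤ} {h : Module.End S M} (hh : Hmg D d h) : IsGr D (LinearMap.range h) := by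
  rintro _ ⟨x, rfl⟩ i
  refine ⟨D.p (i - d) x, ?_⟩
  rw [← hh, sub_add_cancel]

theorem Hmg.mul {d e : ℤ} {h k : Module.End S M} (hh : Hmg D d h) (hk : Hmg D e k) :
    Hmg D (e + d) (h * k) := by
  intro i m
  rw [Module.End.mul_apply, Module.End.mul_apply, ← hk, ← hh, add_assoc]

theorem Hmg.inv {d : ℤ} {h k : Module.End S M} (hh : Hmg D d h) (h1 : h * k = 1) (h2 : k * h = 1) :
    Hmg D (-d) k := by
  intro i m
  have h3 : ∀ x, k (h x) = x := fun x => by
    rw [← Module.End.mul_apply, h2, Module.End.one_apply]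
  have h4 : ∀ x, h (k x) = x := fun x => by
    rw [← Module.End.mul_apply, h1, Module.End.one_apply]
  rw [← h3 (D.p (i + -d) (k m)), ← hh, h4, neg_add_cancel_right]

theorem Hmg.zero (d : ℤ) : Hmg D d 0 := fun i m => by
  rw [LinearMap.zero_apply, LinearMap.zero_apply, map_zero]

theorem Hmg.add {d : ℤ} {h k : Module.End S M} (hh : Hmg D d h) (hk : Hmg D d k) :
    Hmg D d (h + k) := fun i m => by
  rw [LinearMap.add_apply, LinearMap.add_apply, map_add, hh, hk]

theorem Hmg.sub {d : ℤ} {h k : Module.End S M} (hh : Hmg D d h) (hk : Hmg D d k) :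
    Hmg D d (h - k) := fun i m => by
  rw [LinearMap.sub_apply, LinearMap.sub_apply, map_sub, hh, hk]

theorem Hmg.one : Hmg D 0 1 := fun i m => by
  rw [add_zero]; rfl

/-- a homogeneous endomorphism of nonzero degree is not invertible -/
theorem Hmg.not_isUnit [Nontrivial M] {d : ℤ} (hd : d ≠ 0) {h : Module.End S M}
    (hh : Hmg D d h) : ¬ IsUnit h := by
  intro hu
  have hinj : Function.Injective h := ((Module.End.isUnit_iff h).1 hu).1
  obtain ⟨m, hm⟩ := exists_ne (0 : M)
  have : ∃ i, D.p i m ≠ 0 := by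
    by_contra hcon
    push Not at hcon
    exact hm (D.ext_zero hcon)
  obtain ⟨i, hi⟩ := this
  have h1 : ∀ k : ℕ, D.p (i + k * d) ((h ^ k) m) = (h ^ k) (D.p i m) := by
    intro k
    induction k with
    | zero => simp
    | succ k ih =>
      rw [pow_succ', Module.End.mul_apply, Module.End.mul_apply, ← ih, ← hh]
      congr 2
      push_cast; ring
  have h2 : (h ^ (D.B + i.natAbs + 1)) (D.p i m) = 0 := by
    rw [← h1, D.zero]
    have h4 : ((D.B + i.natAbs + 1 : ℕ) : ℤ).natAbs ≤
        (((D.B + i.natAbs + 1 : ℕ) : ℤ) * d).natAbs := by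
      rw [Int.natAbs_mul]
      exact Nat.le_mul_of_pos_right _ (Int.natAbs_pos.2 hd)
    rw [Int.natAbs_natCast] at h4
    omega
  have h3 : Function.Injective (h ^ (D.B + i.natAbs + 1)) := by
    rw [Module.End.coe_pow]
    exact hinj.iterate _
  exact hi (h3 (by rw [h2, map_zero]))

variable (D)

/-- graded indecomposable modules -/
def GrIndec : Prop := ∀ A B : Submodule S M, IsGr D A → IsGr D B → IsCompl A B → A = ⊥ ∨ B = ⊥

/-- homogeneous non-isomorphisms -/
def NI : Set (Module.End S M) := {h | (∃ d, Hmg D d h) ∧ ¬ IsUnit h}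

section length

variable [IsArtinian S M] [IsNoetherian S M]

/-- the length of a submodule, a natural number -/
noncomputable def len (N : Submodule S M) : ℕ := (Module.length S N).toNat

theorem len_coe (N : Submodule S M) : (len N : ℕ∞) = Module.length S N :=
  ENat.natCast_toNat Module.length_ne_top

theorem len_mono {N N' : Submodule S M} (h : N ≤ N') : len N ≤ len N' := by
  have := Module.length_le_of_injective (Submodule.inclusion h) (Submodule.inclusion_injective h)
  rw [← len_coe, ← len_coe] at this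
  exact_mod_cast this

theorem len_lt {N N' : Submodule S M} (h : N < N') : len N < len N' := by
  have := Submodule.height_strictMono h
  rw [← Module.length_submodule, ← Module.length_submodule, ← len_coe, ← len_coe] at this
  exact_mod_cast this

theorem eq_of_len {N N' : Submodule S M} (h : N ≤ N') (h' : len N' ≤ len N) : N = N' := by
  by_contra hne
  exact absurd (len_lt (lt_of_le_of_ne h hne)) (not_lt.2 h')

theorem len_map (h : Module.End S M) (N : Submodule S M) :
    len N = len (N ⊓ LinearMap.ker h) + len (N.map h) := by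
  let f : ↥(N ⊓ LinearMap.ker h) →ₗ[S] N := Submodule.inclusion inf_le_left
  let g : N →ₗ[S] N.map h := h.restrict (fun x hx => Submodule.mem_map_of_mem hx)
  have hg : ∀ x : N, ((g x : N.map h) : M) = h x := fun x => rfl
  have := Module.length_eq_add_of_exact f g (Submodule.inclusion_injective _) (by
    rintro ⟨_, x, hx, rfl⟩
    exact ⟨⟨x, hx⟩, rfl⟩) (by
    intro x
    constructor
    · intro hx
      refine ⟨⟨x.1, x.2, ?_⟩, rfl⟩
      show h x = 0
      rw [← hg, hx]; rfl
    · rintro ⟨y, rfl⟩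
      apply Subtype.ext
      rw [hg]
      exact y.2.2)
  rw [← len_coe, ← len_coe, ← len_coe] at this
  exact_mod_cast this

omit [IsArtinian S M] [IsNoetherian S M] in
theorem len_bot : len (⊥ : Submodule S M) = 0 := by
  rw [len, Module.length_bot]; rfl

theorem eq_bot_of_len {N : Submodule S M} (h : len N = 0) : N = ⊥ :=
  (eq_of_len bot_le (by rw [h]; exact Nat.zero_le _)).symm

omit [IsNoetherian S M] in
theorem isUnit_of_injective {h : Module.End S M} (hi : Function.Injective h) : IsUnit h :=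
  (Module.End.isUnit_iff h).2 (IsArtinian.bijective_of_injective_endomorphism h hi)

omit [IsArtinian S M] [IsNoetherian S M] in
theorem hmg_of_mem_pow (m : ℕ) : ∀ f ∈ (NI D) ^ m, ∃ d, Hmg D d f := by
  induction m with
  | zero =>
    intro f hf
    rw [pow_zero, Set.mem_one] at hf
    exact ⟨0, hf ▸ Hmg.one⟩
  | succ m ih =>
    intro f hf
    rw [pow_succ, Set.mem_mul] at hf
    obtain ⟨a, ha, b, hb, rfl⟩ := hf
    obtain ⟨d, hd⟩ := ih a ha
    obtain ⟨⟨e, he⟩, _⟩ := hb
    exact ⟨_, hd.mul he⟩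

/-- the Harada-Sai argument -/
theorem hs (hind : GrIndec D) (k : ℕ) : ∀ f ∈ (NI D) ^ (2 ^ k - 1),
    f = 0 ∨ len (LinearMap.range f) + k ≤ len (⊤ : Submodule S M) := by
  induction k with
  | zero =>
    intro f _
    right
    rw [add_zero]
    exact len_mono le_top
  | succ k ih =>
    intro f hf
    have h2 : 2 ^ (k + 1) - 1 = (2 ^ k - 1) + 1 + (2 ^ k - 1) := by
      have : 0 < 2 ^ k := by positivity
      rw [pow_succ]; omega
    rw [h2, pow_add, pow_add, pow_one] at hf
    obtain ⟨ah, hah, b, hb, rfl⟩ := Set.mem_mul.1 hf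
    obtain ⟨a, ha, h, hh, rfl⟩ := Set.mem_mul.1 hah
    by_cases h0 : a * h * b = 0
    · left; exact h0
    right
    have ha0 : a ≠ 0 := by rintro rfl; exact h0 (by rw [zero_mul, zero_mul])
    have hb0 : b ≠ 0 := by rintro rfl; exact h0 (by rw [mul_zero])
    have h1 := (ih a ha).resolve_left ha0
    have h3 := (ih b hb).resolve_left hb0
    by_contra hcon
    push Not at hcon
    have hr1 : LinearMap.range (a * h * b) ≤ LinearMap.range (a * h) := by
      rintro _ ⟨x, rfl⟩
      exact ⟨b x, rfl⟩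
    have hr2 : LinearMap.range (a * h) ≤ LinearMap.range a := by
      rintro _ ⟨x, rfl⟩
      exact ⟨h x, rfl⟩
    have heq : LinearMap.range (a * h * b) = LinearMap.range (a * h) :=
      eq_of_len hr1 ((len_mono hr2).trans (by omega))
    have hmap : (LinearMap.range b).map (a * h) = LinearMap.range (a * h * b) := by
      rw [Module.End.mul_eq_comp (a * h) b, LinearMap.range_comp]
    have hl := len_map (a * h) (LinearMap.range b)
    rw [hmap] at hl
    have hdisj : LinearMap.range b ⊓ LinearMap.ker (a * h) = ⊥ := eq_bot_of_len (by omega)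
    have hcod : LinearMap.range b ⊔ LinearMap.ker (a * h) = ⊤ := by
      rw [eq_top_iff]
      intro x _
      have hx : (a * h) x ∈ LinearMap.range (a * h * b) := by rw [heq]; exact ⟨x, rfl⟩
      obtain ⟨y, hy⟩ := hx
      refine Submodule.mem_sup.2 ⟨b y, ⟨y, rfl⟩, x - b y, ?_, by abel⟩
      rw [LinearMap.mem_ker, map_sub, ← hy]
      exact sub_self _
    obtain ⟨d, hd⟩ := hmg_of_mem_pow D _ b hb
    obtain ⟨e, he⟩ := hmg_of_mem_pow D _ a ha
    obtain ⟨⟨d', hd'⟩, hnu⟩ := hh
    rcases hind _ _ hd.range (he.mul hd').ker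
      ⟨disjoint_iff.2 hdisj, codisjoint_iff.2 hcod⟩ with h4 | h4
    · exact hb0 (LinearMap.range_eq_bot.1 h4)
    · apply hnu
      apply isUnit_of_injective
      rw [← LinearMap.ker_eq_bot, eq_bot_iff]
      intro x hx
      rw [← h4, LinearMap.mem_ker, Module.End.mul_apply, LinearMap.mem_ker.1 hx, map_zero]

theorem nil (hind : GrIndec D) {N : Module.End S M} (hN : N ∈ Submodule.span ℤ (NI D)) :
    IsNilpotent N := by
  refine ⟨2 ^ (len (⊤ : Submodule S M)) - 1, ?_⟩
  have h1 : N ^ (2 ^ (len (⊤ : Submodule S M)) - 1) ∈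
      (Submodule.span ℤ (NI D)) ^ (2 ^ (len (⊤ : Submodule S M)) - 1) :=
    Submodule.pow_mem_pow _ hN _
  rw [Submodule.span_pow] at h1
  have h2 : (NI D) ^ (2 ^ (len (⊤ : Submodule S M)) - 1) ⊆ {0} := by
    intro f hf
    rcases hs D hind _ f hf with h | h
    · exact h
    · have h3 : len (LinearMap.range f) = 0 := by omega
      exact LinearMap.range_eq_bot.1 (eq_bot_of_len h3)
  have h3 := Submodule.span_mono (R := ℤ) h2 h1
  rw [Submodule.span_zero_singleton, Submodule.mem_bot] at h3
  exact h3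

end length

/-! ### Homogeneous components of endomorphisms -/

section comp

theorem sum_eq_finsum {A : Type w} [AddCommMonoid A] (B : ℕ) (F : ℤ → A)
    (hF : ∀ i : ℤ, B < i.natAbs → F i = 0) :
    ∑ i ∈ Finset.Icc (-(B : ℤ)) B, F i = ∑ᶠ i, F i := by
  symm
  apply finsum_eq_sum_of_support_subset
  intro i hi
  rw [Finset.coe_Icc, Set.mem_Icc]
  by_contra h
  exact hi (hF i (by omega))

theorem finsum_shift {A : Type w} [AddCommMonoid A] (F : ℤ → A) (j : ℤ) :
    ∑ᶠ i, F (i - j) = ∑ᶠ i, F i :=
  finsum_comp_equiv (Equiv.subRight j)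

theorem Grd.sum_shift (j : ℤ) (C : ℕ) (hC : D.B + j.natAbs ≤ C) (x : M) :
    ∑ d ∈ Finset.Icc (-(C : ℤ)) C, D.p (j + d) x = x := by
  rw [sum_eq_finsum C (fun d => D.p (j + d) x) (fun i hi => D.zero _ (by omega) x)]
  have h1 := finsum_shift (fun d => D.p (j + d) x) j
  rw [← h1]
  conv_rhs => rw [← D.sum x]
  rw [sum_eq_finsum D.B (fun d => D.p d x) (fun i hi => D.zero _ hi x)]
  apply finsum_congr
  intro i
  rw [add_sub_cancel]

variable [GradedRing 𝒜]

/-- additivity reduces scalar statements to homogeneous scalars -/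
theorem hom_induction {P : S → Prop} (h0 : P 0) (hh : ∀ i, ∀ a ∈ 𝒜 i, P a)
    (hadd : ∀ a b, P a → P b → P (a + b)) (a : S) : P a := by
  obtain ⟨B, hB⟩ := pr_bound 𝒜 a
  rw [← sum_pr 𝒜 a B hB]
  exact Finset.sum_induction _ P hadd h0 (fun i _ => hh i _ (pr_mem 𝒜 i a))

/-- homogeneous component of an endomorphism -/
noncomputable def comp (g : Module.End S M) (d : ℤ) : Module.End S M where
  toFun m := ∑ i ∈ Finset.Icc (-(D.B : ℤ)) D.B, D.p (i + d) (g (D.p i m))
  map_add' x y := by
    rw [← Finset.sum_add_distrib]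
    exact Finset.sum_congr rfl fun i _ => by rw [map_add, map_add, map_add]
  map_smul' a x := by
    rw [RingHom.id_apply]
    induction a using hom_induction (𝒜 := 𝒜) with
    | h0 =>
      rw [zero_smul, zero_smul]
      exact Finset.sum_eq_zero fun i _ => by rw [map_zero, map_zero, map_zero]
    | hadd a b ha hb =>
      rw [add_smul, add_smul, ← ha, ← hb, ← Finset.sum_add_distrib]
      exact Finset.sum_congr rfl fun i _ => by rw [map_add, map_add, map_add]
    | hh j a ha =>
      have h1 : ∀ i, D.p (i + d) (g (D.p i (a • x))) =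
          a • D.p (i - j + d) (g (D.p (i - j) x)) := by
        intro i
        rw [D.smul' i j ha, map_smul, D.smul' (i + d) j ha]
        congr 3
        ring
      rw [Finset.smul_sum, sum_eq_finsum D.B (fun i => D.p (i + d) (g (D.p i (a • x)))) (fun i hi => by
          rw [D.zero i hi, map_zero, map_zero]),
        sum_eq_finsum D.B (fun i => a • D.p (i + d) (g (D.p i x))) (fun i hi => by
          rw [D.zero i hi, map_zero, map_zero, smul_zero]),
        ← finsum_shift (fun i => a • D.p (i + d) (g (D.p i x))) j]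
      exact finsum_congr h1

theorem comp_apply (g : Module.End S M) (d : ℤ) (m : M) :
    comp D g d m = ∑ i ∈ Finset.Icc (-(D.B : ℤ)) D.B, D.p (i + d) (g (D.p i m)) := rfl

theorem comp_hmg (g : Module.End S M) (d : ℤ) : Hmg D d (comp D g d) := by
  intro j m
  rw [comp_apply, comp_apply, map_sum]
  apply Finset.sum_congr rfl
  intro i _
  rw [D.pp, D.pp]
  by_cases h : j = i
  · rw [if_pos (by rw [h]), if_pos h.symm, h]
  · rw [if_neg (fun h' => h (by omega)), if_neg (Ne.symm h), map_zero, map_zero]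

theorem sum_comp (g : Module.End S M) :
    ∑ d ∈ Finset.Icc (-((2 * D.B : ℕ) : ℤ)) (2 * D.B : ℕ), comp D g d = g := by
  ext m
  rw [LinearMap.sum_apply]
  have h1 : ∀ d, comp D g d m = ∑ i ∈ Finset.Icc (-(D.B : ℤ)) D.B, D.p (i + d) (g (D.p i m)) :=
    fun d => rfl
  rw [Finset.sum_congr rfl (fun d _ => h1 d), Finset.sum_comm]
  conv_rhs => rw [← D.sum m, map_sum]
  apply Finset.sum_congr rfl
  intro i hi
  rw [Finset.mem_Icc] at hi
  exact D.sum_shift i _ (by omega) _

variable [IsArtinian S M] [IsNoetherian S M]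

theorem isUnit_of_comp_zero [Nontrivial M] (hind : GrIndec D) (g : Module.End S M)
    (h : IsUnit (comp D g 0)) : IsUnit g := by
  classical
  obtain ⟨u, hu⟩ := h
  have hinv : Hmg D 0 (↑u⁻¹ : Module.End S M) := by
    have h1 : Hmg D 0 (u : Module.End S M) := hu ▸ comp_hmg D g 0
    have := h1.inv u.mul_inv u.inv_mul
    rwa [neg_zero] at this
  have h0 : (0 : ℤ) ∈ Finset.Icc (-((2 * D.B : ℕ) : ℤ)) (2 * D.B : ℕ) :=
    Finset.mem_Icc.2 (by omega)
  have hsum := sum_comp D g
  rw [← Finset.add_sum_erase _ _ h0, ← hu] at hsum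
  set R := ∑ d ∈ (Finset.Icc (-((2 * D.B : ℕ) : ℤ)) (2 * D.B : ℕ)).erase 0, comp D g d with hR
  have hspan : ↑u⁻¹ * R ∈ Submodule.span ℤ (NI D) := by
    rw [hR, Finset.mul_sum]
    apply Submodule.sum_mem
    intro d hd
    apply Submodule.subset_span
    have hd0 : d ≠ 0 := (Finset.mem_erase.1 hd).1
    have h1 : Hmg D (d + 0) (↑u⁻¹ * comp D g d) := hinv.mul (comp_hmg D g d)
    exact ⟨⟨_, h1⟩, h1.not_isUnit (by rwa [add_zero])⟩
  have hnil := nil D hind hspan
  have h1 : IsUnit (1 + ↑u⁻¹ * R) := hnil.isUnit_one_add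
  have h2 : g = u * (1 + ↑u⁻¹ * R) := by
    rw [mul_add, mul_one, ← mul_assoc, Units.mul_inv, one_mul, hsum]
  rw [h2]
  exact u.isUnit.mul h1

/-- endomorphism rings of graded indecomposable modules of finite length are local -/
theorem unit_or [Nontrivial M] (hind : GrIndec D) (g : Module.End S M) :
    IsUnit g ∨ IsUnit (1 - g) := by
  by_cases h : IsUnit (comp D g 0)
  · exact Or.inl (isUnit_of_comp_zero D hind g h)
  · right
    have hspan : g ∈ Submodule.span ℤ (NI D) := by
      rw [← sum_comp D g]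
      apply Submodule.sum_mem
      intro d _
      apply Submodule.subset_span
      refine ⟨⟨d, comp_hmg D g d⟩, ?_⟩
      by_cases hd : d = 0
      · rw [hd]; exact h
      · exact (comp_hmg D g d).not_isUnit hd
    exact (nil D hind hspan).isUnit_one_sub

end comp

end Pool.Agent.R706.GrMod
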