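import Mathlib
import Pool.Agent.R706.GrMod

/-!
# Summands of graded modules of finite length
-/

set_option autoImplicit false

namespace Pool.Agent.R706.GrMod

open Pool.Agent.R706.GrFin

universe u v w

section loc

variable {S : Type u} [Ring S]

/-- local endomorphism ring -/
def LocEnd (S : Type u) [Ring S] (U : Type v) [AddCommGroup U] [Module S U] : Prop :=
  ∀ g : Module.End S U, IsUnit g ∨ IsUnit (1 - g)

variable {U : Type v} [AddCommGroup U] [Module S U]

theorem locEnd_of_indec [IsArtinian S U] [IsNoetherian S U]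
    (h : ∀ A B : Submodule S U, IsCompl A B → A = ⊥ ∨ B = ⊥) : LocEnd S U := by
  intro g
  obtain ⟨n, hn⟩ := Filter.eventually_atTop.1 g.eventually_isCompl_ker_pow_range_pow
  rcases h _ _ (hn (n + 1) (by omega)) with h1 | h1
  · left
    apply isUnit_of_injective
    rw [← LinearMap.ker_eq_bot, eq_bot_iff, ← h1]
    intro x hx
    rw [LinearMap.mem_ker, pow_succ, Module.End.mul_apply, LinearMap.mem_ker.1 hx, map_zero]
  · right
    exact IsNilpotent.isUnit_one_sub ⟨n + 1, LinearMap.range_eq_bot.1 h1⟩

theorem LocEnd.of_add (hU : LocEnd S U) {a b : Module.End S U} (h : IsUnit (a + b)) :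
    IsUnit a ∨ IsUnit b := by
  obtain ⟨u, hu⟩ := h
  have h1 : (1 : Module.End S U) - ↑u⁻¹ * a = ↑u⁻¹ * b := by
    rw [sub_eq_iff_eq_add, ← mul_add, add_comm b a, ← hu, Units.inv_mul]
  rcases hU (↑u⁻¹ * a) with h2 | h2
  · left
    have := u.isUnit.mul h2
    rwa [← mul_assoc, Units.mul_inv, one_mul] at this
  · right
    rw [h1] at h2
    have := u.isUnit.mul h2
    rwa [← mul_assoc, Units.mul_inv, one_mul] at this

theorem LocEnd.of_sum [Nontrivial U] (hU : LocEnd S U) {ι : Type w} (s : Finset ι)
    (f : ι → Module.End S U) (h : IsUnit (∑ i ∈ s, f i)) : ∃ i ∈ s, IsUnit (f i) := by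
  classical
  induction s using Finset.induction_on with
  | empty =>
    rw [Finset.sum_empty] at h
    exact absurd h not_isUnit_zero
  | insert i s his ih =>
    rw [Finset.sum_insert his] at h
    rcases hU.of_add h with h1 | h1
    · exact ⟨i, Finset.mem_insert_self _ _, h1⟩
    · obtain ⟨j, hj, hj2⟩ := ih h1
      exact ⟨j, Finset.mem_insert_of_mem hj, hj2⟩

theorem retract_equiv {X : Type w} [AddCommGroup X] [Module S X] [Nontrivial X] (hU : LocEnd S U)
    (ι : X →ₗ[S] U) (π : U →ₗ[S] X) (h : ∀ x, π (ι x) = x) : Nonempty (X ≃ₗ[S] U) := by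
  have hidem : (ι ∘ₗ π : Module.End S U) * (ι ∘ₗ π) = ι ∘ₗ π := by
    ext y
    show ι (π (ι (π y))) = ι (π y)
    rw [h]
  have hinj : Function.Injective ι := Function.LeftInverse.injective h
  rcases hU (ι ∘ₗ π) with h1 | h1
  · have h2 : (ι ∘ₗ π : Module.End S U) = 1 :=
      (IsIdempotentElem.iff_eq_one_of_isUnit h1).1 hidem
    refine ⟨LinearEquiv.ofBijective ι ⟨hinj, fun y => ⟨π y, ?_⟩⟩⟩
    exact LinearMap.congr_fun h2 y
  · exfalso
    have h3 : (1 - ι ∘ₗ π : Module.End S U) * (1 - ι ∘ₗ π) = 1 - ι ∘ₗ π := by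
      rw [sub_mul, one_mul, mul_sub, mul_one, hidem, sub_self, sub_zero]
    have h2 : (1 - ι ∘ₗ π : Module.End S U) = 1 :=
      (IsIdempotentElem.iff_eq_one_of_isUnit h1).1 h3
    have h4 : ∀ y, ι (π y) = 0 := by
      intro y
      have := LinearMap.congr_fun h2 y
      rw [LinearMap.sub_apply, Module.End.one_apply, sub_eq_self] at this
      exact this
    obtain ⟨x, hx⟩ := exists_ne (0 : X)
    apply hx
    apply hinj
    rw [map_zero, ← h4 (ι x), h]

end loc

variable {S : Type u} [Ring S] {𝒜 : ℤ → AddSubgroup S}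

section restrict

variable {M : Type v} [AddCommGroup M] [Module S M] (D : Grd 𝒜 M)

/-- restriction of a grading to a graded submodule -/
def Grd.restrict (N : Submodule S M) (hN : IsGr D N) : Grd 𝒜 N where
  p i :=
    { toFun := fun x => ⟨D.p i x, hN x x.2 i⟩
      map_zero' := Subtype.ext (map_zero _)
      map_add' := fun x y => Subtype.ext (map_add (D.p i) x.1 y.1) }
  B := D.B
  zero i hi m := Subtype.ext (D.zero i hi m)
  orth i j hij m := Subtype.ext (D.orth i j hij m)
  sum m := by
    apply Subtype.ext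
    rw [AddSubmonoidClass.coe_finsetSum]
    exact D.sum m
  smul i j a ha m := Subtype.ext (D.smul i j a ha m)

theorem Grd.restrict_p (N : Submodule S M) (hN : IsGr D N) (i : ℤ) (x : N) :
    (((D.restrict N hN).p i x : N) : M) = D.p i x := rfl

theorem hmg_projection {A B : Submodule S M} (h : IsCompl A B) (hA : IsGr D A) (hB : IsGr D B) :
    Hmg D 0 (A.projection B h) := by
  intro i x
  rw [add_zero]
  obtain ⟨a, ha, b, hb, rfl⟩ := Submodule.mem_sup.1 (h.sup_eq_top ▸ Submodule.mem_top :
    x ∈ A ⊔ B)
  rw [map_add (A.projection B h), map_add (D.p i), map_add (D.p i), map_add (A.projection B h),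
    Submodule.projection_apply_of_mem_left h ha,
    Submodule.projection_apply_of_mem_left h (hA a ha i),
    (Submodule.projection_apply_eq_zero_iff h).2 hb,
    (Submodule.projection_apply_eq_zero_iff h).2 (hB b hb i), map_zero, add_zero]

variable {D}

/-- the endomorphism of `M` given by an endomorphism of the range of an idempotent -/
def cut (e : Module.End S M) (q : Module.End S (LinearMap.range e)) : Module.End S M :=
  (LinearMap.range e).subtype ∘ₗ q ∘ₗ e.rangeRestrict

theorem cut_apply (e : Module.End S M) (q : Module.End S (LinearMap.range e)) (x : M) :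
    cut e q x = q (e.rangeRestrict x) := rfl

theorem coe_rr (e : Module.End S M) (x : M) :
    ((e.rangeRestrict x : LinearMap.range e) : M) = e x := rfl

theorem rangeRestrict_self {e : Module.End S M} (he : e * e = e) (y : LinearMap.range e) :
    e.rangeRestrict y = y := by
  apply Subtype.ext
  obtain ⟨x, hx⟩ := y.2
  rw [coe_rr, ← hx, ← Module.End.mul_apply, he]

theorem cut_mul {e : Module.End S M} (he : e * e = e) (q q' : Module.End S (LinearMap.range e)) :
    cut e q * cut e q' = cut e (q * q') := by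
  ext x
  rw [Module.End.mul_apply, cut_apply, cut_apply, cut_apply, rangeRestrict_self he]
  rfl

theorem cut_one {e : Module.End S M} : cut e 1 = e := by
  ext x
  rfl

theorem mul_cut {e : Module.End S M} (he : e * e = e) (q : Module.End S (LinearMap.range e)) :
    e * cut e q = cut e q := by
  have h1 : cut e 1 * cut e q = cut e q := by rw [cut_mul he, one_mul]
  rwa [cut_one] at h1

theorem cut_mul' {e : Module.End S M} (he : e * e = e) (q : Module.End S (LinearMap.range e)) :
    cut e q * e = cut e q := by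
  have h1 : cut e q * cut e 1 = cut e q := by rw [cut_mul he, mul_one]
  rwa [cut_one] at h1

theorem cut_hmg {e : Module.End S M} (he : Hmg D 0 e) {q : Module.End S (LinearMap.range e)}
    (hq : Hmg (D.restrict _ he.range) 0 q) : Hmg D 0 (cut e q) := by
  intro i x
  rw [cut_apply, cut_apply, ← Grd.restrict_p D _ he.range, hq]
  congr 2
  apply Subtype.ext
  rw [Grd.restrict_p, coe_rr, coe_rr, ← he, add_zero]

theorem range_cut {e : Module.End S M} (he : e * e = e) (q : Module.End S (LinearMap.range e)) :
    LinearMap.range (cut e q) = (LinearMap.range q).map (LinearMap.range e).subtype := by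
  ext y
  constructor
  · rintro ⟨x, rfl⟩
    exact ⟨q (e.rangeRestrict x), ⟨_, rfl⟩, rfl⟩
  · rintro ⟨_, ⟨z, rfl⟩, rfl⟩
    exact ⟨z, by rw [cut_apply, rangeRestrict_self he]; rfl⟩

end restrict

section core

variable [GradedRing 𝒜] {Z : Type v} [AddCommGroup Z] [Module S Z] [IsArtinian S Z]
  [IsNoetherian S Z] (D : Grd 𝒜 Z)

/-- A summand with local endomorphism ring of a graded module of finite length is isomorphic to a
graded indecomposable graded summand. -/
theorem core (e0 : Module.End S Z) (he0 : e0 * e0 = e0) (hg0 : Hmg D 0 e0)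
    {U : Type w} [AddCommGroup U] [Module S U] [Nontrivial U] (hU : LocEnd S U)
    (ι : U →ₗ[S] Z) (π : Z →ₗ[S] U) (hu : IsUnit (π ∘ₗ e0 ∘ₗ ι : Module.End S U)) :
    ∃ (e : Module.End S Z) (he : Hmg D 0 e), e * e = e ∧ e0 * e = e ∧ e * e0 = e ∧
      GrIndec (D.restrict _ he.range) ∧ Nonempty (U ≃ₗ[S] LinearMap.range e) := by
  obtain ⟨N, ⟨e, he, hhe, h01, h10, hue, rfl⟩, hmin⟩ :=
    (inferInstance : WellFoundedLT (Submodule S Z)).wf.has_min
    {N : Submodule S Z | ∃ e : Module.End S Z, e * e = e ∧ Hmg D 0 e ∧ e0 * e = e ∧ e * e0 = e ∧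
      IsUnit (π ∘ₗ e ∘ₗ ι : Module.End S U) ∧ LinearMap.range e = N}
    ⟨_, e0, he0, hg0, he0, he0, hu, rfl⟩
  have hind : GrIndec (D.restrict _ hhe.range) := by
    have main : ∀ A B : Submodule S (LinearMap.range e), IsGr (D.restrict _ hhe.range) A →
        IsGr (D.restrict _ hhe.range) B → (h : IsCompl A B) →
        IsUnit (π ∘ₗ (cut e (A.projection B h)) ∘ₗ ι : Module.End S U) → B = ⊥ := by
      intro A B hA hB h hunit
      have hq : Hmg (D.restrict _ hhe.range) 0 (A.projection B h) := hmg_projection _ h hA hB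
      have hqi : A.projection B h * A.projection B h = A.projection B h :=
        Submodule.isIdempotentElem_projection h
      have h1 : ¬ LinearMap.range (cut e (A.projection B h)) < LinearMap.range e := by
        apply hmin
        refine ⟨cut e (A.projection B h), ?_, cut_hmg hhe hq, ?_, ?_, hunit, rfl⟩
        · rw [cut_mul he, hqi]
        · rw [← mul_cut he, ← mul_assoc, h01]
        · rw [← cut_mul' he, mul_assoc, h10]
      have h2 : LinearMap.range (cut e (A.projection B h)) ≤ LinearMap.range e := by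
        rw [← mul_cut he]
        rintro _ ⟨x, rfl⟩
        exact ⟨_, rfl⟩
      have h3 : LinearMap.range (cut e (A.projection B h)) = LinearMap.range e := by
        by_contra hne
        exact h1 (lt_of_le_of_ne h2 hne)
      rw [range_cut he, Submodule.range_projection] at h3
      have h4 : A = ⊤ := by
        apply Submodule.map_injective_of_injective (LinearMap.range e).injective_subtype
        rw [h3, Submodule.map_top, Submodule.range_subtype]
      rw [h4] at h
      exact eq_bot_of_top_isCompl h
    intro A B hA hB h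
    have hsum : (π ∘ₗ e ∘ₗ ι : Module.End S U) =
        π ∘ₗ (cut e (A.projection B h)) ∘ₗ ι + π ∘ₗ (cut e (B.projection A h.symm)) ∘ₗ ι := by
      ext x
      show π (e (ι x)) = π (cut e (A.projection B h) (ι x)) + π (cut e (B.projection A h.symm) (ι x))
      rw [← map_add, cut_apply, cut_apply, ← Submodule.coe_add,
        Submodule.projection_add_projection_eq_self, coe_rr]
    rw [hsum] at hue
    rcases hU.of_add hue with h1 | h1
    · exact Or.inr (main A B hA hB h h1)
    · exact Or.inl (main B A hB hA h.symm h1)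
  refine ⟨e, hhe, he, h01, h10, hind, ?_⟩
  have hnt : Nontrivial (LinearMap.range e) := by
    rw [Submodule.nontrivial_iff_ne_bot]
    intro h
    have he0 : e = 0 := LinearMap.range_eq_bot.1 h
    rw [he0] at hue
    have h0 : (π ∘ₗ (0 : Module.End S Z) ∘ₗ ι : Module.End S U) = 0 := by
      ext x
      exact map_zero π
    rw [h0] at hue
    exact not_isUnit_zero hue
  obtain ⟨u, hu'⟩ := hue
  exact retract_equiv (unit_or (D.restrict _ hhe.range) hind) (e.rangeRestrict ∘ₗ ι)
    ((↑u⁻¹ : Module.End S U) ∘ₗ π ∘ₗ (LinearMap.range e).subtype) (fun x => by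
      show (↑u⁻¹ : Module.End S U) (π (e (ι x))) = x
      have h1 : π (e (ι x)) = (u : Module.End S U) x := by rw [hu']; rfl
      rw [h1, ← Module.End.mul_apply, Units.inv_mul, Module.End.one_apply])

end core

section bound

variable [GradedRing 𝒜] {M : Type v} [AddCommGroup M] [Module S M] (D : Grd 𝒜 M)

/-- a submodule from a predicate which is closed under homogeneous scalars -/
def subOf (P : M → Prop) (h0 : P 0) (hadd : ∀ x y, P x → P y → P (x + y))
    (hs : ∀ j, ∀ a ∈ 𝒜 j, ∀ x, P x → P (a • x)) : Submodule S M where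
  carrier := {x | P x}
  zero_mem' := h0
  add_mem' := fun {x y} hx hy => hadd x y hx hy
  smul_mem' a x hx := by
    show P (a • x)
    induction a using hom_induction (𝒜 := 𝒜) with
    | h0 => rw [zero_smul]; exact h0
    | hh j a ha => exact hs j a ha x hx
    | hadd a b ha hb => rw [add_smul]; exact hadd _ _ ha hb

theorem gap (hind : GrIndec D) {n : ℕ} (hn : ∀ j : ℤ, n < j.natAbs → 𝒜 j = ⊥) (a : ℤ)
    (h : ∀ j, a < j → j ≤ a + n → ∀ m, D.p j m = 0) :
    (∀ j, j ≤ a → ∀ m, D.p j m = 0) ∨ (∀ j, a < j → ∀ m, D.p j m = 0) := by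
  classical
  let A : Submodule S M := subOf (𝒜 := 𝒜) (fun x => ∀ j, a < j → D.p j x = 0)
    (fun j _ => map_zero _) (fun x y hx hy j hj => by rw [map_add, hx j hj, hy j hj, add_zero])
    (fun t s hs x hx j hj => by
      by_cases ht : n < t.natAbs
      · rw [hn t ht, AddSubgroup.mem_bot] at hs
        rw [hs, zero_smul, map_zero]
      · by_cases hjt : a < j - t
        · rw [D.smul' j t hs, hx _ hjt, smul_zero]
        · exact h j hj (by omega) _)
  let B : Submodule S M := subOf (𝒜 := 𝒜) (fun x => ∀ j, j ≤ a → D.p j x = 0)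
    (fun j _ => map_zero _) (fun x y hx hy j hj => by rw [map_add, hx j hj, hy j hj, add_zero])
    (fun t s hs x hx j hj => by
      by_cases ht : n < t.natAbs
      · rw [hn t ht, AddSubgroup.mem_bot] at hs
        rw [hs, zero_smul, map_zero]
      · rw [D.smul' j t hs]
        by_cases hjt : j - t ≤ a
        · rw [hx _ hjt, smul_zero]
        · rw [h _ (by omega) (by omega), smul_zero])
  have hmA : ∀ x, x ∈ A ↔ ∀ j, a < j → D.p j x = 0 := fun x => Iff.rfl
  have hmB : ∀ x, x ∈ B ↔ ∀ j, j ≤ a → D.p j x = 0 := fun x => Iff.rfl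
  have hA : IsGr D A := by
    intro x hx i
    rw [hmA] at hx ⊢
    intro j hj
    rw [D.pp]
    split_ifs
    · exact hx j hj
    · rfl
  have hB : IsGr D B := by
    intro x hx i
    rw [hmB] at hx ⊢
    intro j hj
    rw [D.pp]
    split_ifs
    · exact hx j hj
    · rfl
  have hpA : ∀ i, i ≤ a → ∀ m, D.p i m ∈ A := by
    intro i hi m
    rw [hmA]
    intro j hj
    exact D.orth j i (by omega) m
  have hpB : ∀ i, a < i → ∀ m, D.p i m ∈ B := by
    intro i hi m
    rw [hmB]
    intro j hj
    exact D.orth j i (by omega) m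
  have hc : IsCompl A B := by
    constructor
    · rw [disjoint_iff, eq_bot_iff]
      rintro x ⟨hxA, hxB⟩
      rw [Submodule.mem_bot]
      apply D.ext_zero
      intro i
      by_cases hi : a < i
      · exact hxA i hi
      · exact hxB i (by omega)
    · rw [codisjoint_iff, eq_top_iff]
      intro x _
      rw [← D.sum x]
      apply Submodule.sum_mem
      intro i _
      by_cases hi : a < i
      · exact Submodule.mem_sup_right (hpB i hi x)
      · exact Submodule.mem_sup_left (hpA i (by omega) x)
  rcases hind A B hA hB hc with h1 | h1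
  · left
    intro j hj m
    have := hpA j hj m
    rwa [h1, Submodule.mem_bot] at this
  · right
    intro j hj m
    have := hpB j hj m
    rwa [h1, Submodule.mem_bot] at this

/-- the largest submodule living in degrees `< b` -/
def Wsub (b : ℤ) : Submodule S M where
  carrier := {x | ∀ s : S, ∀ l, b ≤ l → D.p l (s • x) = 0}
  zero_mem' s l _ := by rw [smul_zero, map_zero]
  add_mem' {x y} hx hy s l hl := by rw [smul_add, map_add, hx s l hl, hy s l hl, add_zero]
  smul_mem' t x hx s l hl := by
    rw [← mul_smul]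
    exact hx (s * t) l hl

omit [GradedRing 𝒜] in
theorem Wsub_mono {b b' : ℤ} (h : b ≤ b') : Wsub D b ≤ Wsub D b' := fun _ hx s l hl =>
  hx s l (by omega)

theorem p_mem_Wsub {n : ℕ} (hn : ∀ j : ℤ, n < j.natAbs → 𝒜 j = ⊥) {j b : ℤ} (h : j + n < b)
    (m : M) : D.p j m ∈ Wsub D b := by
  intro s l hl
  induction s using hom_induction (𝒜 := 𝒜) with
  | h0 => rw [zero_smul, map_zero]
  | hadd s t hs ht => rw [add_smul, map_add, hs, ht, add_zero]
  | hh t s hs =>
    by_cases ht : n < t.natAbs
    · rw [hn t ht, AddSubgroup.mem_bot] at hs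
      rw [hs, zero_smul, map_zero]
    · rw [D.smul' l t hs, D.orth _ _ (by omega), smul_zero]

theorem support_aux [IsArtinian S M] [IsNoetherian S M] (hind : GrIndec D) {n : ℕ} (hn1 : 1 ≤ n)
    (hn : ∀ j : ℤ, n < j.natAbs → 𝒜 j = ⊥) {α β : ℤ} (hαβ : α ≤ β) (hα : ∃ m, D.p α m ≠ 0)
    (hβ : ∃ m, D.p β m ≠ 0) : β - α < 2 * n * len (⊤ : Submodule S M) := by
  by_contra hcon
  push Not at hcon
  have key : ∀ k : ℕ, k ≤ len (⊤ : Submodule S M) + 1 → k ≤ len (Wsub D (α + 2 * n * k)) := by
    intro k
    induction k with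
    | zero => intro _; exact Nat.zero_le _
    | succ k ih =>
      intro hk
      have h1 := ih (by omega)
      have hbk : α + 2 * n * ((k + 1 : ℕ) : ℤ) = α + 2 * n * k + 2 * n := by push_cast; ring
      have hkl : (2 * n * k : ℤ) ≤ 2 * n * len (⊤ : Submodule S M) := by
        have : (k : ℤ) ≤ len (⊤ : Submodule S M) := by exact_mod_cast (by omega)
        exact mul_le_mul_of_nonneg_left this (by positivity)
      have hex : ∃ j, α + 2 * n * k ≤ j ∧ j ≤ α + 2 * n * k + n - 1 ∧ ∃ m, D.p j m ≠ 0 := by
        rcases Nat.eq_zero_or_pos k with hk0 | hk0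
        · refine ⟨α, ?_, ?_, hα⟩
          · rw [hk0]; simp
          · rw [hk0]
            have : (1 : ℤ) ≤ n := by exact_mod_cast hn1
            push_cast
            omega
        · by_contra hno
          push Not at hno
          have hpos : (0 : ℤ) < 2 * n * k := by
            have h3 : (0 : ℤ) < n := by exact_mod_cast hn1
            have h4 : (0 : ℤ) < k := by exact_mod_cast hk0
            positivity
          rcases gap D hind hn (α + 2 * n * k - 1) (fun j hj1 hj2 m =>
            hno j (by omega) (by omega) m) with h2 | h2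
          · obtain ⟨m, hm⟩ := hα
            exact hm (h2 α (by omega) m)
          · obtain ⟨m, hm⟩ := hβ
            exact hm (h2 β (by omega) m)
      obtain ⟨j, hj1, hj2, m, hm⟩ := hex
      have hlt : Wsub D (α + 2 * n * k) < Wsub D (α + 2 * n * ((k + 1 : ℕ) : ℤ)) := by
        apply lt_of_le_of_ne (Wsub_mono D (by rw [hbk]; omega))
        intro heq
        have h3 : D.p j m ∈ Wsub D (α + 2 * n * ((k + 1 : ℕ) : ℤ)) :=
          p_mem_Wsub D hn (by rw [hbk]; omega) m
        rw [← heq] at h3
        have h4 := h3 1 j hj1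
        rw [one_smul, D.idem] at h4
        exact hm h4
      have := len_lt hlt
      omega
  have h1 := key (len (⊤ : Submodule S M) + 1) le_rfl
  have h2 := len_mono (le_top : Wsub D (α + 2 * n * ((len (⊤ : Submodule S M) + 1 : ℕ) : ℤ)) ≤ ⊤)
  omega

/-- graded indecomposable modules of bounded length have bounded support -/
theorem support_bound [IsArtinian S M] [IsNoetherian S M] (hind : GrIndec D) {n : ℕ} (hn1 : 1 ≤ n)
    (hn : ∀ j : ℤ, n < j.natAbs → 𝒜 j = ⊥) (h0 : ∃ m, D.p 0 m ≠ 0) {L : ℕ}
    (hL : len (⊤ : Submodule S M) ≤ L) (i : ℤ) (hi : 2 * n * L ≤ i.natAbs) (m : M) :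
    D.p i m = 0 := by
  by_contra hm
  have hle : 2 * n * len (⊤ : Submodule S M) ≤ 2 * n * L := Nat.mul_le_mul_left _ hL
  have hle' : (2 * n * len (⊤ : Submodule S M) : ℤ) ≤ 2 * n * L := by exact_mod_cast hle
  have hi' : (2 * n * L : ℤ) ≤ i.natAbs := by exact_mod_cast hi
  rcases le_total 0 i with h | h
  · have := support_aux D hind hn1 hn h h0 ⟨m, hm⟩
    omega
  · have := support_aux D hind hn1 hn h ⟨m, hm⟩ h0
    omega

end bound

end Pool.Agent.R706.GrMod
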