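import Mathlib
import Pool.Agent.R706.GrSum

/-!
# The graded module of a module and the key step
-/

set_option autoImplicit false

namespace Pool.Agent.R706.GrMod

open Pool.Agent.R706.GrFin

universe u v w

variable {S : Type u} [Ring S] (𝒜 : ℤ → AddSubgroup S) [GradedRing 𝒜]
  (Y : Type v) [AddCommGroup Y] [Module S Y]

/-- homogeneous elements act by scaling and shifting -/
def rhoAux (i : ℤ) : 𝒜 i →+ AddMonoid.End (ℤ → Y) where
  toFun a :=
    { toFun := fun φ k => (a : S) • φ (k - i)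
      map_zero' := by
        funext k
        exact smul_zero _
      map_add' := fun φ ψ => by
        funext k
        exact smul_add _ _ _ }
  map_zero' := by
    ext φ k
    exact zero_smul _ _
  map_add' a b := by
    ext φ k
    exact add_smul _ _ _

theorem rhoAux_apply (i : ℤ) (a : 𝒜 i) (φ : ℤ → Y) (k : ℤ) :
    rhoAux 𝒜 Y i a φ k = (a : S) • φ (k - i) := rfl

/-- the action of `S` on `Y[t, t⁻¹]` -/
noncomputable def rho : S →+* AddMonoid.End (ℤ → Y) :=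
  (DirectSum.toSemiring (rhoAux 𝒜 Y) (by
      ext φ k
      rw [rhoAux_apply]
      show (1 : S) • φ (k - 0) = φ k
      rw [one_smul, sub_zero]) (fun {i j} a b => by
      ext φ k
      rw [rhoAux_apply]
      show ((a : S) * (b : S)) • φ (k - (i + j)) = (a : S) • ((b : S) • φ (k - i - j))
      rw [mul_smul, sub_sub])).comp (DirectSum.decomposeRingEquiv 𝒜 : S →+* _)

theorem rho_hom {i : ℤ} {a : S} (ha : a ∈ 𝒜 i) (φ : ℤ → Y) (k : ℤ) :
    rho 𝒜 Y a φ k = a • φ (k - i) := by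
  have h1 : (DirectSum.decomposeRingEquiv 𝒜 : S →+* _) a = DirectSum.of (fun i => 𝒜 i) i ⟨a, ha⟩ :=
    DirectSum.decompose_of_mem 𝒜 ha
  rw [rho, RingHom.comp_apply, h1, DirectSum.toSemiring_of, rhoAux_apply]

/-- the module `Y[t, t⁻¹]`, completed -/
def GY (_ : ℤ → AddSubgroup S) (Y : Type v) : Type v := ℤ → Y

instance : AddCommGroup (GY 𝒜 Y) := inferInstanceAs (AddCommGroup (ℤ → Y))

noncomputable instance : Module S (GY 𝒜 Y) := Module.compHom (ℤ → Y) (rho 𝒜 Y)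

variable {𝒜} {Y}

variable (𝒜) in
/-- evaluation -/
def ev (k : ℤ) : GY 𝒜 Y →+ Y where
  toFun φ := φ k
  map_zero' := rfl
  map_add' _ _ := rfl

theorem ev_ext {φ ψ : GY 𝒜 Y} (h : ∀ k, ev 𝒜 k φ = ev 𝒜 k ψ) : φ = ψ := funext h

theorem smul_app {i : ℤ} {a : S} (ha : a ∈ 𝒜 i) (φ : GY 𝒜 Y) (k : ℤ) :
    ev 𝒜 k (a • φ) = a • ev 𝒜 (k - i) φ := rho_hom 𝒜 Y ha φ k

variable (𝒜) in
/-- the element `y t^i` -/
def sg (i : ℤ) : Y →+ GY 𝒜 Y where
  toFun y := fun k => if k = i then y else 0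
  map_zero' := by
    funext k
    exact ite_self _
  map_add' x y := by
    funext k
    show (if k = i then x + y else 0) = (if k = i then x else 0) + (if k = i then y else 0)
    split_ifs
    · rfl
    · rw [add_zero]

theorem sg_app (i k : ℤ) (y : Y) : ev 𝒜 k (sg 𝒜 i y) = if k = i then y else 0 := rfl

theorem smul_sg {j : ℤ} {a : S} (ha : a ∈ 𝒜 j) (i : ℤ) (y : Y) :
    a • sg 𝒜 i y = sg 𝒜 (i + j) (a • y) := by
  apply ev_ext
  intro k
  rw [smul_app ha, sg_app, sg_app]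
  by_cases h : k = i + j
  · rw [if_pos (by omega), if_pos h]
  · rw [if_neg (by omega), if_neg h, smul_zero]

variable (𝒜) {m : ℕ} (g : Fin m → Y) (N : ℕ)

/-- a finitely generated graded submodule -/
noncomputable def ZZ : Submodule S (GY 𝒜 Y) :=
  Submodule.span S {x | ∃ i : ℤ, i.natAbs ≤ N ∧ ∃ k, x = sg 𝒜 i (g k)}

theorem ZZ_fg : Module.Finite S (ZZ 𝒜 g N) := by
  rw [Module.Finite.iff_fg]
  apply Submodule.fg_span
  apply Set.Finite.subset (((Finset.Icc (-(N : ℤ)) N) ×ˢ (Finset.univ : Finset (Fin m))).finite_toSet.image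
    (fun x => sg 𝒜 x.1 (g x.2)))
  rintro _ ⟨i, hi, k, rfl⟩
  refine ⟨(i, k), ?_, rfl⟩
  rw [Finset.mem_coe, Finset.mem_product, Finset.mem_Icc]
  exact ⟨⟨by omega, by omega⟩, Finset.mem_univ _⟩

variable {𝒜} {n : ℕ} (hn : ∀ j : ℤ, n < j.natAbs → 𝒜 j = ⊥)

include hn in
theorem ZZ_supp {x : GY 𝒜 Y} (hx : x ∈ ZZ 𝒜 g N) (k : ℤ) (hk : N + n < k.natAbs) :
    ev 𝒜 k x = 0 := by
  let W : Submodule S (GY 𝒜 Y) :=
    { carrier := {x | ∀ s : S, ∀ k : ℤ, N + n < k.natAbs → ev 𝒜 k (s • x) = 0}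
      zero_mem' := fun s k _ => by rw [smul_zero, map_zero]
      add_mem' := fun {x y} hx hy s k hk => by
        rw [smul_add, map_add, hx s k hk, hy s k hk, add_zero]
      smul_mem' := fun t x hx s k hk => by
        rw [← mul_smul]
        exact hx (s * t) k hk }
  have hle : ZZ 𝒜 g N ≤ W := by
    rw [ZZ, Submodule.span_le]
    rintro _ ⟨i, hi, k, rfl⟩ s l hl
    induction s using hom_induction (𝒜 := 𝒜) with
    | h0 => rw [zero_smul, map_zero]
    | hadd s t hs ht => rw [add_smul, map_add, hs, ht, add_zero]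
    | hh t s hs =>
      by_cases ht : n < t.natAbs
      · rw [hn t ht, AddSubgroup.mem_bot] at hs
        rw [hs, zero_smul, map_zero]
      · rw [smul_sg hs, sg_app, if_neg (by omega)]
  have := hle hx 1 k hk
  rwa [one_smul] at this

theorem ZZ_gr {x : GY 𝒜 Y} (hx : x ∈ ZZ 𝒜 g N) (i : ℤ) : sg 𝒜 i (ev 𝒜 i x) ∈ ZZ 𝒜 g N := by
  let W : Submodule S (GY 𝒜 Y) := subOf (𝒜 := 𝒜) (fun x => ∀ i, sg 𝒜 i (ev 𝒜 i x) ∈ ZZ 𝒜 g N)
    (fun i => by rw [map_zero, map_zero]; exact Submodule.zero_mem _)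
    (fun x y hx hy i => by rw [map_add, map_add]; exact Submodule.add_mem _ (hx i) (hy i))
    (fun j a ha x hx i => by
      have h1 : sg 𝒜 i (ev 𝒜 i (a • x)) = a • sg 𝒜 (i - j) (ev 𝒜 (i - j) x) := by
        rw [smul_app ha, smul_sg ha, sub_add_cancel]
      rw [h1]
      exact Submodule.smul_mem _ _ (hx _))
  have hle : ZZ 𝒜 g N ≤ W := by
    conv_lhs => rw [ZZ]
    rw [Submodule.span_le]
    rintro _ ⟨i, hi, k, rfl⟩ l
    show sg 𝒜 l (ev 𝒜 l (sg 𝒜 i (g k))) ∈ ZZ 𝒜 g N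
    rw [sg_app]
    split_ifs with h
    · rw [h]
      exact Submodule.subset_span ⟨i, hi, k, rfl⟩
    · rw [map_zero]; exact Submodule.zero_mem _
  exact hle hx i

include hn in
theorem sg_mem_ZZ (hg : Submodule.span S (Set.range g) = ⊤) {i : ℤ} (hi : i.natAbs + n ≤ N)
    (y : Y) : sg 𝒜 i y ∈ ZZ 𝒜 g N := by
  have hy : y ∈ Submodule.span S (Set.range g) := by rw [hg]; trivial
  obtain ⟨c, rfl⟩ := (Submodule.mem_span_range_iff_exists_fun S).1 hy
  rw [map_sum]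
  apply Submodule.sum_mem
  intro k _
  generalize c k = s
  induction s using hom_induction (𝒜 := 𝒜) with
  | h0 => rw [zero_smul, map_zero]; exact Submodule.zero_mem _
  | hadd s t hs ht => rw [add_smul, map_add]; exact Submodule.add_mem _ hs ht
  | hh t s hs =>
    by_cases ht : n < t.natAbs
    · rw [hn t ht, AddSubgroup.mem_bot] at hs
      rw [hs, zero_smul, map_zero]; exact Submodule.zero_mem _
    · have h1 : sg 𝒜 i (s • g k) = s • sg 𝒜 (i - t) (g k) := by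
        rw [smul_sg hs, sub_add_cancel]
      rw [h1]
      exact Submodule.smul_mem _ _ (Submodule.subset_span ⟨i - t, by omega, k, rfl⟩)

/-- the grading of `ZZ` -/
noncomputable def ZD : Grd 𝒜 (ZZ 𝒜 g N) where
  p i :=
    { toFun := fun x => ⟨sg 𝒜 i (ev 𝒜 i x.1), ZZ_gr g N x.2 i⟩
      map_zero' := Subtype.ext (by
        show sg 𝒜 i (ev 𝒜 i (0 : GY 𝒜 Y)) = 0
        rw [map_zero, map_zero])
      map_add' := fun x y => Subtype.ext (by
        show sg 𝒜 i (ev 𝒜 i (x.1 + y.1)) = sg 𝒜 i (ev 𝒜 i x.1) + sg 𝒜 i (ev 𝒜 i y.1)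
        rw [map_add, map_add]) }
  B := N + n
  zero i hi x := Subtype.ext (by
    show sg 𝒜 i (ev 𝒜 i x.1) = 0
    rw [ZZ_supp g N hn x.2 i hi, map_zero])
  orth i j hij x := Subtype.ext (by
    show sg 𝒜 i (ev 𝒜 i (sg 𝒜 j (ev 𝒜 j x.1))) = 0
    rw [sg_app, if_neg hij, map_zero])
  sum x := Subtype.ext (by
    rw [AddSubmonoidClass.coe_finsetSum]
    apply ev_ext
    intro k
    rw [map_sum]
    show ∑ i ∈ Finset.Icc (-((N + n : ℕ) : ℤ)) (N + n : ℕ), ev 𝒜 k (sg 𝒜 i (ev 𝒜 i x.1)) =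
      ev 𝒜 k x.1
    have h1 : ∀ i, ev 𝒜 k (sg 𝒜 i (ev 𝒜 i x.1)) = if k = i then ev 𝒜 k x.1 else 0 := by
      intro i
      rw [sg_app]
      split_ifs with h
      · rw [h]
      · rfl
    rw [Finset.sum_congr rfl (fun i _ => h1 i), Finset.sum_ite_eq]
    split_ifs with h
    · rfl
    · rw [Finset.mem_Icc] at h
      rw [ZZ_supp g N hn x.2 k (by omega)])
  smul i j a ha x := Subtype.ext (by
    show sg 𝒜 (j + i) (ev 𝒜 (j + i) (a • x.1)) = a • sg 𝒜 i (ev 𝒜 i x.1)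
    rw [smul_app ha, smul_sg ha, add_sub_cancel_left, add_comm])

theorem ZD_p (i : ℤ) (x : ZZ 𝒜 g N) : (((ZD g N hn).p i x : ZZ 𝒜 g N) : GY 𝒜 Y) =
    sg 𝒜 i (ev 𝒜 i x.1) := rfl

/-- the canonical map to `Y` -/
noncomputable def qq : ZZ 𝒜 g N →ₗ[S] Y where
  toFun x := ∑ k ∈ Finset.Icc (-((N + n : ℕ) : ℤ)) (N + n : ℕ), ev 𝒜 k x.1
  map_add' x y := by
    rw [← Finset.sum_add_distrib]
    rfl
  map_smul' a x := by
    rw [RingHom.id_apply]
    induction a using hom_induction (𝒜 := 𝒜) with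
    | h0 =>
      rw [zero_smul, zero_smul]
      exact Finset.sum_eq_zero fun i _ => map_zero (ev 𝒜 i)
    | hadd a b ha hb =>
      rw [add_smul, add_smul, ← ha, ← hb, ← Finset.sum_add_distrib]
      rfl
    | hh j a ha =>
      rw [Finset.smul_sum, sum_eq_finsum (N + n) (fun k => ev 𝒜 k (a • x : ZZ 𝒜 g N).1)
          (fun i hi => ZZ_supp g N hn (a • x).2 i hi),
        sum_eq_finsum (N + n) (fun k => a • ev 𝒜 k x.1) (fun i hi => by
          rw [ZZ_supp g N hn x.2 i hi, smul_zero]),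
        ← finsum_shift (fun k => a • ev 𝒜 k x.1) j]
      apply finsum_congr
      intro k
      exact smul_app ha x.1 k

theorem qq_apply (x : ZZ 𝒜 g N) :
    qq g N hn x = ∑ k ∈ Finset.Icc (-((N + n : ℕ) : ℤ)) (N + n : ℕ), ev 𝒜 k x.1 := rfl

theorem qq_sg {x : ZZ 𝒜 g N} {i : ℤ} {y : Y} (hi : i.natAbs ≤ N + n) (hx : x.1 = sg 𝒜 i y) :
    qq g N hn x = y := by
  rw [qq_apply, Finset.sum_eq_single i]
  · rw [hx, sg_app, if_pos rfl]
  · intro j _ hj
    rw [hx, sg_app, if_neg hj]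
  · intro h
    exact absurd (Finset.mem_Icc.2 (by omega)) h

variable (hg : Submodule.span S (Set.range g) = ⊤)

/-- `y t^i` as an element of `ZZ` -/
noncomputable def sgZ (i : ℤ) (y : Y) : ZZ 𝒜 g N :=
  if h : i.natAbs + n ≤ N then ⟨sg 𝒜 i y, sg_mem_ZZ g N hn hg h y⟩ else 0

theorem sgZ_pos {i : ℤ} (h : i.natAbs + n ≤ N) (y : Y) :
    ((sgZ g N hn hg i y : ZZ 𝒜 g N) : GY 𝒜 Y) = sg 𝒜 i y := by
  rw [sgZ, dif_pos h]

theorem sgZ_neg {i : ℤ} (h : ¬ i.natAbs + n ≤ N) (y : Y) : sgZ g N hn hg i y = 0 := by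
  rw [sgZ, dif_neg h]

theorem sgZ_add (i : ℤ) (x y : Y) :
    sgZ g N hn hg i (x + y) = sgZ g N hn hg i x + sgZ g N hn hg i y := by
  by_cases h : i.natAbs + n ≤ N
  · apply Subtype.ext
    rw [Submodule.coe_add, sgZ_pos g N hn hg h, sgZ_pos g N hn hg h, sgZ_pos g N hn hg h, map_add]
  · rw [sgZ_neg g N hn hg h, sgZ_neg g N hn hg h, sgZ_neg g N hn hg h, add_zero]

theorem sgZ_zero (i : ℤ) : sgZ g N hn hg i 0 = 0 := by
  have := sgZ_add g N hn hg i 0 0
  rw [add_zero] at this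
  exact left_eq_add.1 this

theorem p_sgZ (i j : ℤ) (y : Y) :
    (ZD g N hn).p i (sgZ g N hn hg j y) = if i = j then sgZ g N hn hg j y else 0 := by
  apply Subtype.ext
  rw [ZD_p]
  by_cases h : j.natAbs + n ≤ N
  · rw [sgZ_pos g N hn hg h, sg_app]
    split_ifs with hij
    · rw [sgZ_pos g N hn hg h, hij]
    · rw [map_zero]; rfl
  · rw [sgZ_neg g N hn hg h]
    have : sg 𝒜 i (ev 𝒜 i ((0 : ZZ 𝒜 g N) : GY 𝒜 Y)) = 0 := by
      show sg 𝒜 i (ev 𝒜 i (0 : GY 𝒜 Y)) = 0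
      rw [map_zero, map_zero]
    rw [this]
    split_ifs <;> rfl

end Pool.Agent.R706.GrMod
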