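import Mathlib
import Pool.Agent.R706.GrY

/-!
# The key step: graded summands deep inside `ZZ` are isomorphic to `Y`
-/

set_option autoImplicit false

namespace Pool.Agent.R706.GrMod

open Pool.Agent.R706.GrFin

universe u v w

variable {S : Type u} [Ring S] {𝒜 : ℤ → AddSubgroup S} [GradedRing 𝒜]
  {Y : Type v} [AddCommGroup Y] [Module S Y]
  {m : ℕ} (g : Fin m → Y) (N : ℕ) {n : ℕ} (hn : ∀ j : ℤ, n < j.natAbs → 𝒜 j = ⊥)
  (hg : Submodule.span S (Set.range g) = ⊤)

theorem smul_sgZ {j : ℤ} {a : S} (ha : a ∈ 𝒜 j) {i : ℤ} (h1 : i.natAbs + n ≤ N)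
    (h2 : (i + j).natAbs + n ≤ N) (y : Y) :
    a • sgZ g N hn hg i y = sgZ g N hn hg (i + j) (a • y) := by
  apply Subtype.ext
  rw [Submodule.coe_smul, sgZ_pos g N hn hg h1, sgZ_pos g N hn hg h2, smul_sg ha]

/-- the map `y ↦ ∑ e (y t^i)` -/
noncomputable def PP {e : Module.End S (ZZ 𝒜 g N)} (he : Hmg (ZD g N hn) 0 e) (c : ℕ)
    (hc : ∀ x : ZZ 𝒜 g N, ∀ i : ℤ, c ≤ i.natAbs → (ZD g N hn).p i (e x) = 0)
    (hcN : c + 2 * n ≤ N) : Y →ₗ[S] ZZ 𝒜 g N where
  toFun y := ∑ i ∈ Finset.Icc (-(c : ℤ)) c, e (sgZ g N hn hg i y)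
  map_add' x y := by
    rw [← Finset.sum_add_distrib]
    exact Finset.sum_congr rfl fun i _ => by rw [sgZ_add, map_add]
  map_smul' a y := by
    rw [RingHom.id_apply]
    have hE : ∀ (y : Y) (i : ℤ), c ≤ i.natAbs → e (sgZ g N hn hg i y) = 0 := by
      intro y i hi
      have h1 : (ZD g N hn).p i (e (sgZ g N hn hg i y)) = e (sgZ g N hn hg i y) := by
        have := he i (sgZ g N hn hg i y)
        rw [add_zero] at this
        rw [this, p_sgZ, if_pos rfl]
      rw [← h1, hc _ i hi]
    induction a using hom_induction (𝒜 := 𝒜) with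
    | h0 =>
      rw [zero_smul, zero_smul]
      exact Finset.sum_eq_zero fun i _ => by rw [sgZ_zero, map_zero]
    | hadd a b ha hb =>
      rw [add_smul, add_smul, ← ha, ← hb, ← Finset.sum_add_distrib]
      exact Finset.sum_congr rfl fun i _ => by rw [sgZ_add, map_add]
    | hh j a ha =>
      by_cases hj : n < j.natAbs
      · rw [hn j hj, AddSubgroup.mem_bot] at ha
        rw [ha, zero_smul, zero_smul]
        exact Finset.sum_eq_zero fun i _ => by rw [sgZ_zero, map_zero]
      · rw [Finset.smul_sum, sum_eq_finsum c (fun i => e (sgZ g N hn hg i (a • y)))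
            (fun i hi => hE _ i hi.le),
          sum_eq_finsum c (fun i => a • e (sgZ g N hn hg i y)) (fun i hi => by
            rw [hE _ i hi.le, smul_zero]),
          ← finsum_shift (fun i => a • e (sgZ g N hn hg i y)) j]
        apply finsum_congr
        intro i
        by_cases h1 : (i - j).natAbs + n ≤ N
        · by_cases h2 : i.natAbs + n ≤ N
          · rw [← map_smul, smul_sgZ g N hn hg ha h1 (by rwa [sub_add_cancel]), sub_add_cancel]
          · rw [sgZ_neg g N hn hg h2, map_zero, hE _ (i - j) (by omega), smul_zero]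
        · rw [sgZ_neg g N hn hg h1, map_zero, smul_zero, hE _ i (by omega)]

theorem PP_apply {e : Module.End S (ZZ 𝒜 g N)} (he : Hmg (ZD g N hn) 0 e) (c : ℕ)
    (hc : ∀ x : ZZ 𝒜 g N, ∀ i : ℤ, c ≤ i.natAbs → (ZD g N hn).p i (e x) = 0)
    (hcN : c + 2 * n ≤ N) (y : Y) :
    PP g N hn hg he c hc hcN y = ∑ i ∈ Finset.Icc (-(c : ℤ)) c, e (sgZ g N hn hg i y) := rfl

include hg in
theorem key [IsArtinian S (ZZ 𝒜 g N)] [IsNoetherian S (ZZ 𝒜 g N)] (hY : LocEnd S Y)
    {e : Module.End S (ZZ 𝒜 g N)} (he : Hmg (ZD g N hn) 0 e) (hee : e * e = e)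
    (hind : GrIndec ((ZD g N hn).restrict _ he.range)) [Nontrivial (LinearMap.range e)] (c : ℕ)
    (hc : ∀ x : ZZ 𝒜 g N, ∀ i : ℤ, c ≤ i.natAbs → (ZD g N hn).p i (e x) = 0)
    (hcN : c + 2 * n ≤ N) : Nonempty (LinearMap.range e ≃ₗ[S] Y) := by
  classical
  let P := PP g N hn hg he c hc hcN
  let P' : Y →ₗ[S] LinearMap.range e := P.codRestrict _ (fun y => by
    rw [PP_apply]
    exact Submodule.sum_mem _ fun i _ => ⟨_, rfl⟩)
  let ι : LinearMap.range e →ₗ[S] Y := qq g N hn ∘ₗ (LinearMap.range e).subtype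
  let G : Module.End S (LinearMap.range e) := P' ∘ₗ ι
  have hG : ∀ x : LinearMap.range e, ((G x : LinearMap.range e) : ZZ 𝒜 g N) =
      P (qq g N hn x) := fun x => rfl
  have hfix : ∀ x : LinearMap.range e, e x = x := by
    intro x
    obtain ⟨y, hy⟩ := x.2
    rw [← hy, ← Module.End.mul_apply, hee]
  have hcomp : comp ((ZD g N hn).restrict _ he.range) G 0 = 1 := by
    ext1 x
    rw [comp_apply, Module.End.one_apply]
    conv_rhs => rw [← ((ZD g N hn).restrict _ he.range).sum x]
    apply Finset.sum_congr rfl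
    intro i _
    rw [add_zero]
    by_cases hi : c ≤ i.natAbs
    · have h0 : ((ZD g N hn).restrict _ he.range).p i x = 0 := by
        apply Subtype.ext
        rw [Grd.restrict_p, ← hfix x, hc _ i hi]
        rfl
      rw [h0, map_zero, map_zero]
    · apply Subtype.ext
      rw [Grd.restrict_p, hG, Grd.restrict_p]
      have h1 : qq g N hn ((ZD g N hn).p i (x : ZZ 𝒜 g N)) = ev 𝒜 i x.1.1 :=
        qq_sg g N hn (by omega) rfl
      rw [h1, PP_apply, map_sum]
      have h2 : ∀ i', (ZD g N hn).p i (e (sgZ g N hn hg i' (ev 𝒜 i x.1.1))) =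
          if i = i' then e (sgZ g N hn hg i' (ev 𝒜 i x.1.1)) else 0 := by
        intro i'
        have := he i (sgZ g N hn hg i' (ev 𝒜 i x.1.1))
        rw [add_zero] at this
        rw [this, p_sgZ]
        split_ifs
        · rfl
        · rw [map_zero]
      rw [Finset.sum_congr rfl (fun i' _ => h2 i'), Finset.sum_ite_eq, if_pos (by
        rw [Finset.mem_Icc]; omega)]
      have h3 : sgZ g N hn hg i (ev 𝒜 i x.1.1) = (ZD g N hn).p i (x : ZZ 𝒜 g N) := by
        apply Subtype.ext
        rw [sgZ_pos g N hn hg (by omega), ZD_p]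
      rw [h3]
      have := he i (x : ZZ 𝒜 g N)
      rw [add_zero] at this
      rw [← this, hfix]
  have hu : IsUnit G := isUnit_of_comp_zero ((ZD g N hn).restrict _ he.range) hind G (by
    rw [hcomp]; exact isUnit_one)
  obtain ⟨u, hu'⟩ := hu
  refine retract_equiv hY ι ((↑u⁻¹ : Module.End S (LinearMap.range e)) ∘ₗ P') (fun x => ?_)
  show (↑u⁻¹ : Module.End S (LinearMap.range e)) (G x) = x
  rw [← hu', ← Module.End.mul_apply, Units.inv_mul, Module.End.one_apply]

/-! ### Gradable modules -/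

/-- `M` is isomorphic to a module with a bounded grading -/
def GrIso (𝒜 : ℤ → AddSubgroup S) (M : Type v) [AddCommGroup M] [Module S M] : Prop :=
  ∃ (N : Type v) (_ : AddCommGroup N) (_ : Module S N) (_ : Grd 𝒜 N), Nonempty (M ≃ₗ[S] N)

/-- a bounded grading yields an internal direct sum decomposition -/
theorem Grd.isInternal {M : Type v} [AddCommGroup M] [Module S M] (D : Grd 𝒜 M) :
    DirectSum.IsInternal (fun i => (D.p i).range) := by
  classical
  let dec : M →+ DirectSum ℤ (fun i => (D.p i).range) :=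
    { toFun := fun m => ∑ i ∈ Finset.Icc (-(D.B : ℤ)) D.B,
        DirectSum.of (fun i => (D.p i).range) i ⟨D.p i m, m, rfl⟩
      map_zero' := by
        apply Finset.sum_eq_zero
        intro i _
        have : (⟨D.p i 0, 0, rfl⟩ : (D.p i).range) = 0 := Subtype.ext (map_zero _)
        rw [this, map_zero]
      map_add' := fun x y => by
        rw [← Finset.sum_add_distrib]
        apply Finset.sum_congr rfl
        intro i _
        rw [← map_add]
        congr 1
        exact Subtype.ext (map_add _ _ _) }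
  have h1 : ∀ m, DirectSum.coeAddMonoidHom (fun i => (D.p i).range) (dec m) = m := by
    intro m
    show DirectSum.coeAddMonoidHom (fun i => (D.p i).range) (∑ i ∈ Finset.Icc (-(D.B : ℤ)) D.B,
        DirectSum.of (fun i => (D.p i).range) i ⟨D.p i m, m, rfl⟩) = m
    rw [map_sum]
    conv_rhs => rw [← D.sum m]
    apply Finset.sum_congr rfl
    intro i _
    exact DirectSum.coeAddMonoidHom_of _ i _
  have h2 : ∀ z, dec (DirectSum.coeAddMonoidHom (fun i => (D.p i).range) z) = z := by
    intro z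
    induction z using DirectSum.induction_on with
    | zero => rw [map_zero, map_zero]
    | add x y hx hy => rw [map_add, map_add, hx, hy]
    | of i x =>
      rw [DirectSum.coeAddMonoidHom_of]
      obtain ⟨x, m, rfl⟩ := x
      show ∑ j ∈ Finset.Icc (-(D.B : ℤ)) D.B,
        DirectSum.of (fun i => (D.p i).range) j ⟨D.p j (D.p i m), _, rfl⟩ = _
      by_cases hi : D.B < i.natAbs
      · have h3 : (⟨D.p i m, m, rfl⟩ : (D.p i).range) = 0 := Subtype.ext (D.zero i hi m)
        rw [h3, map_zero]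
        apply Finset.sum_eq_zero
        intro j _
        have h4 : (⟨D.p j (D.p i m), _, rfl⟩ : (D.p j).range) = 0 := Subtype.ext (by
          show D.p j (D.p i m) = 0
          rw [D.zero i hi, map_zero])
        rw [h4, map_zero]
      · rw [Finset.sum_eq_single i]
        · congr 1
          exact Subtype.ext (D.idem i m)
        · intro j _ hj
          have h4 : (⟨D.p j (D.p i m), _, rfl⟩ : (D.p j).range) = 0 :=
            Subtype.ext (D.orth j i hj m)
          rw [h4, map_zero]
        · intro h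
          exact absurd (Finset.mem_Icc.2 (by omega)) h
  exact ⟨Function.LeftInverse.injective h2, Function.RightInverse.surjective h1⟩

theorem Grd.smul_range {M : Type v} [AddCommGroup M] [Module S M] (D : Grd 𝒜 M) (i j : ℤ)
    {a : S} (ha : a ∈ 𝒜 j) {x : M} (hx : x ∈ (D.p i).range) : a • x ∈ (D.p (j + i)).range := by
  obtain ⟨m, rfl⟩ := hx
  exact ⟨a • m, D.smul i j a ha m⟩

end Pool.Agent.R706.GrMod
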