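import Mathlib
import Pool.Agent.R706.GrKey

/-!
# Preprojective modules over graded artinian rings are gradable (left version)
-/

set_option autoImplicit false

namespace Pool.Agent.R706.GrMod

open Pool.Agent.R706.GrFin

universe u v w

section aux

variable {S : Type u} [Ring S]

theorem len_top_le {M : Type v} {X : Type w} [AddCommGroup M] [Module S M] [AddCommGroup X]
    [Module S X] [IsArtinian S M] [IsNoetherian S M] [IsArtinian S X] [IsNoetherian S X]
    (f : M →ₗ[S] X) (hf : Function.Injective f) :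
    len (⊤ : Submodule S M) ≤ len (⊤ : Submodule S X) := by
  have h1 := Module.length_le_of_injective f hf
  rw [← Module.length_top (R := S) (M := M), ← Module.length_top (R := S) (M := X), ← len_coe,
    ← len_coe] at h1
  exact_mod_cast h1

/-- `U` is isomorphic to a direct summand of a finite power of `X` -/
def InAdd (S : Type u) [Ring S] (X : Type v) [AddCommGroup X] [Module S X] (U : Type w)
    [AddCommGroup U] [Module S U] : Prop :=
  ∃ (k : ℕ) (i : U →ₗ[S] (Fin k → X)) (p : (Fin k → X) →ₗ[S] U), p ∘ₗ i = LinearMap.id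

/-- a summand with local endomorphism ring of a power of `X` embeds in `X` -/
theorem InAdd.exists_injective {X : Type v} [AddCommGroup X] [Module S X] {U : Type w}
    [AddCommGroup U] [Module S U] [Nontrivial U] (hU : LocEnd S U) (h : InAdd S X U) :
    ∃ f : U →ₗ[S] X, Function.Injective f := by
  classical
  obtain ⟨k, i, p, hpi⟩ := h
  have h1 : (1 : Module.End S U) = ∑ j : Fin k,
      (p ∘ₗ LinearMap.single S (fun _ => X) j) ∘ₗ (LinearMap.proj j ∘ₗ i) := by
    ext x
    rw [LinearMap.sum_apply, Module.End.one_apply]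
    have h2 : ∀ j : Fin k, ((p ∘ₗ LinearMap.single S (fun _ => X) j) ∘ₗ
        (LinearMap.proj j ∘ₗ i)) x = p (Pi.single j (i x j)) := fun j => rfl
    rw [Finset.sum_congr rfl (fun j _ => h2 j), ← map_sum, Finset.univ_sum_single]
    exact (LinearMap.congr_fun hpi x).symm
  obtain ⟨j, _, hj⟩ := hU.of_sum Finset.univ _ (h1 ▸ isUnit_one)
  refine ⟨LinearMap.proj j ∘ₗ i, ?_⟩
  have h3 := ((Module.End.isUnit_iff _).1 hj).1
  rw [LinearMap.coe_comp] at h3
  exact h3.of_comp

end aux

variable {S : Type u} [Ring S] [IsArtinianRing S] (𝒜 : ℤ → AddSubgroup S) [GradedRing 𝒜]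
  {Y : Type v} [AddCommGroup Y] [Module S Y] [Module.Finite S Y] [Nontrivial Y]
  {X : Type w} [AddCommGroup X] [Module S X] [Module.Finite S X]

theorem left_main (hYi : ∀ A B : Submodule S Y, IsCompl A B → A = ⊥ ∨ B = ⊥)
    (hpre : ∀ (Z : Type v) [AddCommGroup Z] [Module S Z] [Module.Finite S Z] (f : Z →ₗ[S] Y),
      Function.Surjective f → (¬ ∃ s : Y →ₗ[S] Z, f ∘ₗ s = LinearMap.id) →
      ∃ A C : Submodule S Z, IsCompl A C ∧ A ≠ ⊥ ∧ InAdd S X A) : GrIso 𝒜 Y := by
  classical
  by_contra hng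
  have hYl : LocEnd S Y := locEnd_of_indec hYi
  obtain ⟨n0, hn0⟩ := finite_support 𝒜
  let n := n0 + 1
  have hn : ∀ j : ℤ, n < j.natAbs → 𝒜 j = ⊥ := fun j hj => hn0 j (by omega)
  have hn1 : 1 ≤ n := by omega
  obtain ⟨m, g, hg⟩ := Module.Finite.exists_fin (R := S) (M := Y)
  let L := len (⊤ : Submodule S X)
  let c := 2 * n * L
  let N := c + 2 * n
  have hfin : Module.Finite S (ZZ 𝒜 g N) := ZZ_fg 𝒜 g N
  let D := ZD g N hn
  -- gradability from an isomorphism
  have hgr : ∀ (e : Module.End S (ZZ 𝒜 g N)) (he : Hmg D 0 e),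
      Nonempty (Y ≃ₗ[S] LinearMap.range e) → False := by
    intro e he h
    exact hng ⟨LinearMap.range e, inferInstance, inferInstance, D.restrict _ he.range, h⟩
  -- a minimal graded summand containing the degree zero part
  obtain ⟨_, ⟨e0, he0, hh0, h00, rfl⟩, hmin⟩ :=
    (inferInstance : WellFoundedLT (Submodule S (ZZ 𝒜 g N))).wf.has_min
    {N' : Submodule S (ZZ 𝒜 g N) | ∃ e : Module.End S (ZZ 𝒜 g N), e * e = e ∧ Hmg D 0 e ∧
      (∀ x, e (D.p 0 x) = D.p 0 x) ∧ LinearMap.range e = N'}
    ⟨_, 1, one_mul 1, Hmg.one, fun _ => rfl, rfl⟩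
  have hfix0 : ∀ x : LinearMap.range e0, e0 x = x := by
    intro x
    obtain ⟨y, hy⟩ := x.2
    rw [← hy, ← Module.End.mul_apply, he0]
  let f : LinearMap.range e0 →ₗ[S] Y := qq g N hn ∘ₗ (LinearMap.range e0).subtype
  have hf : ∀ x : LinearMap.range e0, f x = qq g N hn x := fun x => rfl
  have hsurj : Function.Surjective f := by
    intro y
    have h1 : (0 : ℤ).natAbs + n ≤ N := by
      show 0 + n ≤ c + 2 * n
      omega
    have h2 : e0 (sgZ g N hn hg 0 y) = sgZ g N hn hg 0 y := by
      have h3 := h00 (sgZ g N hn hg 0 y)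
      rw [p_sgZ, if_pos rfl] at h3
      exact h3
    refine ⟨⟨sgZ g N hn hg 0 y, _, h2⟩, ?_⟩
    rw [hf]
    exact qq_sg g N hn (by show 0 ≤ N + n; omega) (sgZ_pos g N hn hg h1 y)
  have hns : ¬ ∃ s : Y →ₗ[S] LinearMap.range e0, f ∘ₗ s = LinearMap.id := by
    rintro ⟨s, hs⟩
    have h1 : (qq g N hn ∘ₗ e0 ∘ₗ ((LinearMap.range e0).subtype ∘ₗ s) : Module.End S Y) = 1 := by
      ext y
      show qq g N hn (e0 (s y)) = y
      rw [hfix0, ← hf]
      exact LinearMap.congr_fun hs y
    obtain ⟨e, he, _, _, _, _, h2⟩ := core D e0 he0 hh0 hYl ((LinearMap.range e0).subtype ∘ₗ s)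
      (qq g N hn) (by rw [h1]; exact isUnit_one)
    exact hgr e he h2
  obtain ⟨A0, C0, hAC, hA0, hAX⟩ := hpre (LinearMap.range e0) f hsurj hns
  -- a minimal nonzero summand in `add X`
  obtain ⟨U, ⟨hU0, ⟨C, hUC⟩, hUX⟩, hUmin⟩ :=
    (inferInstance : WellFoundedLT (Submodule S (LinearMap.range e0))).wf.has_min
    {U : Submodule S (LinearMap.range e0) | U ≠ ⊥ ∧ (∃ C, IsCompl U C) ∧ InAdd S X U}
    ⟨A0, hA0, ⟨C0, hAC⟩, hAX⟩
  have hUi : ∀ A B : Submodule S U, IsCompl A B → A = ⊥ ∨ B = ⊥ := by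
    intro A B hAB
    by_contra hcon
    push Not at hcon
    have hle : A.map U.subtype ≤ U := Submodule.map_subtype_le U A
    have hnlt : ¬ A.map U.subtype < U := by
      apply hUmin
      refine ⟨?_, ⟨B.map U.subtype ⊔ C, ?_⟩, ?_⟩
      · intro h
        apply hcon.1
        apply Submodule.map_injective_of_injective U.injective_subtype
        rw [h, Submodule.map_bot]
      · constructor
        · rw [disjoint_iff, eq_bot_iff]
          rintro x ⟨⟨a, ha, rfl⟩, hx⟩
          obtain ⟨_, ⟨b, hb, rfl⟩, z, hz, hbz⟩ := Submodule.mem_sup.1 hx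
          have h1 : z = ((a - b : U) : LinearMap.range e0) := by
            rw [Submodule.coe_sub]
            exact eq_sub_of_add_eq' hbz
          have h2 : z = 0 := by
            have : z ∈ U ⊓ C := ⟨h1 ▸ (a - b).2, hz⟩
            rwa [hUC.inf_eq_bot, Submodule.mem_bot] at this
          have h3 : a = b := by
            rw [h2] at h1
            exact sub_eq_zero.1 (Subtype.ext h1.symm)
          have h4 : a ∈ A ⊓ B := ⟨ha, h3 ▸ hb⟩
          rw [hAB.inf_eq_bot, Submodule.mem_bot] at h4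
          rw [h4, map_zero]
          exact Submodule.zero_mem _
        · rw [codisjoint_iff, ← sup_assoc, ← Submodule.map_sup, hAB.sup_eq_top, Submodule.map_top,
            Submodule.range_subtype, hUC.sup_eq_top]
      · obtain ⟨k, i, p, hpi⟩ := hUX
        let ε : A ≃ₗ[S] A.map U.subtype := Submodule.equivMapOfInjective _ U.injective_subtype A
        let pr : U →ₗ[S] A := Submodule.projectionOnto (R := S) (E := U) A B hAB
        refine ⟨k, i ∘ₗ A.subtype ∘ₗ ε.symm.toLinearMap,
          ε.toLinearMap ∘ₗ pr ∘ₗ p, ?_⟩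
        ext1 x
        show ε (A.projectionOnto B hAB (p (i (ε.symm x : A)))) = x
        have h1 : ∀ y, p (i y) = y := fun y => LinearMap.congr_fun hpi y
        rw [h1, Submodule.projectionOnto_apply_left, LinearEquiv.apply_symm_apply]
    have heq : A.map U.subtype = U := by
      by_contra hne
      exact hnlt (lt_of_le_of_ne hle hne)
    have hAtop : A = ⊤ := by
      apply Submodule.map_injective_of_injective U.injective_subtype
      rw [heq, Submodule.map_top, Submodule.range_subtype]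
    rw [hAtop] at hAB
    exact hcon.2 (eq_bot_of_top_isCompl hAB)
  have hUnt : Nontrivial U := Submodule.nontrivial_iff_ne_bot.2 hU0
  have hUl : LocEnd S U := locEnd_of_indec hUi
  have h1 : ((U.projectionOnto C hUC ∘ₗ e0.rangeRestrict) ∘ₗ e0 ∘ₗ
      ((LinearMap.range e0).subtype ∘ₗ U.subtype) : Module.End S U) = 1 := by
    ext1 x
    show U.projectionOnto C hUC (e0.rangeRestrict (e0 ((x : LinearMap.range e0) : ZZ 𝒜 g N))) = x
    have h2 : e0.rangeRestrict (e0 ((x : LinearMap.range e0) : ZZ 𝒜 g N)) =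
        (x : LinearMap.range e0) := by
      rw [hfix0]
      exact rangeRestrict_self he0 _
    rw [h2, Submodule.projectionOnto_apply_left]
  obtain ⟨e, he, hee, h0e, he0', hind, ⟨ψ⟩⟩ := core D e0 he0 hh0 hUl
    ((LinearMap.range e0).subtype ∘ₗ U.subtype) (U.projectionOnto C hUC ∘ₗ e0.rangeRestrict)
    (by rw [h1]; exact isUnit_one)
  have hnt : Nontrivial (LinearMap.range e) := ψ.symm.toEquiv.nontrivial
  have hp0 : ∃ x : LinearMap.range e, (D.restrict _ he.range).p 0 x ≠ 0 := by
    by_contra hno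
    push Not at hno
    have hno' : ∀ x, D.p 0 (e x) = 0 := by
      intro x
      exact congrArg Subtype.val (hno ⟨e x, x, rfl⟩)
    have hlt : ¬ LinearMap.range (e0 - e) < LinearMap.range e0 := by
      apply hmin
      refine ⟨e0 - e, ?_, ?_, ?_, rfl⟩
      · rw [sub_mul, mul_sub, mul_sub, he0, h0e, he0', hee, sub_self, sub_zero]
      · exact hh0.sub he
      · intro x
        have h3 := he 0 x
        rw [zero_add, hno'] at h3
        rw [LinearMap.sub_apply, h00, ← h3, sub_zero]
    have hle : LinearMap.range (e0 - e) ≤ LinearMap.range e0 := by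
      rintro _ ⟨x, rfl⟩
      refine ⟨(e0 - e) x, ?_⟩
      rw [← Module.End.mul_apply, mul_sub, he0, h0e]
    have heq : LinearMap.range (e0 - e) = LinearMap.range e0 := by
      by_contra hne
      exact hlt (lt_of_le_of_ne hle hne)
    have hz : e = 0 := by
      ext1 x
      have h3 : e0 x ∈ LinearMap.range (e0 - e) := by rw [heq]; exact ⟨x, rfl⟩
      obtain ⟨y, hy⟩ := h3
      have h4 : e x = e (e0 x) := by rw [← Module.End.mul_apply, he0']
      rw [h4, ← hy, ← Module.End.mul_apply, mul_sub, he0', hee, sub_self]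
      rfl
    obtain ⟨x, hx⟩ := exists_ne (0 : LinearMap.range e)
    obtain ⟨y, hy⟩ := x.2
    exact hx (Subtype.ext (hy.symm.trans (LinearMap.congr_fun hz y)))
  have hL : len (⊤ : Submodule S (LinearMap.range e)) ≤ L := by
    obtain ⟨f', hf'⟩ := InAdd.exists_injective hUl hUX
    exact len_top_le (f' ∘ₗ ψ.symm.toLinearMap) (hf'.comp ψ.symm.injective)
  have hc : ∀ x : ZZ 𝒜 g N, ∀ i : ℤ, c ≤ i.natAbs → D.p i (e x) = 0 := by
    intro x i hi
    exact congrArg Subtype.val
      (support_bound (D.restrict _ he.range) hind hn1 hn hp0 hL i hi ⟨e x, x, rfl⟩)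
  obtain ⟨φ⟩ := key g N hn hg hYl he hee hind c hc le_rfl
  exact hgr e he ⟨φ.symm⟩

end Pool.Agent.R706.GrMod
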