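import Mathlib
import Pool.Agent.R706.GrPre

/-!
# Right approximations by graded modules (left version)
-/

set_option autoImplicit false

namespace Pool.Agent.R706.GrMod

open Pool.Agent.R706.GrFin

universe u v w

section summand

variable {S : Type u} [Ring S] {V : Type v} [AddCommGroup V] [Module S V] [IsArtinian S V]
  [IsNoetherian S V]

variable (S V) in
theorem exists_loc_summand [Nontrivial V] :
    ∃ U C : Submodule S V, IsCompl U C ∧ U ≠ ⊥ ∧ LocEnd S U := by
  obtain ⟨U, ⟨hU0, ⟨C, hUC⟩⟩, hUmin⟩ :=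
    (inferInstance : WellFoundedLT (Submodule S V)).wf.has_min
    {U : Submodule S V | U ≠ ⊥ ∧ (∃ C, IsCompl U C)}
    ⟨⊤, top_ne_bot, ⟨⊥, isCompl_top_bot⟩⟩
  refine ⟨U, C, hUC, hU0, locEnd_of_indec ?_⟩
  intro A B hAB
  by_contra hcon
  push Not at hcon
  have hle : A.map U.subtype ≤ U := Submodule.map_subtype_le U A
  have hnlt : ¬ A.map U.subtype < U := by
    apply hUmin
    refine ⟨?_, ⟨B.map U.subtype ⊔ C, ?_⟩⟩
    · intro h
      apply hcon.1
      apply Submodule.map_injective_of_injective U.injective_subtype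
      rw [h, Submodule.map_bot]
    · constructor
      · rw [disjoint_iff, eq_bot_iff]
        rintro x ⟨⟨a, ha, rfl⟩, hx⟩
        obtain ⟨_, ⟨b, hb, rfl⟩, z, hz, hbz⟩ := Submodule.mem_sup.1 hx
        have h1 : z = ((a - b : U) : V) := by
          rw [Submodule.coe_sub]
          exact eq_sub_of_add_eq' hbz
        have h2 : z = 0 := by
          have : z ∈ U ⊓ C := ⟨h1 ▸ (a - b).2, hz⟩
          rwa [hUC.inf_eq_bot, Submodule.mem_bot] at this
        have h3 : a = b := by
          rw [h2] at h1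
          exact sub_eq_zero.1 (Subtype.ext h1.symm)
        have h4 : a ∈ A ⊓ B := ⟨ha, h3 ▸ hb⟩
        rw [hAB.inf_eq_bot, Submodule.mem_bot] at h4
        rw [h4, map_zero]
        exact Submodule.zero_mem _
      · rw [codisjoint_iff, ← sup_assoc, ← Submodule.map_sup, hAB.sup_eq_top, Submodule.map_top,
          Submodule.range_subtype, hUC.sup_eq_top]
  have heq : A.map U.subtype = U := by
    by_contra hne
    exact hnlt (lt_of_le_of_ne hle hne)
  have hAtop : A = ⊤ := by
    apply Submodule.map_injective_of_injective U.injective_subtype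
    rw [heq, Submodule.map_top, Submodule.range_subtype]
  rw [hAtop] at hAB
  exact hcon.2 (eq_bot_of_top_isCompl hAB)

end summand

theorem retract_right {S : Type u} [Ring S] {U : Type v} [AddCommGroup U] [Module S U]
    {X : Type w} [AddCommGroup X] [Module S X] [Nontrivial X] (hU : LocEnd S U)
    (ι : X →ₗ[S] U) (π : U →ₗ[S] X) (h : ∀ x, π (ι x) = x) (y : U) : ι (π y) = y := by
  have hidem : (ι ∘ₗ π : Module.End S U) * (ι ∘ₗ π) = ι ∘ₗ π := by
    ext y
    show ι (π (ι (π y))) = ι (π y)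
    rw [h]
  have hinj : Function.Injective ι := Function.LeftInverse.injective h
  rcases hU (ι ∘ₗ π) with h1 | h1
  · have h2 : (ι ∘ₗ π : Module.End S U) = 1 :=
      (IsIdempotentElem.iff_eq_one_of_isUnit h1).1 hidem
    exact LinearMap.congr_fun h2 y
  · exfalso
    have h3 : (1 - ι ∘ₗ π : Module.End S U) * (1 - ι ∘ₗ π) = 1 - ι ∘ₗ π := by
      rw [sub_mul, one_mul, mul_sub, mul_one, hidem, sub_self, sub_zero]
    have h2 : (1 - ι ∘ₗ π : Module.End S U) = 1 :=
      (IsIdempotentElem.iff_eq_one_of_isUnit h1).1 h3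
    have h4 : ∀ y, ι (π y) = 0 := by
      intro y
      have := LinearMap.congr_fun h2 y
      rw [LinearMap.sub_apply, Module.End.one_apply, sub_eq_self] at this
      exact this
    obtain ⟨x, hx⟩ := exists_ne (0 : X)
    apply hx
    apply hinj
    rw [map_zero, ← h4 (ι x), h]

section core

variable {S : Type u} [Ring S] {𝒜 : ℤ → AddSubgroup S} [GradedRing 𝒜] {Z : Type v}
  [AddCommGroup Z] [Module S Z] [IsArtinian S Z] [IsNoetherian S Z] (D : Grd 𝒜 Z)

/-- variant of `core` which keeps track of the unit -/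
theorem core' (e0 : Module.End S Z) (he0 : e0 * e0 = e0) (hg0 : Hmg D 0 e0)
    {U : Type w} [AddCommGroup U] [Module S U] (hU : LocEnd S U)
    (ι : U →ₗ[S] Z) (π : Z →ₗ[S] U) (hu : IsUnit (π ∘ₗ e0 ∘ₗ ι : Module.End S U)) :
    ∃ (e : Module.End S Z) (he : Hmg D 0 e), e * e = e ∧
      GrIndec (D.restrict _ he.range) ∧ IsUnit (π ∘ₗ e ∘ₗ ι : Module.End S U) := by
  obtain ⟨N, ⟨e, he, hhe, h01, h10, hue, rfl⟩, hmin⟩ :=
    (inferInstance : WellFoundedLT (Submodule S Z)).wf.has_min
    {N : Submodule S Z | ∃ e : Module.End S Z, e * e = e ∧ Hmg D 0 e ∧ e0 * e = e ∧ e * e0 = e ∧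
      IsUnit (π ∘ₗ e ∘ₗ ι : Module.End S U) ∧ LinearMap.range e = N}
    ⟨_, e0, he0, hg0, he0, he0, hu, rfl⟩
  have hind : GrIndec (D.restrict _ hhe.range) := by
    have main : ∀ A B : Submodule S (LinearMap.range e), IsGr (D.restrict _ hhe.range) A →
        IsGr (D.restrict _ hhe.range) B → (h : IsCompl A B) →
        IsUnit (π ∘ₗ (cut e (A.projection B h)) ∘ₗ ι : Module.End S U) → B = ⊥ := by
      intro A B hA hB h hunit
      have hq : Hmg (D.restrict _ hhe.range) 0 (A.projection B h) := hmg_projection _ h hA hB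
      have hqi : A.projection B h * A.projection B h = A.projection B h :=
        Submodule.isIdempotentElem_projection h
      have h1 : ¬ LinearMap.range (cut e (A.projection B h)) < LinearMap.range e := by
        apply hmin
        refine ⟨cut e (A.projection B h), ?_, cut_hmg hhe hq, ?_, ?_, hunit, rfl⟩
        · rw [cut_mul he, hqi]
        · rw [← mul_cut he, ← mul_assoc, h01]
        · rw [← cut_mul' he, mul_assoc, h10]
      have h2 : LinearMap.range (cut e (A.projection B h)) ≤ LinearMap.range e := by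
        rw [← mul_cut he]
        rintro _ ⟨x, rfl⟩
        exact ⟨_, rfl⟩
      have h3 : LinearMap.range (cut e (A.projection B h)) = LinearMap.range e := by
        by_contra hne
        exact h1 (lt_of_le_of_ne h2 hne)
      rw [range_cut he, Submodule.range_projection] at h3
      have h4 : A = ⊤ := by
        apply Submodule.map_injective_of_injective (LinearMap.range e).injective_subtype
        rw [h3, Submodule.map_top, Submodule.range_subtype]
      rw [h4] at h
      exact eq_bot_of_top_isCompl h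
    intro A B hA hB h
    have hsum : (π ∘ₗ e ∘ₗ ι : Module.End S U) =
        π ∘ₗ (cut e (A.projection B h)) ∘ₗ ι + π ∘ₗ (cut e (B.projection A h.symm)) ∘ₗ ι := by
      ext x
      show π (e (ι x)) = π (cut e (A.projection B h) (ι x)) + π (cut e (B.projection A h.symm) (ι x))
      rw [← map_add, cut_apply, cut_apply, ← Submodule.coe_add,
        Submodule.projection_add_projection_eq_self, coe_rr]
    have hue' := hue
    rw [hsum] at hue'
    rcases hU.of_add hue' with h1 | h1
    · exact Or.inr (main A B hA hB h h1)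
    · exact Or.inl (main B A hB hA h.symm h1)
  exact ⟨e, hhe, he, hind, hue⟩

end core

variable {S : Type u} [Ring S] {𝒜 : ℤ → AddSubgroup S} [GradedRing 𝒜]
  {Y : Type v} [AddCommGroup Y] [Module S Y]
  {m : ℕ} (g : Fin m → Y) (N : ℕ) {n : ℕ} (hn : ∀ j : ℤ, n < j.natAbs → 𝒜 j = ⊥)
  (hg : Submodule.span S (Set.range g) = ⊤)

include hg in
/-- graded indecomposable summands of `ZZ` away from the ends are retracts of `Y` -/
theorem key_retract [IsArtinian S (ZZ 𝒜 g N)] [IsNoetherian S (ZZ 𝒜 g N)]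
    {e : Module.End S (ZZ 𝒜 g N)} (he : Hmg (ZD g N hn) 0 e) (hee : e * e = e)
    (hind : GrIndec ((ZD g N hn).restrict _ he.range)) [Nontrivial (LinearMap.range e)] (c : ℕ)
    (hc : ∀ x : ZZ 𝒜 g N, ∀ i : ℤ, c ≤ i.natAbs → (ZD g N hn).p i (e x) = 0)
    (hcN : c + 2 * n ≤ N) : ∃ (ι : LinearMap.range e →ₗ[S] Y) (π : Y →ₗ[S] LinearMap.range e),
      ∀ x, π (ι x) = x := by
  classical
  let P := PP g N hn hg he c hc hcN
  let P' : Y →ₗ[S] LinearMap.range e := P.codRestrict _ (fun y => by
    rw [PP_apply]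
    exact Submodule.sum_mem _ fun i _ => ⟨_, rfl⟩)
  let ι : LinearMap.range e →ₗ[S] Y := qq g N hn ∘ₗ (LinearMap.range e).subtype
  let G : Module.End S (LinearMap.range e) := P' ∘ₗ ι
  have hG : ∀ x : LinearMap.range e, ((G x : LinearMap.range e) : ZZ 𝒜 g N) =
      P (qq g N hn x) := fun x => rfl
  have hfix : ∀ x : LinearMap.range e, e x = x := by
    intro x
    obtain ⟨y, hy⟩ := x.2
    rw [← hy, ← Module.End.mul_apply, hee]
  have hcomp : comp ((ZD g N hn).restrict _ he.range) G 0 = 1 := by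
    ext1 x
    rw [comp_apply, Module.End.one_apply]
    conv_rhs => rw [← ((ZD g N hn).restrict _ he.range).sum x]
    apply Finset.sum_congr rfl
    intro i _
    rw [add_zero]
    by_cases hi : c ≤ i.natAbs
    · have h0 : ((ZD g N hn).restrict _ he.range).p i x = 0 := by
        apply Subtype.ext
        rw [Grd.restrict_p, ← hfix x, hc _ i hi]
        rfl
      rw [h0, map_zero, map_zero]
    · apply Subtype.ext
      rw [Grd.restrict_p, hG, Grd.restrict_p]
      have h1 : qq g N hn ((ZD g N hn).p i (x : ZZ 𝒜 g N)) = ev 𝒜 i x.1.1 :=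
        qq_sg g N hn (by omega) rfl
      rw [h1, PP_apply, map_sum]
      have h2 : ∀ i', (ZD g N hn).p i (e (sgZ g N hn hg i' (ev 𝒜 i x.1.1))) =
          if i = i' then e (sgZ g N hn hg i' (ev 𝒜 i x.1.1)) else 0 := by
        intro i'
        have := he i (sgZ g N hn hg i' (ev 𝒜 i x.1.1))
        rw [add_zero] at this
        rw [this, p_sgZ]
        split_ifs
        · rfl
        · rw [map_zero]
      rw [Finset.sum_congr rfl (fun i' _ => h2 i'), Finset.sum_ite_eq, if_pos (by
        rw [Finset.mem_Icc]; omega)]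
      have h3 : sgZ g N hn hg i (ev 𝒜 i x.1.1) = (ZD g N hn).p i (x : ZZ 𝒜 g N) := by
        apply Subtype.ext
        rw [sgZ_pos g N hn hg (by omega), ZD_p]
      rw [h3]
      have := he i (x : ZZ 𝒜 g N)
      rw [add_zero] at this
      rw [← this, hfix]
  have hu : IsUnit G := isUnit_of_comp_zero ((ZD g N hn).restrict _ he.range) hind G (by
    rw [hcomp]; exact isUnit_one)
  obtain ⟨u, hu'⟩ := hu
  refine ⟨ι, (↑u⁻¹ : Module.End S (LinearMap.range e)) ∘ₗ P', fun x => ?_⟩
  show (↑u⁻¹ : Module.End S (LinearMap.range e)) (G x) = x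
  rw [← hu', ← Module.End.mul_apply, Units.inv_mul, Module.End.one_apply]

section lift

variable {C : Type w} [AddCommGroup C] [Module S C] (D' : Grd 𝒜 C) (f : C →ₗ[S] Y)

/-- the graded lift `x ↦ ∑ f(x_i) t^i` of a map from a graded module -/
noncomputable def lift (hN : D'.B + 2 * n ≤ N) : C →ₗ[S] ZZ 𝒜 g N where
  toFun x := ∑ i ∈ Finset.Icc (-(D'.B : ℤ)) D'.B, sgZ g N hn hg i (f (D'.p i x))
  map_add' x y := by
    rw [← Finset.sum_add_distrib]
    exact Finset.sum_congr rfl fun i _ => by rw [map_add, map_add, sgZ_add]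
  map_smul' a x := by
    rw [RingHom.id_apply]
    induction a using hom_induction (𝒜 := 𝒜) with
    | h0 =>
      rw [zero_smul, zero_smul]
      exact Finset.sum_eq_zero fun i _ => by rw [map_zero, map_zero, sgZ_zero]
    | hadd a b ha hb =>
      rw [add_smul, add_smul, ← ha, ← hb, ← Finset.sum_add_distrib]
      exact Finset.sum_congr rfl fun i _ => by rw [map_add, map_add, sgZ_add]
    | hh j a ha =>
      by_cases hj : n < j.natAbs
      · rw [hn j hj, AddSubgroup.mem_bot] at ha
        rw [ha, zero_smul, zero_smul]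
        exact Finset.sum_eq_zero fun i _ => by rw [map_zero, map_zero, sgZ_zero]
      · rw [Finset.smul_sum, sum_eq_finsum D'.B (fun i => sgZ g N hn hg i (f (D'.p i (a • x))))
            (fun i hi => by rw [D'.zero i hi, map_zero, sgZ_zero]),
          sum_eq_finsum D'.B (fun i => a • sgZ g N hn hg i (f (D'.p i x))) (fun i hi => by
            rw [D'.zero i hi, map_zero, sgZ_zero, smul_zero]),
          ← finsum_shift (fun i => a • sgZ g N hn hg i (f (D'.p i x))) j]
        apply finsum_congr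
        intro i
        rw [D'.smul' i j ha, map_smul]
        by_cases h1 : D'.B < (i - j).natAbs
        · rw [D'.zero _ h1, map_zero, smul_zero, sgZ_zero, sgZ_zero, smul_zero]
        · rw [smul_sgZ g N hn hg ha (by omega) (by omega), sub_add_cancel]

theorem lift_apply (hN : D'.B + 2 * n ≤ N) (x : C) : lift g N hn hg D' f hN x =
    ∑ i ∈ Finset.Icc (-(D'.B : ℤ)) D'.B, sgZ g N hn hg i (f (D'.p i x)) := rfl

theorem p_lift (hN : D'.B + 2 * n ≤ N) (k : ℤ) (x : C) :
    (ZD g N hn).p k (lift g N hn hg D' f hN x) = lift g N hn hg D' f hN (D'.p k x) := by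
  rw [lift_apply, lift_apply, map_sum]
  apply Finset.sum_congr rfl
  intro i _
  rw [p_sgZ, D'.pp]
  by_cases h : k = i
  · rw [if_pos h, if_pos h.symm]
  · rw [if_neg h, if_neg (Ne.symm h), map_zero, sgZ_zero]

theorem qq_lift (hN : D'.B + 2 * n ≤ N) (x : C) : qq g N hn (lift g N hn hg D' f hN x) = f x := by
  rw [lift_apply, map_sum]
  conv_rhs => rw [← D'.sum x, map_sum]
  apply Finset.sum_congr rfl
  intro i hi
  rw [Finset.mem_Icc] at hi
  exact qq_sg g N hn (by omega) (sgZ_pos g N hn hg (by omega) _)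

end lift

/-- `Y` has a right approximation by a finitely generated graded module -/
def HasApx (𝒜 : ℤ → AddSubgroup S) (Y : Type v) [AddCommGroup Y] [Module S Y] : Prop :=
  ∃ (C : Type v) (_ : AddCommGroup C) (_ : Module S C) (_ : Module.Finite S C) (_ : Grd 𝒜 C)
    (f : C →ₗ[S] Y), ∀ (C' : Type v) [AddCommGroup C'] [Module S C'] [Module.Finite S C']
      (_ : Grd 𝒜 C') (g : C' →ₗ[S] Y), ∃ h : C' →ₗ[S] C, f ∘ₗ h = g

theorem exists_retract [IsArtinianRing S] [Module.Finite S Y] [Nontrivial Y] (h : HasApx 𝒜 Y) :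
    ∃ (P : Type v) (_ : AddCommGroup P) (_ : Module S P) (_ : Grd 𝒜 P) (_ : Nontrivial P)
      (ι : P →ₗ[S] Y) (π : Y →ₗ[S] P), ∀ x, π (ι x) = x := by
  classical
  obtain ⟨C, iC, mC, fC, D', f, hf⟩ := h
  obtain ⟨n, hn⟩ := finite_support 𝒜
  obtain ⟨m, g, hg⟩ := Module.Finite.exists_fin (R := S) (M := Y)
  let c := D'.B + 1
  let N := c + 2 * n
  have hfin : Module.Finite S (ZZ 𝒜 g N) := ZZ_fg 𝒜 g N
  let D := ZD g N hn
  have hN : D'.B + 2 * n ≤ N := by
    show D'.B + 2 * n ≤ D'.B + 1 + 2 * n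
    omega
  let fl := lift g N hn hg D' f hN
  obtain ⟨h, hh⟩ := hf (ZZ 𝒜 g N) D (qq g N hn)
  have hh' : ∀ x, f (h x) = qq g N hn x := fun x => LinearMap.congr_fun hh x
  let G : Module.End S C := h ∘ₗ fl
  have hG : ∀ x, G x = h (fl x) := fun x => rfl
  have hfG : ∀ x, f (G x) = f x := by
    intro x
    rw [hG, hh', qq_lift]
  have hfGm : ∀ (m : ℕ) (x : C), f ((G ^ m) x) = f x := by
    intro m
    induction m with
    | zero => intro x; rfl
    | succ m ih => intro x; rw [pow_succ', Module.End.mul_apply, hfG, ih]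
  obtain ⟨m', hm'⟩ := Filter.eventually_atTop.1 G.eventually_isCompl_ker_pow_range_pow
  have hcm := hm' (m' + 1) (by omega)
  let V := LinearMap.range (G ^ (m' + 1))
  have hVnt : Nontrivial V := by
    rw [Submodule.nontrivial_iff_ne_bot]
    intro h0
    have h1 : G ^ (m' + 1) = 0 := LinearMap.range_eq_bot.1 h0
    obtain ⟨y, hy⟩ := exists_ne (0 : Y)
    apply hy
    have h2 : qq g N hn (sgZ g N hn hg 0 y) = y :=
      qq_sg g N hn (by show (0 : ℤ).natAbs ≤ N + n; simp)
        (sgZ_pos g N hn hg (by show 0 + n ≤ D'.B + 1 + 2 * n; omega) y)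
    rw [← h2, ← hh', ← hfGm (m' + 1), h1, LinearMap.zero_apply, map_zero]
  let θ : Module.End S V := (G ^ (m' + 1)).rangeRestrict ∘ₗ V.subtype
  have hθu : IsUnit θ := by
    apply isUnit_of_injective
    rw [← LinearMap.ker_eq_bot, LinearMap.ker_eq_bot']
    intro x hx
    have h1 : (G ^ (m' + 1)) x.1 = 0 := congrArg Subtype.val hx
    have h2 : x.1 ∈ LinearMap.ker (G ^ (m' + 1)) ⊓ LinearMap.range (G ^ (m' + 1)) := ⟨h1, x.2⟩
    rw [hcm.inf_eq_bot, Submodule.mem_bot] at h2
    exact Subtype.ext h2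
  obtain ⟨u, hu⟩ := hθu.mul hθu
  obtain ⟨U, U', hUU', hU0, hUl⟩ := exists_loc_summand S V
  have hUnt : Nontrivial U := Submodule.nontrivial_iff_ne_bot.2 hU0
  let pr : V →ₗ[S] U := Submodule.projectionOnto (R := S) (E := V) U U' hUU'
  let π : ZZ 𝒜 g N →ₗ[S] U := pr ∘ₗ (↑u⁻¹ : Module.End S V) ∘ₗ (G ^ (m' + 1)).rangeRestrict ∘ₗ
    (G ^ m') ∘ₗ h
  let ι : U →ₗ[S] ZZ 𝒜 g N := fl ∘ₗ V.subtype ∘ₗ U.subtype
  have hπι : (π ∘ₗ (1 : Module.End S (ZZ 𝒜 g N)) ∘ₗ ι : Module.End S U) = 1 := by
    ext1 x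
    show pr ((↑u⁻¹ : Module.End S V) ((G ^ (m' + 1)).rangeRestrict ((G ^ m') (h (fl x.1.1))))) = x
    have h1 : (G ^ (m' + 1)).rangeRestrict ((G ^ m') (h (fl x.1.1))) =
        (u : Module.End S V) x.1 := by
      rw [hu]
      apply Subtype.ext
      show (G ^ (m' + 1)) ((G ^ m') (G x.1.1)) = (G ^ (m' + 1)) ((G ^ (m' + 1)) x.1.1)
      rw [pow_succ G m', Module.End.mul_apply (G ^ m') G x.1.1]
    rw [h1, ← Module.End.mul_apply, Units.inv_mul, Module.End.one_apply]
    exact Submodule.projectionOnto_apply_left hUU' x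
  obtain ⟨e, he, hee, hind, hue⟩ := core' D 1 (one_mul 1) Hmg.one hUl ι π
    (by rw [hπι]; exact isUnit_one)
  have hrnt : Nontrivial (LinearMap.range e) := by
    rw [Submodule.nontrivial_iff_ne_bot]
    intro h0
    have h1 : e = 0 := LinearMap.range_eq_bot.1 h0
    rw [h1] at hue
    have h2 : (π ∘ₗ (0 : Module.End S (ZZ 𝒜 g N)) ∘ₗ ι : Module.End S U) = 0 := by
      ext1 x
      exact map_zero π
    rw [h2] at hue
    exact not_isUnit_zero hue
  -- the map `U → range e` is surjective
  have hsurj : ∀ y : LinearMap.range e, ∃ x : U, e (ι x) = y := by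
    obtain ⟨w, hw⟩ := hue
    have hloc : LocEnd S (LinearMap.range e) := unit_or (D.restrict _ he.range) hind
    let a : U →ₗ[S] LinearMap.range e := e.rangeRestrict ∘ₗ ι
    let b : LinearMap.range e →ₗ[S] U := (↑w⁻¹ : Module.End S U) ∘ₗ π ∘ₗ
      (LinearMap.range e).subtype
    have hba : ∀ x, b (a x) = x := by
      intro x
      show (↑w⁻¹ : Module.End S U) (π (e (ι x))) = x
      have h1 : π (e (ι x)) = (w : Module.End S U) x := by rw [hw]; rfl
      rw [h1, ← Module.End.mul_apply, Units.inv_mul, Module.End.one_apply]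
    have hab := retract_right hloc a b hba
    intro y
    refine ⟨b y, ?_⟩
    exact congrArg Subtype.val (hab y)
  have hc : ∀ x : ZZ 𝒜 g N, ∀ i : ℤ, c ≤ i.natAbs → D.p i (e x) = 0 := by
    intro x i hi
    obtain ⟨y, hy⟩ := hsurj ⟨e x, x, rfl⟩
    have h1 : e x = e (fl (V.subtype (U.subtype y))) := hy.symm
    have h2 := he i (fl (V.subtype (U.subtype y)))
    rw [add_zero] at h2
    rw [h1, h2, p_lift, D'.zero i (by show D'.B < i.natAbs; omega), map_zero, map_zero]
  obtain ⟨ι', π', hι'⟩ := key_retract g N hn hg he hee hind c hc le_rfl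
  exact ⟨LinearMap.range e, inferInstance, inferInstance, D.restrict _ he.range, hrnt, ι', π', hι'⟩

/-! ### the induction -/

/-- grading of a product -/
def Grd.prod {A : Type v} {B : Type w} [AddCommGroup A] [Module S A] [AddCommGroup B] [Module S B]
    (D₁ : Grd 𝒜 A) (D₂ : Grd 𝒜 B) : Grd 𝒜 (A × B) where
  p i := (D₁.p i).prodMap (D₂.p i)
  B := max D₁.B D₂.B
  zero i hi m := by
    show (D₁.p i m.1, D₂.p i m.2) = 0
    rw [D₁.zero i (lt_of_le_of_lt (le_max_left _ _) hi),
      D₂.zero i (lt_of_le_of_lt (le_max_right _ _) hi)]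
    rfl
  orth i j hij m := by
    show (D₁.p i (D₁.p j m.1), D₂.p i (D₂.p j m.2)) = 0
    rw [D₁.orth i j hij, D₂.orth i j hij]
    rfl
  sum m := by
    have h1 := D₁.sum_shift 0 (max D₁.B D₂.B) (by simp) m.1
    have h2 := D₂.sum_shift 0 (max D₁.B D₂.B) (by simp) m.2
    simp only [zero_add] at h1 h2
    apply Prod.ext
    · rw [Prod.fst_sum]
      exact h1
    · rw [Prod.snd_sum]
      exact h2
  smul i j a ha m := Prod.ext (D₁.smul i j a ha m.1) (D₂.smul i j a ha m.2)

theorem apx_main [IsArtinianRing S] (k : ℕ) : ∀ (Y : Type v) [AddCommGroup Y] [Module S Y]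
    [Module.Finite S Y], len (⊤ : Submodule S Y) ≤ k → HasApx 𝒜 Y → GrIso 𝒜 Y := by
  induction k with
  | zero =>
    intro Y _ _ _ hk _
    have h0 : (⊤ : Submodule S Y) = ⊥ := eq_bot_of_len (by omega)
    have h1 : ∀ y : Y, y = 0 := by
      intro y
      have : y ∈ (⊥ : Submodule S Y) := h0 ▸ Submodule.mem_top
      exact this
    exact ⟨Y, inferInstance, inferInstance,
      { p := fun _ => 0
        B := 0
        zero := fun _ _ _ => rfl
        orth := fun _ _ _ _ => rfl
        sum := fun y => by rw [h1 y]; exact Finset.sum_eq_zero fun _ _ => rfl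
        smul := fun _ _ a _ _ => (smul_zero a).symm }, ⟨LinearEquiv.refl _ _⟩⟩
  | succ k ih =>
    intro Y _ _ _ hk hY
    rcases subsingleton_or_nontrivial Y with hs | hnt
    · apply ih Y _ hY
      have h0 : (⊤ : Submodule S Y) = ⊥ := Subsingleton.elim _ _
      rw [h0, len_bot]
      omega
    obtain ⟨P, iP, mP, DP, hP, ι, π, hι⟩ := exists_retract hY
    have hpm : ∀ y, y - ι (π y) ∈ LinearMap.ker π := by
      intro y
      rw [LinearMap.mem_ker, map_sub, hι, sub_self]
    let ρ : Y →ₗ[S] LinearMap.ker π := (LinearMap.id - ι ∘ₗ π).codRestrict _ hpm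
    have hρ : ∀ y, ((ρ y : LinearMap.ker π) : Y) = y - ι (π y) := fun y => rfl
    have hρs : ∀ y : LinearMap.ker π, ρ y = y := by
      intro y
      apply Subtype.ext
      rw [hρ, LinearMap.mem_ker.1 y.2, map_zero, sub_zero]
    have hA : HasApx 𝒜 (LinearMap.ker π) := by
      obtain ⟨C, iC, mC, fC, D', f, hf⟩ := hY
      refine ⟨C, iC, mC, fC, D', ρ ∘ₗ f, ?_⟩
      intro C' _ _ _ D'' g
      obtain ⟨h, hh⟩ := hf C' D'' ((LinearMap.ker π).subtype ∘ₗ g)
      refine ⟨h, ?_⟩
      rw [LinearMap.comp_assoc, hh]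
      ext1 x
      exact hρs _
    have hlt : len (⊤ : Submodule S (LinearMap.ker π)) < len (⊤ : Submodule S Y) := by
      have h1 : len (⊤ : Submodule S (LinearMap.ker π)) = len (LinearMap.ker π) := by
        rw [len, len, Module.length_top]
      rw [h1]
      apply len_lt
      rw [lt_top_iff_ne_top]
      intro h
      obtain ⟨x, hx⟩ := exists_ne (0 : P)
      apply hx
      rw [← hι x]
      have : ι x ∈ LinearMap.ker π := h ▸ Submodule.mem_top
      exact this
    obtain ⟨Q, iQ, mQ, DQ, ⟨φ⟩⟩ := ih (LinearMap.ker π) (by omega) hA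
    refine ⟨P × Q, inferInstance, inferInstance, DP.prod DQ, ⟨?_⟩⟩
    have hc1 : (π.prod ρ) ∘ₗ (ι.coprod (LinearMap.ker π).subtype) = LinearMap.id := by
      apply LinearMap.ext
      rintro ⟨x, y⟩
      show (π (ι x + y), ρ (ι x + y)) = (x, y)
      rw [map_add, map_add, hι, LinearMap.mem_ker.1 y.2, add_zero, hρs]
      have : ρ (ι x) = 0 := by
        apply Subtype.ext
        rw [hρ, hι, sub_self]
        rfl
      rw [this, zero_add]
    have hc2 : (ι.coprod (LinearMap.ker π).subtype) ∘ₗ (π.prod ρ) = LinearMap.id := by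
      ext y
      show ι (π y) + ρ y = y
      rw [hρ]
      abel
    let E : Y ≃ₗ[S] (P × LinearMap.ker π) := LinearEquiv.ofLinearMap _ _ hc1 hc2
    exact E.trans ((LinearEquiv.refl S P).prodCongr φ)

end Pool.Agent.R706.GrMod
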