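import Mathlib
import Pool.Agent.R706.GrApp

/-!
# Bounded gradings from internal direct sums
-/

set_option autoImplicit false

namespace Pool.Agent.R706.GrMod

open Pool.Agent.R706.GrFin

universe u v w

variable {S : Type u} [Ring S] {𝒜 : ℤ → AddSubgroup S} [GradedRing 𝒜]

theorem grd_of_internal [IsArtinianRing S] {M : Type v} [AddCommGroup M] [Module S M]
    [Module.Finite S M] (𝓝 : ℤ → AddSubgroup M) (hI : DirectSum.IsInternal 𝓝)
    (hs : ∀ i j : ℤ, ∀ x ∈ 𝓝 i, ∀ a ∈ 𝒜 j, a • x ∈ 𝓝 (i + j)) : Nonempty (Grd 𝒜 M) := by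
  classical
  let _ : DirectSum.Decomposition 𝓝 := hI.chooseDecomposition
  obtain ⟨n, hn⟩ := finite_support 𝒜
  let p : ℤ → M →+ M := fun i =>
    { toFun := fun m => ((DirectSum.decompose 𝓝 m i : 𝓝 i) : M)
      map_zero' := by rw [DirectSum.decompose_zero]; rfl
      map_add' := fun x y => by rw [DirectSum.decompose_add]; rfl }
  have hp : ∀ i m, p i m = ((DirectSum.decompose 𝓝 m i : 𝓝 i) : M) := fun i m => rfl
  have hmem : ∀ i m, p i m ∈ 𝓝 i := fun i m => (DirectSum.decompose 𝓝 m i).2
  have hsame : ∀ i, ∀ m ∈ 𝓝 i, p i m = m := fun i m hm => DirectSum.decompose_of_mem_same 𝓝 hm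
  have hne : ∀ i j, i ≠ j → ∀ m ∈ 𝓝 j, p i m = 0 := fun i j hij m hm =>
    DirectSum.decompose_of_mem_ne 𝓝 hm (Ne.symm hij)
  have hsmul : ∀ i j, ∀ a ∈ 𝒜 j, ∀ m, p (j + i) (a • m) = a • p i m := by
    intro i j a ha m
    induction m using DirectSum.Decomposition.inductionOn 𝓝 with
    | zero => rw [smul_zero, map_zero, map_zero, smul_zero]
    | @homogeneous k m =>
      have h1 : a • (m : M) ∈ 𝓝 (j + k) := add_comm k j ▸ hs k j m m.2 a ha
      by_cases hk : i = k
      · subst hk
        rw [hsame _ _ h1, hsame _ _ m.2]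
      · rw [hne _ _ (fun h => hk (by omega)) _ h1, hne _ _ hk _ m.2, smul_zero]
    | add x y hx hy => rw [smul_add, map_add, map_add, smul_add, hx, hy]
  obtain ⟨r, g, hg⟩ := Module.Finite.exists_fin (R := S) (M := M)
  have hsupp : ∀ m : M, ∃ B : ℕ, ∀ i : ℤ, B < i.natAbs → p i m = 0 := by
    intro m
    refine ⟨((DirectSum.decompose 𝓝 m).support).sup Int.natAbs, ?_⟩
    intro i hi
    by_contra hne0
    have h1 : i ∈ (DirectSum.decompose 𝓝 m).support := by
      rw [DFinsupp.mem_support_iff]
      intro h0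
      apply hne0
      rw [hp, h0]
      rfl
    have := Finset.le_sup (f := Int.natAbs) h1
    omega
  choose B hB using hsupp
  let C : ℕ := (Finset.univ : Finset (Fin r)).sup (fun k => B (g k))
  have hC : ∀ k, ∀ i : ℤ, C < i.natAbs → p i (g k) = 0 := by
    intro k i hi
    apply hB
    have := Finset.le_sup (f := fun k => B (g k)) (Finset.mem_univ k)
    exact lt_of_le_of_lt this hi
  have hbound : ∀ i : ℤ, C + n < i.natAbs → ∀ m, p i m = 0 := by
    intro i hi m
    have hm : m ∈ Submodule.span S (Set.range g) := by rw [hg]; trivial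
    obtain ⟨c, rfl⟩ := (Submodule.mem_span_range_iff_exists_fun S).1 hm
    rw [map_sum]
    apply Finset.sum_eq_zero
    intro k _
    generalize c k = s
    induction s using hom_induction (𝒜 := 𝒜) with
    | h0 => rw [zero_smul, map_zero]
    | hadd s t hs ht => rw [add_smul, map_add, hs, ht, add_zero]
    | hh t s hs =>
      by_cases ht : n < t.natAbs
      · rw [hn t ht, AddSubgroup.mem_bot] at hs
        rw [hs, zero_smul, map_zero]
      · have h1 := hsmul (i - t) t s hs (g k)
        rw [add_sub_cancel] at h1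
        rw [h1, hC k (i - t) (by omega), smul_zero]
  exact ⟨{
    p := p
    B := C + n
    zero := hbound
    orth := fun i j hij m => hne i j hij _ (hmem j m)
    sum := fun m => by
      conv_rhs => rw [← DirectSum.sum_support_decompose 𝓝 m]
      symm
      apply Finset.sum_subset
      · intro i hi
        rw [Finset.mem_Icc]
        by_contra hcon
        have h1 := hbound i (by push_cast at hcon; omega) m
        rw [DFinsupp.mem_support_iff] at hi
        exact hi (Subtype.ext h1)
      · intro i _ hi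
        rw [DFinsupp.notMem_support_iff] at hi
        rw [hi]
        rfl
    smul := hsmul }⟩

end Pool.Agent.R706.GrMod
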