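import Mathlib
import Pool.Agent.R706.GrPre

/-!
# The opposite of a graded ring, and gradable right modules
-/

set_option autoImplicit false

namespace Pool.Agent.R706.GrOp

open Pool.Agent.R706.GrMod

universe u v

variable {R : Type u} [Ring R] (𝒜 : ℤ → AddSubgroup R)

/-- the grading of the opposite ring -/
def opGr (i : ℤ) : AddSubgroup Rᵐᵒᵖ :=
  (𝒜 i).comap (MulOpposite.opAddEquiv (α := R)).symm.toAddMonoidHom

theorem mem_opGr {i : ℤ} {x : Rᵐᵒᵖ} : x ∈ opGr 𝒜 i ↔ x.unop ∈ 𝒜 i := Iff.rfl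

/-- the map between components -/
def opHom (i : ℤ) : 𝒜 i →+ opGr 𝒜 i where
  toFun x := ⟨MulOpposite.op x.1, x.2⟩
  map_zero' := rfl
  map_add' _ _ := rfl

variable [GradedRing 𝒜]

/-- decomposition of the opposite ring -/
noncomputable def opDec : Rᵐᵒᵖ →+ DirectSum ℤ (fun i => opGr 𝒜 i) :=
  (DirectSum.map (opHom 𝒜)).comp
    ((DirectSum.decomposeAddEquiv 𝒜).toAddMonoidHom.comp
      (MulOpposite.opAddEquiv (α := R)).symm.toAddMonoidHom)

theorem opDec_of_mem {i : ℤ} {a : R} (ha : a ∈ 𝒜 i) :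
    opDec 𝒜 (MulOpposite.op a) = DirectSum.of (fun i => opGr 𝒜 i) i ⟨MulOpposite.op a, ha⟩ := by
  show DirectSum.map (opHom 𝒜) (DirectSum.decompose 𝒜 a) = _
  rw [DirectSum.decompose_of_mem 𝒜 ha, DirectSum.map_of]
  rfl

noncomputable instance : GradedRing (opGr 𝒜) where
  one_mem := (SetLike.GradedOne.one_mem : (1 : R) ∈ 𝒜 0)
  mul_mem i j x y hx hy := by
    rw [mem_opGr] at hx hy ⊢
    rw [MulOpposite.unop_mul, add_comm]
    exact SetLike.GradedMul.mul_mem hy hx
  toDecomposition := DirectSum.Decomposition.ofAddHom (opGr 𝒜) (opDec 𝒜)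
    (by
      ext a
      show (DirectSum.coeAddMonoidHom (opGr 𝒜)) (opDec 𝒜 (MulOpposite.op a)) = MulOpposite.op a
      induction a using DirectSum.Decomposition.inductionOn 𝒜 with
      | zero => rw [MulOpposite.op_zero, map_zero, map_zero]
      | homogeneous m => rw [opDec_of_mem 𝒜 m.2, DirectSum.coeAddMonoidHom_of]
      | add a b ha hb => rw [MulOpposite.op_add, map_add, map_add, ha, hb])
    (by
      ext i x
      obtain ⟨x, hx⟩ := x
      obtain ⟨a, rfl⟩ := MulOpposite.op_surjective x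
      show ((opDec 𝒜 (DirectSum.coeAddMonoidHom (opGr 𝒜)
        (DirectSum.of (fun i => opGr 𝒜 i) i ⟨MulOpposite.op a, hx⟩))) _ : Rᵐᵒᵖ) = _
      rw [DirectSum.coeAddMonoidHom_of]
      have ha : a ∈ 𝒜 i := hx
      show ((opDec 𝒜 (MulOpposite.op a)) _ : Rᵐᵒᵖ) = _
      rw [opDec_of_mem 𝒜 ha]
      rfl)

end Pool.Agent.R706.GrOp
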