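import Mathlib

/-!
# Commuting H-polar decompositions
-/

set_option autoImplicit false

namespace Pool.Agent.R706.HPolar

open Matrix

variable {n : ℕ}

/-- the `H`-adjoint -/
noncomputable def adj (H M : Matrix (Fin n) (Fin n) ℂ) : Matrix (Fin n) (Fin n) ℂ := H⁻¹ * Mᴴ * H

/-- `X` is `H`-decomposable: there is a nontrivial `H`-nondegenerate subspace invariant under `X`
and its `H`-adjoint -/
def Decomposable (H X : Matrix (Fin n) (Fin n) ℂ) : Prop :=
  ∃ W : Submodule ℂ (Fin n → ℂ), W ≠ ⊥ ∧ W ≠ ⊤ ∧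
    (∀ x ∈ W, (∀ y ∈ W, star x ⬝ᵥ (H *ᵥ y) = 0) → x = 0) ∧
    (∀ x ∈ W, X *ᵥ x ∈ W) ∧ (∀ x ∈ W, adj H X *ᵥ x ∈ W)

/-- `A` is the selfadjoint factor of an `H`-polar decomposition `X = UA` with commuting factors -/
def IsFactor (H X A : Matrix (Fin n) (Fin n) ℂ) : Prop :=
  adj H A = A ∧ ∃ U : Matrix (Fin n) (Fin n) ℂ, adj H U * U = 1 ∧ X = U * A ∧ U * A = A * U

variable {H : Matrix (Fin n) (Fin n) ℂ}

theorem adj_mul (hu : IsUnit H) (M N : Matrix (Fin n) (Fin n) ℂ) :
    adj H (M * N) = adj H N * adj H M := by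
  have hd : IsUnit H.det := (Matrix.isUnit_iff_isUnit_det H).1 hu
  rw [adj, adj, adj, conjTranspose_mul]
  have h1 : H⁻¹ * Nᴴ * H * (H⁻¹ * Mᴴ * H) = H⁻¹ * Nᴴ * (H * H⁻¹) * (Mᴴ * H) := by
    simp only [Matrix.mul_assoc]
  rw [h1, Matrix.mul_nonsing_inv _ hd, Matrix.mul_one]
  simp only [Matrix.mul_assoc]

theorem adj_pow (hu : IsUnit H) (M : Matrix (Fin n) (Fin n) ℂ) (k : ℕ) :
    adj H (M ^ k) = adj H M ^ k := by
  have hd : IsUnit H.det := (Matrix.isUnit_iff_isUnit_det H).1 hu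
  induction k with
  | zero => rw [pow_zero, pow_zero, adj, conjTranspose_one, Matrix.mul_one,
      Matrix.nonsing_inv_mul _ hd]
  | succ k ih => rw [pow_succ, adj_mul hu, ih, pow_succ']

theorem adj_sub_smul (hu : IsUnit H) (M : Matrix (Fin n) (Fin n) ℂ) (c : ℂ) :
    adj H (M - c • 1) = adj H M - (star c) • 1 := by
  have hd : IsUnit H.det := (Matrix.isUnit_iff_isUnit_det H).1 hu
  rw [adj, adj, conjTranspose_sub, conjTranspose_smul, conjTranspose_one, Matrix.mul_sub,
    Matrix.sub_mul, Matrix.mul_smul, Matrix.smul_mul, Matrix.mul_one, Matrix.nonsing_inv_mul _ hd]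

theorem form_mulVec (hH : H.IsHermitian) (hu : IsUnit H) (M : Matrix (Fin n) (Fin n) ℂ)
    (x z : Fin n → ℂ) :
    star x ⬝ᵥ (H *ᵥ (M *ᵥ z)) = star (adj H M *ᵥ x) ⬝ᵥ (H *ᵥ z) := by
  have hd : IsUnit H.det := (Matrix.isUnit_iff_isUnit_det H).1 hu
  rw [star_mulVec, ← dotProduct_mulVec, mulVec_mulVec, mulVec_mulVec]
  congr 2
  rw [adj, conjTranspose_mul, conjTranspose_mul, conjTranspose_conjTranspose, hH.eq,
    conjTranspose_nonsing_inv, hH.eq]
  simp only [Matrix.mul_assoc]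
  rw [Matrix.nonsing_inv_mul _ hd, Matrix.mul_one]

theorem nil_of_eigen (hH : H.IsHermitian) (hu : IsUnit H) {X U : Matrix (Fin n) (Fin n) ℂ}
    (hX : ¬ Decomposable H X) (hU : adj H U * U = 1) (h1 : Commute U X)
    (h2 : Commute U (adj H X)) {μ ν : ℂ} (hμν : star μ * ν = 1) {v : Fin n → ℂ} (hv : v ≠ 0)
    (huv : U *ᵥ v = μ • v) : ∃ m : ℕ, ((U - μ • 1) * (U - ν • 1)) ^ m = 0 := by
  have hνμ : star ν * μ = 1 := by
    have := congrArg star hμν
    rw [star_mul, star_star, star_one] at this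
    exact this
  have hUV : U * adj H U = 1 := mul_eq_one_comm.1 hU
  set V := adj H U with hV
  have hcUV : Commute U V := by rw [Commute, SemiconjBy, hUV, hU]
  have ha1 : adj H (U - μ • 1) = (-star μ) • (V * (U - ν • 1)) := by
    rw [adj_sub_smul hu, Matrix.mul_sub, hU, Matrix.mul_smul, Matrix.mul_one, smul_sub, smul_smul,
      ← hV, neg_mul, hμν, neg_smul, neg_smul, one_smul]
    abel
  have ha2 : adj H (U - ν • 1) = (-star ν) • (V * (U - μ • 1)) := by
    rw [adj_sub_smul hu, Matrix.mul_sub, hU, Matrix.mul_smul, Matrix.mul_one, smul_sub, smul_smul,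
      ← hV, neg_mul, hνμ, neg_smul, neg_smul, one_smul]
    abel
  set Q := (U - μ • 1) * (U - ν • 1) with hQ
  have hc : ∀ c : ℂ, Commute V (U - c • 1) := fun c =>
    hcUV.symm.sub_right ((Commute.one_right V).smul_right c)
  have hcc : ∀ c d : ℂ, Commute (U - c • 1) (U - d • 1) := fun c d =>
    ((Commute.refl U).sub_left ((Commute.one_left U).smul_left c)).sub_right
      ((Commute.one_right _).smul_right d)
  have haQ : adj H Q = (star ν * star μ) • ((V * V) * Q) := by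
    rw [hQ, adj_mul hu, ha1, ha2, Matrix.smul_mul, Matrix.mul_smul, smul_smul]
    have h3 : V * (U - μ • 1) * (V * (U - ν • 1)) = V * V * ((U - μ • 1) * (U - ν • 1)) := by
      rw [Matrix.mul_assoc, ← Matrix.mul_assoc (U - μ • 1) V, ← (hc μ).eq]
      simp only [Matrix.mul_assoc]
    rw [h3, neg_mul_neg]
  have hcVQ : Commute (V * V) Q := by
    apply Commute.mul_left <;> exact (hc μ).mul_right (hc ν)
  have haQm : ∀ m : ℕ, adj H (Q ^ m) = (star ν * star μ) ^ m • ((V * V) ^ m * Q ^ m) := by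
    intro m
    rw [adj_pow hu, haQ, smul_pow, hcVQ.mul_pow]
  obtain ⟨m, hm⟩ := Filter.eventually_atTop.1
    (Matrix.mulVecLin Q).eventually_isCompl_ker_pow_range_pow
  have hm1 := hm (m + 1) (by omega)
  have hpow : (Matrix.mulVecLin Q) ^ (m + 1) = Matrix.mulVecLin (Q ^ (m + 1)) := by
    have : ∀ k, (Matrix.mulVecLin Q) ^ k = Matrix.mulVecLin (Q ^ k) := by
      intro k
      induction k with
      | zero => rw [pow_zero, pow_zero, Matrix.mulVecLin_one]; rfl
      | succ k ih => rw [pow_succ, pow_succ, ih, Matrix.mulVecLin_mul (Q ^ k) Q]; rfl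
    exact this _
  rw [hpow] at hm1
  refine ⟨m + 1, ?_⟩
  by_contra hne
  apply hX
  refine ⟨LinearMap.ker (Matrix.mulVecLin (Q ^ (m + 1))), ?_, ?_, ?_, ?_, ?_⟩
  · intro h
    apply hv
    have hQv : Q ^ (m + 1) *ᵥ v = 0 := by
      have h3 : Q *ᵥ v = 0 := by
        rw [hQ, (hcc μ ν).eq, ← mulVec_mulVec, Matrix.sub_mulVec U (μ • 1), huv, smul_mulVec,
          one_mulVec, sub_self, mulVec_zero]
      rw [pow_succ, ← mulVec_mulVec, h3, mulVec_zero]
    have h4 : v ∈ LinearMap.ker (Matrix.mulVecLin (Q ^ (m + 1))) := hQv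
    rw [h] at h4
    exact h4
  · intro h
    apply hne
    have h3 : Matrix.mulVecLin (Q ^ (m + 1)) = 0 := LinearMap.ker_eq_top.1 h
    ext i j
    have h4 := congrFun (LinearMap.congr_fun h3 (Pi.single j 1)) i
    rw [Matrix.mulVecLin_apply, mulVec_single_one] at h4
    exact h4
  · intro x hx hxy
    have hx' : Q ^ (m + 1) *ᵥ x = 0 := hx
    have h3 : ∀ y, star x ⬝ᵥ (H *ᵥ y) = 0 := by
      intro y
      have hy : y ∈ LinearMap.ker (Matrix.mulVecLin (Q ^ (m + 1))) ⊔
          LinearMap.range (Matrix.mulVecLin (Q ^ (m + 1))) := by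
        rw [hm1.sup_eq_top]; trivial
      obtain ⟨w, hw, _, ⟨z, rfl⟩, rfl⟩ := Submodule.mem_sup.1 hy
      rw [mulVec_add, dotProduct_add, hxy w hw, zero_add, Matrix.mulVecLin_apply,
        form_mulVec hH hu, haQm, smul_mulVec, ← mulVec_mulVec, hx', mulVec_zero, smul_zero,
        star_zero, zero_dotProduct]
    have hd : IsUnit H.det := (Matrix.isUnit_iff_isUnit_det H).1 hu
    have h4 := h3 (H⁻¹ *ᵥ x)
    rw [mulVec_mulVec, Matrix.mul_nonsing_inv _ hd, one_mulVec] at h4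
    open scoped ComplexOrder in exact dotProduct_star_self_eq_zero.1 h4
  · intro x hx
    have hx' : Q ^ (m + 1) *ᵥ x = 0 := hx
    have h3 : Commute (Q ^ (m + 1)) X := by
      apply Commute.pow_left
      exact (h1.sub_left ((Commute.one_left X).smul_left μ)).mul_left
        (h1.sub_left ((Commute.one_left X).smul_left ν))
    show Q ^ (m + 1) *ᵥ (X *ᵥ x) = 0
    rw [mulVec_mulVec, h3.eq, ← mulVec_mulVec, hx', mulVec_zero]
  · intro x hx
    have hx' : Q ^ (m + 1) *ᵥ x = 0 := hx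
    have h3 : Commute (Q ^ (m + 1)) (adj H X) := by
      apply Commute.pow_left
      exact (h2.sub_left ((Commute.one_left _).smul_left μ)).mul_left
        (h2.sub_left ((Commute.one_left _).smul_left ν))
    show Q ^ (m + 1) *ᵥ (adj H X *ᵥ x) = 0
    rw [mulVec_mulVec, h3.eq, ← mulVec_mulVec, hx', mulVec_zero]

/-- a singular matrix `M - c` has an eigenvector -/
theorem exists_eigen {M : Matrix (Fin n) (Fin n) ℂ} {c : ℂ} (h : ¬ IsUnit (M - c • 1)) :
    ∃ v : Fin n → ℂ, v ≠ 0 ∧ M *ᵥ v = c • v := by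
  rw [Matrix.isUnit_iff_isUnit_det, isUnit_iff_ne_zero, not_not] at h
  obtain ⟨v, hv, hv'⟩ := Matrix.exists_mulVec_eq_zero_iff.2 h
  refine ⟨v, hv, ?_⟩
  rw [Matrix.sub_mulVec, smul_mulVec, one_mulVec, sub_eq_zero] at hv'
  exact hv'

theorem main (hH : H.IsHermitian) (hu : IsUnit H) {X : Matrix (Fin n) (Fin n) ℂ} (hX0 : X ≠ 0)
    (hX : ¬ Decomposable H X) {A A' : Matrix (Fin n) (Fin n) ℂ} (hA : IsFactor H X A)
    (hA' : IsFactor H X A') : A' = A ∨ A' = -A := by
  obtain ⟨hAs, U, hU, hUA, hUAc⟩ := hA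
  obtain ⟨hAs', U', hU', hUA', hUAc'⟩ := hA'
  have comm : ∀ (A U : Matrix (Fin n) (Fin n) ℂ), adj H A = A → adj H U * U = 1 → X = U * A →
      U * A = A * U → Commute U X ∧ Commute U (adj H X) ∧ A = U * adj H X ∧
        A = adj H X * U := by
    intro A U hA hU h1 h2
    have hUV : U * adj H U = 1 := mul_eq_one_comm.1 hU
    have hc1 : Commute U A := h2
    have hc2 : Commute U (adj H U) := by rw [Commute, SemiconjBy, hUV, hU]
    have h3 : adj H X = A * adj H U := by rw [h1, adj_mul hu, hA]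
    have hc3 : Commute (adj H U) A := by
      have : adj H U * A = adj H U * A * (U * adj H U) := by rw [hUV, Matrix.mul_one]
      rw [Commute, SemiconjBy, this]
      have h4 : adj H U * A * (U * adj H U) = adj H U * (A * U) * adj H U := by
        simp only [Matrix.mul_assoc]
      rw [h4, ← h2, ← Matrix.mul_assoc (adj H U) U, hU, Matrix.one_mul]
    refine ⟨by rw [h1]; exact (Commute.refl U).mul_right hc1, by
      rw [h3]; exact hc1.mul_right hc2, ?_, ?_⟩
    · rw [h3, ← hc3.eq, ← Matrix.mul_assoc, hUV, Matrix.one_mul]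
    · rw [h3, Matrix.mul_assoc, hU, Matrix.mul_one]
  obtain ⟨c1, c2, e1, e2⟩ := comm A U hAs hU hUA hUAc
  obtain ⟨c1', c2', e1', e2'⟩ := comm A' U' hAs' hU' hUA' hUAc'
  have key : A * U' = U * A' := by
    rw [e1, Matrix.mul_assoc, ← e2']
  by_contra hcon
  push Not at hcon
  have hD : A' - A ≠ 0 := sub_ne_zero.2 hcon.1
  have hP : A' + A ≠ 0 := fun h => hcon.2 (eq_neg_of_add_eq_zero_left h)
  have hDU : U * (A' - A) = (A' - A) * (-U') := by
    rw [Matrix.mul_sub, Matrix.sub_mul, Matrix.mul_neg, Matrix.mul_neg, ← key, ← hUA, ← hUAc',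
      ← hUA']
    abel
  have hPU : U * (A' + A) = (A' + A) * U' := by
    rw [Matrix.mul_add, Matrix.add_mul, ← key, ← hUA, ← hUAc', ← hUA']
    abel
  -- an eigenvalue of `U`
  have hn : Nonempty (Fin n) := by
    by_contra h
    rw [not_nonempty_iff] at h
    exact hX0 (Subsingleton.elim _ _)
  have hnt : Nontrivial (Fin n → ℂ) := inferInstance
  obtain ⟨μ, hμ⟩ := Module.End.exists_eigenvalue (Matrix.mulVecLin U)
  obtain ⟨v, hv1, hv0⟩ := hμ.exists_hasEigenvector
  have hv : U *ᵥ v = μ • v := Module.End.mem_eigenspace_iff.1 hv1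
  have unit_ne : ∀ (U : Matrix (Fin n) (Fin n) ℂ), adj H U * U = 1 → ∀ (a : ℂ) (v : Fin n → ℂ),
      v ≠ 0 → U *ᵥ v = a • v → a ≠ 0 := by
    intro U hU a v hv0 hv ha
    rw [ha, zero_smul] at hv
    apply hv0
    rw [← one_mulVec v, ← hU, ← mulVec_mulVec, hv, mulVec_zero]
  have hμ0 : μ ≠ 0 := unit_ne U hU μ v hv0 hv
  obtain ⟨ν, hν⟩ : ∃ ν : ℂ, star μ * ν = 1 := ⟨(star μ)⁻¹, mul_inv_cancel₀ (star_ne_zero.2 hμ0)⟩
  have hν' : star ν * μ = 1 := by
    have := congrArg star hν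
    rw [star_mul, star_star, star_one] at this
    exact this
  obtain ⟨m, hm⟩ := nil_of_eigen hH hu hX hU c1 c2 hν hv0 hv
  -- transfer
  have trans : ∀ (D T : Matrix (Fin n) (Fin n) ℂ), D ≠ 0 → U * D = D * T →
      ∃ c : ℂ, (c = μ ∨ c = ν) ∧ ¬ IsUnit (T - c • 1) := by
    intro D T hD hUD
    by_contra hno
    push Not at hno
    have h1 : ∀ c : ℂ, (U - c • 1) * D = D * (T - c • 1) := by
      intro c
      rw [Matrix.sub_mul, Matrix.mul_sub, hUD, Matrix.smul_mul, Matrix.mul_smul, Matrix.one_mul,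
        Matrix.mul_one]
    have h2 : ((U - μ • 1) * (U - ν • 1)) * D = D * ((T - μ • 1) * (T - ν • 1)) := by
      rw [Matrix.mul_assoc, h1, ← Matrix.mul_assoc, h1, Matrix.mul_assoc]
    have h3 : ∀ k : ℕ, ((U - μ • 1) * (U - ν • 1)) ^ k * D =
        D * ((T - μ • 1) * (T - ν • 1)) ^ k := by
      intro k
      induction k with
      | zero => rw [pow_zero, pow_zero, Matrix.one_mul, Matrix.mul_one]
      | succ k ih => rw [pow_succ, Matrix.mul_assoc, h2, ← Matrix.mul_assoc, ih, Matrix.mul_assoc,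
          ← pow_succ]
    have h4 : IsUnit (((T - μ • 1) * (T - ν • 1)) ^ m) :=
      ((hno μ (Or.inl rfl)).mul (hno ν (Or.inr rfl))).pow m
    have h5 := h3 m
    rw [hm, Matrix.zero_mul] at h5
    exact hD (h4.mul_left_eq_zero.1 h5.symm)
  obtain ⟨a, ha, ha'⟩ := trans _ _ hP hPU
  obtain ⟨b, hb, hb'⟩ := trans _ _ hD hDU
  obtain ⟨w, hw0, hw⟩ := exists_eigen ha'
  obtain ⟨z, hz0, hz⟩ := exists_eigen hb'
  have hz' : U' *ᵥ z = (-b) • z := by
    rw [neg_mulVec] at hz
    rw [neg_smul, ← hz, neg_neg]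
  -- second application
  obtain ⟨a', haa', hset⟩ : ∃ a' : ℂ, star a * a' = 1 ∧ (a' = μ ∨ a' = ν) := by
    rcases ha with rfl | rfl
    · exact ⟨ν, hν, Or.inr rfl⟩
    · exact ⟨μ, hν', Or.inl rfl⟩
  obtain ⟨m', hm'⟩ := nil_of_eigen hH hu hX hU' c1' c2' haa' hw0 hw
  have hev : ∀ k : ℕ, ((U' - a • 1) * (U' - a' • 1)) ^ k *ᵥ z =
      ((-b - a) * (-b - a')) ^ k • z := by
    intro k
    have h1 : ∀ c : ℂ, (U' - c • 1) *ᵥ z = (-b - c) • z := by
      intro c
      rw [Matrix.sub_mulVec, hz', smul_mulVec, one_mulVec, sub_smul]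
    induction k with
    | zero => rw [pow_zero, pow_zero, one_mulVec, one_smul]
    | succ k ih =>
      rw [pow_succ, ← mulVec_mulVec, ← mulVec_mulVec, h1, mulVec_smul, h1, mulVec_smul,
        mulVec_smul, ih, smul_smul, smul_smul, pow_succ]
      congr 1
      ring
  have h0 := hev m'
  rw [hm', zero_mulVec] at h0
  have h1 : ((-b - a) * (-b - a')) ^ m' = 0 := by
    rcases smul_eq_zero.1 h0.symm with h | h
    · exact h
    · exact absurd h hz0
  have h2 : -b = a ∨ -b = a' := by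
    rcases mul_eq_zero.1 (eq_zero_of_pow_eq_zero h1) with h | h
    · exact Or.inl (sub_eq_zero.1 h)
    · exact Or.inr (sub_eq_zero.1 h)
  have h3 : -b = μ ∨ -b = ν := by
    rcases h2 with h | h
    · rw [h]; exact ha
    · rw [h]; exact hset
  have hν0 : ν ≠ 0 := fun h => by rw [h, mul_zero] at hν; exact zero_ne_one hν
  have hpos : ¬ (star μ * (-μ) = 1) := by
    intro h
    have h4 : ((-(Complex.normSq μ) : ℝ) : ℂ) = 1 := by
      rw [← h]
      push_cast
      rw [Complex.normSq_eq_conj_mul_self]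
      show -(star μ * μ) = star μ * -μ
      ring
    have h5 : -(Complex.normSq μ) = 1 := by exact_mod_cast h4
    have := Complex.normSq_nonneg μ
    linarith
  have hself : ∀ c : ℂ, -c = c → c = 0 := fun c h => by
    have : (2 : ℂ) * c = 0 := by linear_combination -h
    rcases mul_eq_zero.1 this with h | h
    · exact absurd h two_ne_zero
    · exact h
  rcases hb with rfl | rfl
  · rcases h3 with h | h
    · exact hμ0 (hself _ h)
    · apply hpos
      rw [h]
      exact hν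
  · rcases h3 with h | h
    · apply hpos
      rw [← h, neg_neg]
      rw [h]
      exact hν
    · exact hν0 (hself _ h)

end Pool.Agent.R706.HPolar
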