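import Mathlib

/-!
# The ring used in the counterexample for MP_0b9bd1_al

`QR` is the algebra over the field with two elements with basis `e₁, e₂, e₃, e₄, h, g₁, g₂, g₃,
r₁, r₂, u₁ = g₁ r₂, u₂ = g₂ r₁, u₃ = g₃ r₁ = g₃ r₂` and `f_i` (`i ∈ ℕ`), where `f_i ∈ e₂ R e₁`,
`g_j ∈ e₄ R e₁`, `r_j ∈ e₁ R e₃`, `h ∈ e₄ R e₄`, and all other products of non-idempotent basis
elements are zero.
-/

namespace Pool.Agent.R706.Lee

/-- the underlying space of the ring -/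
@[ext] structure QR where
  a1 : ZMod 2
  a2 : ZMod 2
  a3 : ZMod 2
  a4 : ZMod 2
  h : ZMod 2
  g1 : ZMod 2
  g2 : ZMod 2
  g3 : ZMod 2
  r1 : ZMod 2
  r2 : ZMod 2
  u1 : ZMod 2
  u2 : ZMod 2
  u3 : ZMod 2
  f : ℕ →₀ ZMod 2

namespace QR

instance : Zero QR := ⟨⟨0, 0, 0, 0, 0, 0, 0, 0, 0, 0, 0, 0, 0, 0⟩⟩
instance : One QR := ⟨⟨1, 1, 1, 1, 0, 0, 0, 0, 0, 0, 0, 0, 0, 0⟩⟩
noncomputable instance : Add QR := ⟨fun x y => ⟨x.a1 + y.a1, x.a2 + y.a2, x.a3 + y.a3, x.a4 + y.a4, x.h + y.h, x.g1 + y.g1, x.g2 + y.g2, x.g3 + y.g3, x.r1 + y.r1, x.r2 + y.r2, x.u1 + y.u1, x.u2 + y.u2, x.u3 + y.u3, x.f + y.f⟩⟩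
noncomputable instance : Neg QR := ⟨fun x => ⟨-x.a1, -x.a2, -x.a3, -x.a4, -x.h, -x.g1, -x.g2, -x.g3, -x.r1, -x.r2, -x.u1, -x.u2, -x.u3, -x.f⟩⟩
noncomputable instance : Mul QR := ⟨fun x y => ⟨x.a1 * y.a1, x.a2 * y.a2, x.a3 * y.a3, x.a4 * y.a4, x.a4 * y.h + x.h * y.a4, x.a4 * y.g1 + x.g1 * y.a1, x.a4 * y.g2 + x.g2 * y.a1, x.a4 * y.g3 + x.g3 * y.a1, x.a1 * y.r1 + x.r1 * y.a3, x.a1 * y.r2 + x.r2 * y.a3, x.a4 * y.u1 + x.u1 * y.a3 + x.g1 * y.r2, x.a4 * y.u2 + x.u2 * y.a3 + x.g2 * y.r1, x.a4 * y.u3 + x.u3 * y.a3 + x.g3 * (y.r1 + y.r2), x.a2 • y.f + y.a1 • x.f⟩⟩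

@[simp] theorem zero_a1 : (0 : QR).a1 = 0 := rfl
@[simp] theorem one_a1 : (1 : QR).a1 = 1 := rfl
@[simp] theorem add_a1 (x y : QR) : (x + y).a1 = x.a1 + y.a1 := rfl
@[simp] theorem neg_a1 (x : QR) : (-x).a1 = -x.a1 := rfl
@[simp] theorem mul_a1 (x y : QR) : (x * y).a1 = x.a1 * y.a1 := rfl
@[simp] theorem zero_a2 : (0 : QR).a2 = 0 := rfl
@[simp] theorem one_a2 : (1 : QR).a2 = 1 := rfl
@[simp] theorem add_a2 (x y : QR) : (x + y).a2 = x.a2 + y.a2 := rfl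
@[simp] theorem neg_a2 (x : QR) : (-x).a2 = -x.a2 := rfl
@[simp] theorem mul_a2 (x y : QR) : (x * y).a2 = x.a2 * y.a2 := rfl
@[simp] theorem zero_a3 : (0 : QR).a3 = 0 := rfl
@[simp] theorem one_a3 : (1 : QR).a3 = 1 := rfl
@[simp] theorem add_a3 (x y : QR) : (x + y).a3 = x.a3 + y.a3 := rfl
@[simp] theorem neg_a3 (x : QR) : (-x).a3 = -x.a3 := rfl
@[simp] theorem mul_a3 (x y : QR) : (x * y).a3 = x.a3 * y.a3 := rfl
@[simp] theorem zero_a4 : (0 : QR).a4 = 0 := rfl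
@[simp] theorem one_a4 : (1 : QR).a4 = 1 := rfl
@[simp] theorem add_a4 (x y : QR) : (x + y).a4 = x.a4 + y.a4 := rfl
@[simp] theorem neg_a4 (x : QR) : (-x).a4 = -x.a4 := rfl
@[simp] theorem mul_a4 (x y : QR) : (x * y).a4 = x.a4 * y.a4 := rfl
@[simp] theorem zero_h : (0 : QR).h = 0 := rfl
@[simp] theorem one_h : (1 : QR).h = 0 := rfl
@[simp] theorem add_h (x y : QR) : (x + y).h = x.h + y.h := rfl
@[simp] theorem neg_h (x : QR) : (-x).h = -x.h := rfl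
@[simp] theorem mul_h (x y : QR) : (x * y).h = x.a4 * y.h + x.h * y.a4 := rfl
@[simp] theorem zero_g1 : (0 : QR).g1 = 0 := rfl
@[simp] theorem one_g1 : (1 : QR).g1 = 0 := rfl
@[simp] theorem add_g1 (x y : QR) : (x + y).g1 = x.g1 + y.g1 := rfl
@[simp] theorem neg_g1 (x : QR) : (-x).g1 = -x.g1 := rfl
@[simp] theorem mul_g1 (x y : QR) : (x * y).g1 = x.a4 * y.g1 + x.g1 * y.a1 := rfl
@[simp] theorem zero_g2 : (0 : QR).g2 = 0 := rfl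
@[simp] theorem one_g2 : (1 : QR).g2 = 0 := rfl
@[simp] theorem add_g2 (x y : QR) : (x + y).g2 = x.g2 + y.g2 := rfl
@[simp] theorem neg_g2 (x : QR) : (-x).g2 = -x.g2 := rfl
@[simp] theorem mul_g2 (x y : QR) : (x * y).g2 = x.a4 * y.g2 + x.g2 * y.a1 := rfl
@[simp] theorem zero_g3 : (0 : QR).g3 = 0 := rfl
@[simp] theorem one_g3 : (1 : QR).g3 = 0 := rfl
@[simp] theorem add_g3 (x y : QR) : (x + y).g3 = x.g3 + y.g3 := rfl
@[simp] theorem neg_g3 (x : QR) : (-x).g3 = -x.g3 := rfl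
@[simp] theorem mul_g3 (x y : QR) : (x * y).g3 = x.a4 * y.g3 + x.g3 * y.a1 := rfl
@[simp] theorem zero_r1 : (0 : QR).r1 = 0 := rfl
@[simp] theorem one_r1 : (1 : QR).r1 = 0 := rfl
@[simp] theorem add_r1 (x y : QR) : (x + y).r1 = x.r1 + y.r1 := rfl
@[simp] theorem neg_r1 (x : QR) : (-x).r1 = -x.r1 := rfl
@[simp] theorem mul_r1 (x y : QR) : (x * y).r1 = x.a1 * y.r1 + x.r1 * y.a3 := rfl
@[simp] theorem zero_r2 : (0 : QR).r2 = 0 := rfl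
@[simp] theorem one_r2 : (1 : QR).r2 = 0 := rfl
@[simp] theorem add_r2 (x y : QR) : (x + y).r2 = x.r2 + y.r2 := rfl
@[simp] theorem neg_r2 (x : QR) : (-x).r2 = -x.r2 := rfl
@[simp] theorem mul_r2 (x y : QR) : (x * y).r2 = x.a1 * y.r2 + x.r2 * y.a3 := rfl
@[simp] theorem zero_u1 : (0 : QR).u1 = 0 := rfl
@[simp] theorem one_u1 : (1 : QR).u1 = 0 := rfl
@[simp] theorem add_u1 (x y : QR) : (x + y).u1 = x.u1 + y.u1 := rfl
@[simp] theorem neg_u1 (x : QR) : (-x).u1 = -x.u1 := rfl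
@[simp] theorem mul_u1 (x y : QR) : (x * y).u1 = x.a4 * y.u1 + x.u1 * y.a3 + x.g1 * y.r2 := rfl
@[simp] theorem zero_u2 : (0 : QR).u2 = 0 := rfl
@[simp] theorem one_u2 : (1 : QR).u2 = 0 := rfl
@[simp] theorem add_u2 (x y : QR) : (x + y).u2 = x.u2 + y.u2 := rfl
@[simp] theorem neg_u2 (x : QR) : (-x).u2 = -x.u2 := rfl
@[simp] theorem mul_u2 (x y : QR) : (x * y).u2 = x.a4 * y.u2 + x.u2 * y.a3 + x.g2 * y.r1 := rfl
@[simp] theorem zero_u3 : (0 : QR).u3 = 0 := rfl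
@[simp] theorem one_u3 : (1 : QR).u3 = 0 := rfl
@[simp] theorem add_u3 (x y : QR) : (x + y).u3 = x.u3 + y.u3 := rfl
@[simp] theorem neg_u3 (x : QR) : (-x).u3 = -x.u3 := rfl
@[simp] theorem mul_u3 (x y : QR) : (x * y).u3 = x.a4 * y.u3 + x.u3 * y.a3 + x.g3 * (y.r1 + y.r2) := rfl
@[simp] theorem zero_f : (0 : QR).f = 0 := rfl
@[simp] theorem one_f : (1 : QR).f = 0 := rfl
@[simp] theorem add_f (x y : QR) : (x + y).f = x.f + y.f := rfl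
@[simp] theorem neg_f (x : QR) : (-x).f = -x.f := rfl
@[simp] theorem mul_f (x y : QR) : (x * y).f = x.a2 • y.f + y.a1 • x.f := rfl

theorem ext' {x y : QR} (ha1 : x.a1 = y.a1) (ha2 : x.a2 = y.a2) (ha3 : x.a3 = y.a3) (ha4 : x.a4 = y.a4) (hh : x.h = y.h) (hg1 : x.g1 = y.g1) (hg2 : x.g2 = y.g2) (hg3 : x.g3 = y.g3) (hr1 : x.r1 = y.r1) (hr2 : x.r2 = y.r2) (hu1 : x.u1 = y.u1) (hu2 : x.u2 = y.u2) (hu3 : x.u3 = y.u3) (hf : ∀ i, x.f i = y.f i) : x = y :=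
  QR.ext ha1 ha2 ha3 ha4 hh hg1 hg2 hg3 hr1 hr2 hu1 hu2 hu3 (Finsupp.ext hf)

noncomputable instance : Ring QR where
  add_assoc _ _ _ := by apply ext' <;> intros <;> simp [add_assoc]
  zero_add _ := by apply ext' <;> intros <;> simp
  add_zero _ := by apply ext' <;> intros <;> simp
  add_comm _ _ := by apply ext' <;> intros <;> simp [add_comm]
  neg_add_cancel _ := by apply ext' <;> intros <;> exact neg_add_cancel _
  mul_assoc _ _ _ := by apply ext' <;> intros <;> simp <;> ring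
  one_mul _ := by apply ext' <;> intros <;> simp
  mul_one _ := by apply ext' <;> intros <;> simp
  left_distrib _ _ _ := by apply ext' <;> intros <;> simp <;> ring
  right_distrib _ _ _ := by apply ext' <;> intros <;> simp <;> ring
  zero_mul _ := by apply ext' <;> intros <;> simp
  mul_zero _ := by apply ext' <;> intros <;> simp
  nsmul := nsmulRec
  zsmul := zsmulRec

/-- idempotent `e₁` -/
def e1 : QR := ⟨1, 0, 0, 0, 0, 0, 0, 0, 0, 0, 0, 0, 0, 0⟩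
/-- idempotent `e₂` -/
def e2 : QR := ⟨0, 1, 0, 0, 0, 0, 0, 0, 0, 0, 0, 0, 0, 0⟩
/-- idempotent `e₃` -/
def e3 : QR := ⟨0, 0, 1, 0, 0, 0, 0, 0, 0, 0, 0, 0, 0, 0⟩
/-- idempotent `e₄` -/
def e4 : QR := ⟨0, 0, 0, 1, 0, 0, 0, 0, 0, 0, 0, 0, 0, 0⟩
/-- idempotent `e₂ + e₄` -/
def eps : QR := ⟨0, 1, 0, 1, 0, 0, 0, 0, 0, 0, 0, 0, 0, 0⟩

end QR

end Pool.Agent.R706.Lee
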