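import Mathlib

/-!
# Mittag-Leffler modules, direct limits and decompositions: basic notions
-/

set_option autoImplicit false

namespace Pool.Agent.R706.ML

universe u

/-- A positive primitive formula with `n` free variables: finitely many linear equations
`∑ A e i x_i + ∑ B e k y_k = 0` with finitely many bound variables `y_k`. -/
structure PPFormula (R : Type u) (n : ℕ) where
  E : Type
  U : Type
  [finE : Fintype E]
  [finU : Fintype U]
  A : E → Fin n → R
  B : E → U → R

attribute [instance] PPFormula.finE PPFormula.finU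

/-- the tuple `x` satisfies the formula `φ` in `M` -/
def PPFormula.Sat {R : Type u} [Ring R] {n : ℕ} (φ : PPFormula R n) (M : Type u) [AddCommGroup M]
    [Module R M] (x : Fin n → M) : Prop :=
  ∃ y : φ.U → M, ∀ e, ∑ i, φ.A e i • x i + ∑ k, φ.B e k • y k = 0

/-- Mittag-Leffler modules: the pp type of every finite tuple is finitely generated -/
def MittagLeffler (R : Type u) [Ring R] (M : Type u) [AddCommGroup M] [Module R M] : Prop :=
  ∀ (n : ℕ) (x : Fin n → M), ∃ φ : PPFormula R n, φ.Sat M x ∧
    ∀ ψ : PPFormula R n, ψ.Sat M x →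
      ∀ (N : Type u) [AddCommGroup N] [Module R N] (z : Fin n → N), φ.Sat N z → ψ.Sat N z

/-- classes of modules -/
abbrev ModClass (R : Type u) [Ring R] := ∀ (M : Type u) [AddCommGroup M] [Module R M], Prop

/-- `M` is isomorphic to a direct limit, over a directed index set, of modules in `𝒜` -/
def InLim {R : Type u} [Ring R] (𝒜 : ModClass R) (M : Type u) [AddCommGroup M] [Module R M] :
    Prop :=
  ∃ (ι : Type u) (_ : Preorder ι) (_ : IsDirectedOrder ι) (_ : Nonempty ι) (_ : DecidableEq ι)
    (G : ι → Type u) (_ : ∀ i, AddCommGroup (G i)) (_ : ∀ i, Module R (G i))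
    (f : ∀ i j, i ≤ j → G i →ₗ[R] G j) (_ : DirectedSystem G fun i j h => f i j h),
    (∀ i, 𝒜 (G i)) ∧ Nonempty (M ≃ₗ[R] Module.DirectLimit G f)

variable {R : Type u} [Ring R]

/-! ### Presentations -/

theorem exists_pres (A : Type u) [AddCommGroup A] [Module R A] [Module.FinitePresentation R A] :
    ∃ (p l : ℕ) (e : Fin p → A) (r : Fin l → Fin p → R), (∀ j, ∑ k, r j k • e k = 0) ∧
      Submodule.span R (Set.range e) = ⊤ ∧
      ∀ (N : Type u) [AddCommGroup N] [Module R N] (y : Fin p → N),
        (∀ j, ∑ k, r j k • y k = 0) → ∃ g : A →ₗ[R] N, ∀ k, g (e k) = y k := by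
  classical
  obtain ⟨n, m, f, g, hf, hfg⟩ := Module.FinitePresentation.exists_fin' R A
  have hpi : ∀ v : Fin n → R, v = ∑ k, v k • Pi.single k (1 : R) := fun v =>
    pi_eq_sum_univ' v
  refine ⟨n, m, fun k => f (Pi.single k 1), fun j => g (Pi.single j 1), ?_, ?_, ?_⟩
  · intro j
    rw [← (hfg (g (Pi.single j 1))).2 ⟨_, rfl⟩]
    conv_rhs => rw [hpi (g (Pi.single j 1)), map_sum]
    exact Finset.sum_congr rfl fun k _ => (map_smul f _ _).symm
  · rw [eq_top_iff]
    rintro a -
    obtain ⟨v, rfl⟩ := hf a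
    rw [hpi v, map_sum]
    apply Submodule.sum_mem
    intro k _
    rw [map_smul]
    exact Submodule.smul_mem _ _ (Submodule.subset_span ⟨k, rfl⟩)
  · intro N _ _ y hy
    let F : (Fin n → R) →ₗ[R] N := Fintype.linearCombination R y
    have hF : ∀ v, F v = ∑ k, v k • y k := fun v => rfl
    have hker : LinearMap.ker f ≤ LinearMap.ker F := by
      intro v hv
      obtain ⟨w, rfl⟩ := (hfg v).1 hv
      rw [LinearMap.mem_ker]
      have hw : w = ∑ j, w j • Pi.single j (1 : R) := pi_eq_sum_univ' w
      rw [hw, map_sum, map_sum]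
      apply Finset.sum_eq_zero
      intro j _
      rw [map_smul, map_smul, hF, hy, smul_zero]
    refine ⟨(LinearMap.ker f).liftQ F hker ∘ₗ (f.quotKerEquivOfSurjective hf).symm.toLinearMap, ?_⟩
    intro k
    have h1 : (f.quotKerEquivOfSurjective hf).symm (f (Pi.single k 1)) =
        (LinearMap.ker f).mkQ (Pi.single k 1) := by
      rw [LinearEquiv.symm_apply_eq]
      rfl
    show (LinearMap.ker f).liftQ F hker ((f.quotKerEquivOfSurjective hf).symm
      (f (Pi.single k 1))) = y k
    rw [h1]
    show F (Pi.single k 1) = y k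
    rw [hF, Finset.sum_eq_single k]
    · rw [Pi.single_eq_same, one_smul]
    · intro j _ hj
      rw [Pi.single_eq_of_ne hj, zero_smul]
    · intro h
      exact absurd (Finset.mem_univ k) h

theorem ext_gen {A N : Type u} [AddCommGroup A] [Module R A] [AddCommGroup N] [Module R N] {p : ℕ}
    {e : Fin p → A} (he : Submodule.span R (Set.range e) = ⊤) {g h : A →ₗ[R] N}
    (hgh : ∀ k, g (e k) = h (e k)) : g = h := by
  apply LinearMap.ext_on_range he
  exact hgh

/-! ### Direct limits -/

section dl

variable {ι : Type u} [Preorder ι] [IsDirectedOrder ι] [Nonempty ι] [DecidableEq ι]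
  {G : ι → Type u} [∀ i, AddCommGroup (G i)] [∀ i, Module R (G i)]
  {f : ∀ i j, i ≤ j → G i →ₗ[R] G j} [DirectedSystem G fun i j h => f i j h]

omit [DirectedSystem G fun i j h => f i j h] in
theorem exists_of_family {U : Type} [Finite U] (y : U → Module.DirectLimit G f) (i₀ : ι) :
    ∃ (i : ι) (_ : i₀ ≤ i) (b : U → G i), ∀ k, Module.DirectLimit.of R ι G f i (b k) = y k := by
  choose i b hb using fun k => Module.DirectLimit.exists_of (y k)
  obtain ⟨j, hj⟩ := Finite.exists_le i
  obtain ⟨l, hl0, hlj⟩ := exists_ge_ge i₀ j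
  refine ⟨l, hl0, fun k => f (i k) l ((hj k).trans hlj) (b k), ?_⟩
  intro k
  rw [Module.DirectLimit.of_f, hb]

theorem exists_zero_family {U : Type} [Finite U] {i : ι} (z : U → G i)
    (hz : ∀ k, Module.DirectLimit.of R ι G f i (z k) = 0) :
    ∃ (j : ι) (hij : i ≤ j), ∀ k, f i j hij (z k) = 0 := by
  choose j hj hz' using fun k => Module.DirectLimit.of.zero_exact (hz k)
  obtain ⟨l, hl⟩ := Finite.exists_le j
  obtain ⟨m, hml, hmi⟩ := exists_ge_ge l i
  refine ⟨m, hmi, fun k => ?_⟩
  have h1 : f (j k) m ((hl k).trans hml) (f i (j k) (hj k) (z k)) = f i m hmi (z k) :=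
    DirectedSystem.map_map (f := fun i j h => f i j h) _ _ _
  rw [← h1, hz' k, map_zero]

end dl

end Pool.Agent.R706.ML
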