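import Mathlib
import Pool.Agent.R706.MLBasic

/-!
# Stationarity of sequences with Mittag-Leffler limit
-/

set_option autoImplicit false

namespace Pool.Agent.R706.ML

universe u

variable {R : Type u} [Ring R]

section bond

variable {A : ℕ → Type u} [∀ n, AddCommGroup (A n)] [∀ n, Module R (A n)]
  (f : ∀ n, A n →ₗ[R] A (n + 1))

/-- composite of bonding maps -/
def bond (i j : ℕ) (h : i ≤ j) : A i →ₗ[R] A j :=
  Nat.leRecOn (C := fun j => A i →ₗ[R] A j) h (fun {k} g => f k ∘ₗ g) LinearMap.id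

theorem bond_self (i : ℕ) (x : A i) : bond f i i le_rfl x = x := by
  rw [bond, Nat.leRecOn_self]
  rfl

theorem bond_succ (i j : ℕ) (h : i ≤ j) (h' : i ≤ j + 1) (x : A i) :
    bond f i (j + 1) h' x = f j (bond f i j h x) := by
  rw [bond, Nat.leRecOn_succ h]
  rfl

theorem bond_trans (i j : ℕ) (h : i ≤ j) (k : ℕ) (h' : j ≤ k) (x : A i) :
    bond f j k h' (bond f i j h x) = bond f i k (h.trans h') x := by
  induction k, h' using Nat.le_induction with
  | base => rw [bond_self]
  | succ k hk ih => rw [bond_succ f j k hk, bond_succ f i k (h.trans hk), ih]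

end bond

/-- if all limits of `𝒜` are Mittag-Leffler then sequences in `𝒜` are stationary -/
theorem stationary (𝒜 : ModClass R)
    (hfp : ∀ (M : Type u) [AddCommGroup M] [Module R M], 𝒜 M → Module.FinitePresentation R M)
    (hML : ∀ (M : Type u) [AddCommGroup M] [Module R M], InLim 𝒜 M → MittagLeffler R M)
    (A : ℕ → Type u) [∀ n, AddCommGroup (A n)] [∀ n, Module R (A n)] (hA : ∀ n, 𝒜 (A n))
    (f : ∀ n, A n →ₗ[R] A (n + 1)) :
    ∃ (m : ℕ) (g : A (m + 1) →ₗ[R] A m), ∀ x : A 0,
      g (bond f 0 (m + 1) (Nat.zero_le _) x) = bond f 0 m (Nat.zero_le _) x := by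
  classical
  have hfp' : ∀ n, Module.FinitePresentation R (A n) := fun n => hfp _ (hA n)
  let G : ULift.{u} ℕ → Type u := fun i => A i.down
  let F : ∀ i j : ULift.{u} ℕ, i ≤ j → G i →ₗ[R] G j := fun i j h => bond f i.down j.down h
  have hdir : DirectedSystem G fun i j h => F i j h :=
    { map_self := fun {i} x => bond_self f i.down x
      map_map := fun {k j i} hij hjk x => bond_trans f _ _ _ _ _ x }
  let L := Module.DirectLimit G F
  have hL : MittagLeffler R L := hML L ⟨ULift.{u} ℕ, inferInstance, inferInstance, inferInstance,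
    inferInstance, G, inferInstance, inferInstance, F, hdir, fun i => hA i.down,
    ⟨LinearEquiv.refl _ _⟩⟩
  let of : ∀ i : ℕ, A i →ₗ[R] L := fun i => Module.DirectLimit.of R (ULift.{u} ℕ) G F ⟨i⟩
  have hof : ∀ (i j : ℕ) (h : i ≤ j) (x : A i), of j (bond f i j h x) = of i x := fun i j h x =>
    Module.DirectLimit.of_f (i := (⟨i⟩ : ULift.{u} ℕ)) (j := ⟨j⟩) (hij := h)
  obtain ⟨p, l, e, r, hr, he, _⟩ := exists_pres (R := R) (A 0)
  obtain ⟨φ, ⟨y, hy⟩, hφ⟩ := hL p (fun k => of 0 (e k))
  obtain ⟨⟨i⟩, _, b, hb⟩ := exists_of_family (f := F) y ⟨0⟩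
  have hb' : ∀ k, of i (b k) = y k := hb
  obtain ⟨⟨m⟩, him, hz⟩ := exists_zero_family (f := F) (i := ⟨i⟩)
    (fun e' : φ.E => (∑ k, φ.A e' k • bond f 0 i (Nat.zero_le _) (e k) + ∑ k, φ.B e' k • b k : A i))
    (fun e' => by
      show of i _ = 0
      rw [map_add, map_sum, map_sum]
      simp only [map_smul, hof, hb']
      exact hy e')
  have him' : i ≤ m := him
  have hz' : ∀ e', bond f i m him' (∑ k, φ.A e' k • bond f 0 i (Nat.zero_le _) (e k) +
      ∑ k, φ.B e' k • b k : A i) = 0 := hz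
  have hsat : φ.Sat (A m) (fun k => bond f 0 m (Nat.zero_le _) (e k)) := by
    refine ⟨fun k => bond f i m him' (b k), fun e' => ?_⟩
    rw [← hz' e', map_add, map_sum, map_sum]
    simp only [map_smul, bond_trans]
  obtain ⟨p', l', e', r', hr', he', hext⟩ := exists_pres (R := R) (A (m + 1))
  have hc : ∀ k : Fin p, ∃ c : Fin p' → R, ∑ k', c k' • e' k' =
      bond f 0 (m + 1) (Nat.zero_le _) (e k) := by
    intro k
    apply (Submodule.mem_span_range_iff_exists_fun R).1
    rw [he']
    trivial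
  choose c hc using hc
  let ψ : PPFormula R p :=
    { E := Fin l' ⊕ Fin p
      U := Fin p'
      A := Sum.elim (fun _ _ => 0) (fun i k => if k = i then -1 else 0)
      B := Sum.elim r' c }
  have hψ : ∀ (N : Type u) [AddCommGroup N] [Module R N] (z : Fin p → N) (y : Fin p' → N),
      (∀ j, ∑ k, r' j k • y k = 0) → (∀ i, ∑ k, c i k • y k = z i) →
      ∀ e, ∑ i, ψ.A e i • z i + ∑ k, ψ.B e k • y k = 0 := by
    rintro N _ _ z y h1 h2 (j | i)
    · show ∑ i, (0 : R) • z i + ∑ k, r' j k • y k = 0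
      rw [h1, add_zero]
      exact Finset.sum_eq_zero fun i _ => zero_smul _ _
    · show ∑ i', (if i' = i then (-1 : R) else 0) • z i' + ∑ k, c i k • y k = 0
      rw [h2]
      simp
  have hψL : ψ.Sat L (fun k => of 0 (e k)) := by
    refine ⟨fun k => of (m + 1) (e' k), hψ L _ _ ?_ ?_⟩
    · intro j
      have := congrArg (of (m + 1)) (hr' j)
      rw [map_sum, map_zero] at this
      rw [← this]
      exact Finset.sum_congr rfl fun k _ => (map_smul _ _ _).symm
    · intro i
      have := congrArg (of (m + 1)) (hc i)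
      rw [map_sum, hof] at this
      rw [← this]
      exact Finset.sum_congr rfl fun k _ => (map_smul _ _ _).symm
  obtain ⟨w, hw⟩ := hφ ψ hψL (A m) _ hsat
  obtain ⟨g, hg⟩ := hext (A m) w (fun j => by
    have : ∑ i, (0 : R) • bond f 0 m (Nat.zero_le _) (e i) + ∑ k, r' j k • w k = 0 :=
      hw (Sum.inl j)
    rw [Finset.sum_eq_zero (fun i _ => zero_smul _ _), zero_add] at this
    exact this)
  refine ⟨m, g, fun x => ?_⟩
  have hgen : g ∘ₗ bond f 0 (m + 1) (Nat.zero_le _) = bond f 0 m (Nat.zero_le _) := by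
    apply ext_gen he
    intro i
    show g (bond f 0 (m + 1) (Nat.zero_le _) (e i)) = _
    rw [← hc, map_sum]
    have h1 : ∑ i', (if i' = i then (-1 : R) else 0) • bond f 0 m (Nat.zero_le _) (e i') +
        ∑ k, c i k • w k = 0 := hw (Sum.inr i)
    have h2 : ∑ k, g (c i k • e' k) = ∑ k, c i k • w k :=
      Finset.sum_congr rfl fun k _ => by rw [map_smul, hg]
    rw [h2]
    simp only [ite_smul, neg_smul, one_smul, zero_smul, Finset.sum_ite_eq', Finset.mem_univ,
      if_true] at h1
    exact (neg_add_eq_zero.1 h1).symm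
  exact LinearMap.congr_fun hgen x

end Pool.Agent.R706.ML
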