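import Mathlib
import Pool.Agent.R706.MLSeq

/-!
# Decomposition of modules in `lim 𝒜`
-/

set_option autoImplicit false

namespace Pool.Agent.R706.ML

universe u

variable {R : Type u} [Ring R]

/-- pure submodules, by systems of linear equations -/
def IsPure {M : Type u} [AddCommGroup M] [Module R M] (N : Submodule R M) : Prop :=
  ∀ (p l : ℕ) (B : Fin l → Fin p → R) (y : Fin p → M), (∀ j, ∑ k, B j k • y k ∈ N) →
    ∃ z : Fin p → M, (∀ k, z k ∈ N) ∧ ∀ j, ∑ k, B j k • z k = ∑ k, B j k • y k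

theorem IsPure.lift {M₁ M : Type u} [AddCommGroup M₁] [Module R M₁] [AddCommGroup M] [Module R M]
    {q : M₁ →ₗ[R] M} (hq : Function.Surjective q) (hp : IsPure (LinearMap.ker q))
    {A : Type u} [AddCommGroup A] [Module R A] [Module.FinitePresentation R A] (h : A →ₗ[R] M) :
    ∃ t : A →ₗ[R] M₁, q ∘ₗ t = h := by
  obtain ⟨p, l, e, r, hr, he, hext⟩ := exists_pres (R := R) A
  choose y hy using fun k => hq (h (e k))
  obtain ⟨z, hz, hz'⟩ := hp p l r y (fun j => by
    rw [LinearMap.mem_ker, map_sum]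
    have := congrArg h (hr j)
    rw [map_sum, map_zero] at this
    rw [← this]
    exact Finset.sum_congr rfl fun k _ => by rw [map_smul, map_smul, hy])
  obtain ⟨t, ht⟩ := hext M₁ (fun k => y k - z k) (fun j => by
    simp only [smul_sub, Finset.sum_sub_distrib]
    rw [hz', sub_self])
  refine ⟨t, ext_gen he fun k => ?_⟩
  show q (t (e k)) = h (e k)
  rw [ht, map_sub, hy, LinearMap.mem_ker.1 (hz k), sub_zero]

/-- every map from a finitely presented module factors through `𝒜` -/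
def Fac (𝒜 : ModClass R) (M : Type u) [AddCommGroup M] [Module R M] : Prop :=
  ∀ (F : Type u) [AddCommGroup F] [Module R F] [Module.FinitePresentation R F] (h : F →ₗ[R] M),
    ∃ (A : Type u) (_ : AddCommGroup A) (_ : Module R A) (a : F →ₗ[R] A) (b : A →ₗ[R] M),
      𝒜 A ∧ b ∘ₗ a = h

theorem Fac.of_surjective {𝒜 : ModClass R} {M₁ M : Type u} [AddCommGroup M₁] [Module R M₁]
    [AddCommGroup M] [Module R M] {q : M₁ →ₗ[R] M} (hq : Function.Surjective q)
    (hp : IsPure (LinearMap.ker q)) (h : Fac 𝒜 M₁) : Fac 𝒜 M := by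
  intro F _ _ _ g
  obtain ⟨t, ht⟩ := hp.lift hq g
  obtain ⟨A, iA, mA, a, b, hA, hab⟩ := h F t
  exact ⟨A, iA, mA, a, q ∘ₗ b, hA, by rw [LinearMap.comp_assoc, hab, ht]⟩

theorem fac_of_inLim {𝒜 : ModClass R} {M : Type u} [AddCommGroup M] [Module R M]
    (h : InLim 𝒜 M) : Fac 𝒜 M := by
  obtain ⟨ι, i1, i2, i3, i4, G, i5, i6, f, i7, hG, ⟨φ⟩⟩ := h
  intro F _ _ _ h
  obtain ⟨p, l, e, r, hr, he, hext⟩ := exists_pres (R := R) F
  obtain ⟨i, _, b, hb⟩ := exists_of_family (f := f) (fun k => φ (h (e k)))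
    (Classical.arbitrary ι)
  obtain ⟨j, hij, hz⟩ := exists_zero_family (f := f) (fun j => ∑ k, r j k • b k) (fun j => by
    rw [map_sum]
    have := congrArg (fun x => φ (h x)) (hr j)
    simp only [map_sum, map_zero, map_smul] at this
    rw [← this]
    exact Finset.sum_congr rfl fun k _ => by rw [map_smul, hb])
  obtain ⟨a, ha⟩ := hext (G j) (fun k => f i j hij (b k)) (fun j' => by
    rw [← hz j', map_sum]
    exact Finset.sum_congr rfl fun k _ => (map_smul _ _ _).symm)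
  refine ⟨G j, inferInstance, inferInstance, a,
    φ.symm.toLinearMap ∘ₗ Module.DirectLimit.of R ι G f j, hG j, ?_⟩
  apply ext_gen he
  intro k
  show φ.symm (Module.DirectLimit.of R ι G f j (a (e k))) = h (e k)
  rw [ha, Module.DirectLimit.of_f, hb, LinearEquiv.symm_apply_apply]

/-- objects of `𝒜` over `M` -/
structure Obj (𝒜 : ModClass R) (M : Type u) [AddCommGroup M] [Module R M] where
  A : Type u
  [iA : AddCommGroup A]
  [mA : Module R A]
  mem : 𝒜 A
  h : A →ₗ[R] M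

attribute [instance] Obj.iA Obj.mA

variable {𝒜 : ModClass R}

/-- auxiliary structure: factorisations -/
structure St {M : Type u} [AddCommGroup M] [Module R M] (X : Obj 𝒜 M) where
  Y : Obj 𝒜 M
  f : X.A →ₗ[R] Y.A
  hf : Y.h ∘ₗ f = X.h

theorem exists_dom
    (hfp : ∀ (M : Type u) [AddCommGroup M] [Module R M], 𝒜 M → Module.FinitePresentation R M)
    (hML : ∀ (M : Type u) [AddCommGroup M] [Module R M], InLim 𝒜 M → MittagLeffler R M)
    {M : Type u} [AddCommGroup M] [Module R M] (X : Obj 𝒜 M) :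
    ∃ (Y : Obj 𝒜 M) (f : X.A →ₗ[R] Y.A), Y.h ∘ₗ f = X.h ∧
      ∀ (Z : Obj 𝒜 M) (f' : Y.A →ₗ[R] Z.A), Z.h ∘ₗ f' = Y.h →
        ∃ g : Z.A →ₗ[R] Y.A, ∀ x, g (f' (f x)) = f x := by
  by_contra hcon
  push Not at hcon
  have hnext : ∀ s : St X, ∃ (t : St X) (f' : s.Y.A →ₗ[R] t.Y.A), (∀ x, t.f x = f' (s.f x)) ∧
      ∀ g : t.Y.A →ₗ[R] s.Y.A, ∃ x, g (t.f x) ≠ s.f x := by
    intro s
    obtain ⟨Z, f', hf', hg⟩ := hcon s.Y s.f s.hf
    exact ⟨⟨Z, f' ∘ₗ s.f, by rw [← LinearMap.comp_assoc, hf', s.hf]⟩, f', fun x => rfl, hg⟩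
  choose nxt bd h1 h2 using hnext
  let seq : ℕ → St X := fun n => Nat.rec ⟨X, LinearMap.id, LinearMap.comp_id _⟩
    (fun _ s => nxt s) n
  let A : ℕ → Type u := fun n => (seq n).Y.A
  let f : ∀ n, A n →ₗ[R] A (n + 1) := fun n => bd (seq n)
  have hbond : ∀ n (x : X.A), bond f 0 n (Nat.zero_le _) x = (seq n).f x := by
    intro n
    induction n with
    | zero =>
      intro x
      exact bond_self f 0 x
    | succ n ih =>
      intro x
      rw [bond_succ f 0 n (Nat.zero_le _), ih]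
      exact (h1 (seq n) x).symm
  obtain ⟨m, g, hg⟩ := stationary 𝒜 hfp hML A (fun n => (seq n).Y.mem) f
  obtain ⟨x, hx⟩ := h2 (seq m) g
  apply hx
  have h3 := hg x
  rw [hbond, hbond] at h3
  exact h3

section main

variable (hfp : ∀ (M : Type u) [AddCommGroup M] [Module R M], 𝒜 M → Module.FinitePresentation R M)
  {M : Type u} [AddCommGroup M] [Module R M]

/-- domination -/
def Dom {X Y : Obj 𝒜 M} (f : X.A →ₗ[R] Y.A) : Prop :=
  ∀ (Z : Obj 𝒜 M) (f' : Y.A →ₗ[R] Z.A), Z.h ∘ₗ f' = Y.h → ∃ g : Z.A →ₗ[R] Y.A, ∀ x,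
    g (f' (f x)) = f x

include hfp in
theorem Dom.solve (hM : Fac 𝒜 M) {X Y : Obj 𝒜 M} {f : X.A →ₗ[R] Y.A} (hf : Y.h ∘ₗ f = X.h)
    (hd : Dom f) {p l : ℕ} (B : Fin l → Fin p → R) (a : Fin l → X.A) (y : Fin p → M)
    (hy : ∀ j, ∑ k, B j k • y k = X.h (a j)) :
    ∃ z : Fin p → Y.A, ∀ j, ∑ k, B j k • z k = f (a j) := by
  classical
  have hYfp : Module.FinitePresentation R Y.A := hfp _ Y.mem
  let K : Submodule R (Y.A × (Fin p → R)) :=
    Submodule.span R (Set.range fun j => ((f (a j), -(B j)) : Y.A × (Fin p → R)))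
  have hKfg : (LinearMap.ker K.mkQ).FG := by
    rw [Submodule.ker_mkQ]
    exact Submodule.fg_span (Set.finite_range _)
  have hF : Module.FinitePresentation R ((Y.A × (Fin p → R)) ⧸ K) :=
    Module.finitePresentation_of_surjective K.mkQ K.mkQ_surjective hKfg
  let T : (Y.A × (Fin p → R)) →ₗ[R] M := Y.h.coprod (Fintype.linearCombination R y)
  have hT : ∀ b v, T (b, v) = Y.h b + ∑ k, v k • y k := fun b v => rfl
  have hKT : K ≤ LinearMap.ker T := by
    rw [Submodule.span_le]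
    rintro _ ⟨j, rfl⟩
    show T (f (a j), -(B j)) = 0
    have h1 : Y.h (f (a j)) = X.h (a j) := LinearMap.congr_fun hf _
    rw [hT, h1, ← hy]
    simp only [Pi.neg_apply, neg_smul, Finset.sum_neg_distrib]
    exact add_neg_cancel _
  obtain ⟨C, iC, mC, α, β, hC, hαβ⟩ := hM _ (K.liftQ T hKT)
  let f' : Y.A →ₗ[R] C := α ∘ₗ K.mkQ ∘ₗ LinearMap.inl R Y.A (Fin p → R)
  have hf' : β ∘ₗ f' = Y.h := by
    ext b
    have h1 := LinearMap.congr_fun hαβ (K.mkQ (b, 0))
    show β (α (K.mkQ (b, 0))) = Y.h b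
    rw [LinearMap.comp_apply] at h1
    rw [h1]
    show T (b, 0) = Y.h b
    rw [hT]
    simp
  obtain ⟨g, hg⟩ := hd ⟨C, hC, β⟩ f' hf'
  let γ : (Fin p → R) →ₗ[R] Y.A := g ∘ₗ α ∘ₗ K.mkQ ∘ₗ LinearMap.inr R Y.A (Fin p → R)
  refine ⟨fun k => γ (Pi.single k 1), fun j => ?_⟩
  have h1 : ∑ k, B j k • γ (Pi.single k 1) = γ (B j) := by
    conv_rhs => rw [pi_eq_sum_univ' (B j), map_sum]
    exact Finset.sum_congr rfl fun k _ => (map_smul _ _ _).symm
  rw [h1, ← hg (a j)]
  show g (α (K.mkQ (0, B j))) = g (α (K.mkQ (f (a j), 0)))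
  congr 2
  symm
  rw [← sub_eq_zero, ← map_sub]
  show K.mkQ ((f (a j), 0) - (0, B j)) = 0
  rw [Submodule.mkQ_apply, Submodule.Quotient.mk_eq_zero]
  apply Submodule.subset_span
  refine ⟨j, ?_⟩
  show (f (a j), -(B j)) = (f (a j) - 0, 0 - B j)
  rw [sub_zero, zero_sub]

include hfp in
theorem Dom.zero (hM : Fac 𝒜 M) {X Y : Obj 𝒜 M} {f : X.A →ₗ[R] Y.A} (hf : Y.h ∘ₗ f = X.h)
    (hd : Dom f) {a : X.A} (ha : X.h a = 0) : f a = 0 := by
  obtain ⟨z, hz⟩ := hd.solve hfp hM hf (p := 0) (l := 1) (fun _ k => k.elim0) (fun _ => a)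
    (fun k => k.elim0) (fun _ => by rw [ha]; exact Finset.sum_empty)
  have := hz 0
  rw [← this]
  exact Finset.sum_empty

include hfp in
theorem exists_seq
    (hML : ∀ (M : Type u) [AddCommGroup M] [Module R M], InLim 𝒜 M → MittagLeffler R M)
    (X₀ : Obj 𝒜 M) (a₀ : X₀.A) :
    ∃ (seq : ℕ → Obj 𝒜 M) (F : ∀ n, (seq n).A →ₗ[R] (seq (n + 1)).A),
      (∃ x₀ : (seq 0).A, (seq 0).h x₀ = X₀.h a₀) ∧
      (∀ n, (seq (n + 1)).h ∘ₗ F n = (seq n).h) ∧ ∀ n, Dom (F n) := by
  choose nx f hf hd using fun X : Obj 𝒜 M => exists_dom hfp hML X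
  let sq : ℕ → Obj 𝒜 M := fun n => Nat.rec X₀ (fun _ X => nx X) n
  exact ⟨sq, fun n => f (sq n), ⟨a₀, rfl⟩, fun n => hf (sq n), fun n => hd (sq n)⟩

/-- countably generated submodules -/
def CG (N : Submodule R M) : Prop := ∃ s : Set M, s.Countable ∧ Submodule.span R s = N

include hfp in
theorem extend
    (hML : ∀ (M : Type u) [AddCommGroup M] [Module R M], InLim 𝒜 M → MittagLeffler R M)
    (hM : Fac 𝒜 M) {N : Submodule R M} (hN : IsPure N) (hne : N ≠ ⊤) :
    ∃ N' : Submodule R M, N' ≠ ⊥ ∧ Disjoint N N' ∧ CG N' ∧ IsPure (N ⊔ N') := by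
  classical
  have hqs : Function.Surjective N.mkQ := N.mkQ_surjective
  have hqp : IsPure (LinearMap.ker N.mkQ) := by rwa [Submodule.ker_mkQ]
  have hMN : Fac 𝒜 (M ⧸ N) := hM.of_surjective hqs hqp
  obtain ⟨x, hx⟩ : ∃ x, x ∉ N := by
    by_contra h
    push Not at h
    exact hne (eq_top_iff.2 fun x _ => h x)
  obtain ⟨A₀, iA₀, mA₀, α, β, hA₀, hαβ⟩ := hMN R (LinearMap.toSpanSingleton R _ (N.mkQ x))
  have hβα : β (α 1) = N.mkQ x := by
    have h1 := LinearMap.congr_fun hαβ 1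
    rw [LinearMap.comp_apply, LinearMap.toSpanSingleton_apply, one_smul] at h1
    exact h1
  obtain ⟨seq, F, ⟨x₀, hx₀⟩, hF, hD⟩ := exists_seq hfp hML ⟨A₀, hA₀, β⟩ (α 1)
  have hx₀' : (seq 0).h x₀ = N.mkQ x := hx₀.trans hβα
  have hfpn : ∀ n, Module.FinitePresentation R (seq n).A := fun n => hfp _ (seq n).mem
  -- lifts
  have step : ∀ (n : ℕ) (t : {t : (seq (n + 1)).A →ₗ[R] M // N.mkQ ∘ₗ t = (seq (n + 1)).h}),
      ∃ t' : {t : (seq (n + 2)).A →ₗ[R] M // N.mkQ ∘ₗ t = (seq (n + 2)).h},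
        ∀ x, t'.1 (F (n + 1) (F n x)) = t.1 (F n x) := by
    rintro n ⟨t, ht⟩
    obtain ⟨t₀, ht₀⟩ := hqp.lift hqs (seq (n + 2)).h
    obtain ⟨g, hg⟩ := hD n (seq (n + 2)) (F (n + 1)) (hF (n + 1))
    refine ⟨⟨t₀ + (t - t₀ ∘ₗ F (n + 1)) ∘ₗ g, ?_⟩, ?_⟩
    · ext a
      have h1 : ∀ b, N.mkQ (t b) = (seq (n + 1)).h b := fun b => LinearMap.congr_fun ht b
      have h2 : ∀ b, N.mkQ (t₀ b) = (seq (n + 2)).h b := fun b => LinearMap.congr_fun ht₀ b
      have h3 : ∀ b, (seq (n + 2)).h (F (n + 1) b) = (seq (n + 1)).h b := fun b =>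
        LinearMap.congr_fun (hF (n + 1)) b
      show N.mkQ (t₀ a + (t (g a) - t₀ (F (n + 1) (g a)))) = (seq (n + 2)).h a
      rw [map_add, map_sub, h1, h2, h2, h3, sub_self, add_zero]
    · intro x
      show t₀ (F (n + 1) (F n x)) + (t (g (F (n + 1) (F n x))) -
        t₀ (F (n + 1) (g (F (n + 1) (F n x))))) = t (F n x)
      rw [hg]
      abel
  choose nt hnt using step
  obtain ⟨t₀, ht₀⟩ := hqp.lift hqs (seq 1).h
  let t : ∀ n, {t : (seq (n + 1)).A →ₗ[R] M // N.mkQ ∘ₗ t = (seq (n + 1)).h} :=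
    fun n => Nat.rec ⟨t₀, ht₀⟩ (fun n s => nt n s) n
  have ht : ∀ n x, (t (n + 1)).1 (F (n + 1) (F n x)) = (t n).1 (F n x) := fun n x => hnt n (t n) x
  let s : ∀ n, (seq n).A →ₗ[R] M := fun n => (t n).1 ∘ₗ F n
  have hs : ∀ n x, s (n + 1) (F n x) = s n x := fun n x => ht n x
  have hqsn : ∀ n x, N.mkQ (s n x) = (seq n).h x := by
    intro n x
    have h1 := LinearMap.congr_fun (t n).2 (F n x)
    have h2 := LinearMap.congr_fun (hF n) x
    exact h1.trans h2
  have hmono : Monotone fun n => LinearMap.range (s n) := by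
    apply monotone_nat_of_le_succ
    rintro n _ ⟨x, rfl⟩
    exact ⟨F n x, hs n x⟩
  let N' : Submodule R M := ⨆ n, LinearMap.range (s n)
  have hmem : ∀ y, y ∈ N' ↔ ∃ n a, s n a = y := by
    intro y
    rw [Submodule.mem_iSup_of_directed _ hmono.directed_le]
    rfl
  refine ⟨N', ?_, ?_, ?_, ?_⟩
  · intro h
    have h1 : s 0 x₀ ∈ N' := (hmem _).2 ⟨0, _, rfl⟩
    rw [h, Submodule.mem_bot] at h1
    have h2 := hqsn 0 x₀
    rw [h1, map_zero, hx₀'] at h2
    apply hx
    rw [← Submodule.Quotient.mk_eq_zero N, ← Submodule.mkQ_apply]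
    exact h2.symm
  · rw [disjoint_iff, eq_bot_iff]
    rintro y ⟨hyN, hyN'⟩
    obtain ⟨n, a, rfl⟩ := (hmem y).1 hyN'
    have h1 : (seq n).h a = 0 := by
      rw [← hqsn, Submodule.mkQ_apply, Submodule.Quotient.mk_eq_zero]
      exact hyN
    rw [Submodule.mem_bot, ← hs, (hD n).zero hfp hMN (hF n) h1, map_zero]
  · have hgen : ∀ n, ∃ T : Set M, T.Countable ∧ Submodule.span R T = LinearMap.range (s n) := by
      intro n
      obtain ⟨p, e, he⟩ := Module.Finite.exists_fin (R := R) (M := (seq n).A)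
      refine ⟨s n '' Set.range e, ((Set.finite_range e).image _).countable, ?_⟩
      rw [← Submodule.map_span, he, Submodule.map_top]
    choose T hT1 hT2 using hgen
    refine ⟨⋃ n, T n, Set.countable_iUnion hT1, ?_⟩
    rw [Submodule.span_iUnion]
    exact iSup_congr hT2
  · intro p l B y hy
    have h1 : ∀ j, ∃ n ∈ N, ∃ w ∈ N', n + w = ∑ k, B j k • y k := fun j =>
      Submodule.mem_sup.1 (hy j)
    choose n hn w hw hnw using h1
    choose i a ha using fun j => (hmem _).1 (hw j)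
    obtain ⟨I, hI⟩ := Finite.exists_le i
    have h2 : ∀ j, ∃ b : (seq I).A, s I b = w j := by
      intro j
      have h3 : w j ∈ LinearMap.range (s (i j)) := ⟨a j, ha j⟩
      exact hmono (hI j) h3
    choose b hb using h2
    obtain ⟨z, hz⟩ := (hD I).solve hfp hMN (hF I) B b (fun k => N.mkQ (y k)) (fun j => by
      rw [← hqsn, hb]
      have h3 : ∑ k, B j k • N.mkQ (y k) = N.mkQ (∑ k, B j k • y k) := by
        rw [map_sum]
        exact Finset.sum_congr rfl fun k _ => (map_smul _ _ _).symm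
      rw [h3, ← hnw, map_add]
      have h4 : N.mkQ (n j) = 0 := by
        rw [Submodule.mkQ_apply, Submodule.Quotient.mk_eq_zero]
        exact hn j
      rw [h4, zero_add])
    have hu : ∀ j, ∑ k, B j k • s (I + 1) (z k) = w j := by
      intro j
      have h3 := congrArg (s (I + 1)) (hz j)
      rw [map_sum, hs, hb] at h3
      rw [← h3]
      exact Finset.sum_congr rfl fun k _ => (map_smul _ _ _).symm
    obtain ⟨v, hv, hv'⟩ := hN p l B (fun k => y k - s (I + 1) (z k)) (fun j => by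
      simp only [smul_sub, Finset.sum_sub_distrib]
      rw [hu, ← hnw, add_sub_cancel_right]
      exact hn j)
    refine ⟨fun k => v k + s (I + 1) (z k), fun k => ?_, fun j => ?_⟩
    · exact Submodule.add_mem_sup (hv k) ((hmem _).2 ⟨_, _, rfl⟩)
    · simp only [smul_add, Finset.sum_add_distrib]
      rw [hv', hu]
      simp only [smul_sub, Finset.sum_sub_distrib]
      rw [hu, sub_add_cancel]

include hfp in
/-- modules in `lim 𝒜` are direct sums of countably generated modules -/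
theorem decompose
    (hML : ∀ (M : Type u) [AddCommGroup M] [Module R M], InLim 𝒜 M → MittagLeffler R M)
    (hM : Fac 𝒜 M) : ∃ T : Set (Submodule R M), (∀ N ∈ T, CG N) ∧ sSupIndep T ∧ sSup T = ⊤ := by
  classical
  let 𝒵 : Set (Set (Submodule R M)) :=
    {T | (∀ N ∈ T, CG N) ∧ sSupIndep T ∧ IsPure (sSup T)}
  obtain ⟨T, hT⟩ := zorn_subset 𝒵 (by
    intro c hc hchain
    refine ⟨⋃₀ c, ⟨?_, ?_, ?_⟩, fun s hs => Set.subset_sUnion_of_mem hs⟩
    · rintro N ⟨T, hT, hN⟩
      exact (hc hT).1 N hN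
    · exact iSupIndep_sUnion_of_directed hchain.directedOn
        fun T hT => (hc hT).2.1
    · rcases c.eq_empty_or_nonempty with rfl | hcne
      · rw [Set.sUnion_empty, sSup_empty]
        intro p l B y hy
        refine ⟨fun _ => 0, fun _ => Submodule.zero_mem _, fun j => ?_⟩
        rw [(Submodule.mem_bot R).1 (hy j)]
        exact Finset.sum_eq_zero fun k _ => smul_zero _
      · have hdir : DirectedOn (· ≤ ·) (sSup '' c) := by
          rintro _ ⟨T₁, h1, rfl⟩ _ ⟨T₂, h2, rfl⟩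
          rcases hchain.total h1 h2 with h | h
          · exact ⟨_, ⟨T₂, h2, rfl⟩, sSup_le_sSup h, le_rfl⟩
          · exact ⟨_, ⟨T₁, h1, rfl⟩, le_rfl, sSup_le_sSup h⟩
        have heq : sSup (⋃₀ c) = sSup (sSup '' c) := by
          rw [sSup_sUnion, sSup_image]
        rw [heq]
        have hmem : ∀ y, y ∈ sSup (sSup '' c) ↔ ∃ T ∈ c, y ∈ sSup T := by
          intro y
          rw [Submodule.mem_sSup_of_directed (hcne.image _) hdir]
          simp
        intro p l B y hy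
        choose S hS hyS using fun j => (hmem _).1 (hy j)
        obtain ⟨T, hT, hle⟩ : ∃ T ∈ c, ∀ j, S j ⊆ T := by
          have hdc : DirectedOn (· ⊆ ·) c := hchain.directedOn
          obtain ⟨T₀, hT₀⟩ := hcne
          have : ∀ (m : ℕ) (S : Fin m → Set (Submodule R M)), (∀ j, S j ∈ c) →
              ∃ T ∈ c, ∀ j, S j ⊆ T := by
            intro m
            induction m with
            | zero => intro S _; exact ⟨T₀, hT₀, fun j => j.elim0⟩
            | succ m ih =>
              intro S hS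
              obtain ⟨T, hT, hle⟩ := ih (fun j => S j.castSucc) (fun j => hS _)
              obtain ⟨T', hT', h1, h2⟩ := hdc T hT (S (Fin.last m)) (hS _)
              refine ⟨T', hT', fun j => ?_⟩
              refine Fin.lastCases ?_ (fun j => ?_) j
              · exact h2
              · exact (hle j).trans h1
          exact this _ S hS
        obtain ⟨z, hz, hz'⟩ := (hc hT).2.2 p l B y (fun j =>
          (sSup_le_sSup (hle j) : sSup (S j) ≤ sSup T) (hyS j))
        exact ⟨z, fun k => (hmem _).2 ⟨T, hT, hz k⟩, hz'⟩)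
  refine ⟨T, hT.prop.1, hT.prop.2.1, ?_⟩
  by_contra hne
  obtain ⟨N', hN'0, hdisj, hcg, hpure⟩ := extend hfp hML hM hT.prop.2.2 hne
  have hnotin : N' ∉ T := by
    intro h
    apply hN'0
    have h1 : N' ≤ sSup T := le_sSup h
    exact (disjoint_self.1 (hdisj.mono_left h1))
  have hmem : insert N' T ∈ 𝒵 := by
    refine ⟨?_, ?_, ?_⟩
    · rintro N (rfl | hN)
      · exact hcg
      · exact hT.prop.1 N hN
    · rintro a (rfl | ha)
      · have h1 : sSup (insert a T \ {a}) ≤ sSup T := by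
          apply sSup_le_sSup
          rintro b ⟨hb | hb, hba⟩
          · exact absurd hb hba
          · exact hb
        exact hdisj.symm.mono_right h1
      · have hne' : a ≠ N' := fun h => hnotin (h ▸ ha)
        have h1 : insert N' T \ {a} = insert N' (T \ {a}) := by
          ext b
          simp only [Set.mem_sdiff, Set.mem_insert_iff, Set.mem_singleton_iff]
          constructor
          · rintro ⟨hb | hb, hba⟩
            · exact Or.inl hb
            · exact Or.inr ⟨hb, hba⟩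
          · rintro (hb | ⟨hb, hba⟩)
            · exact ⟨Or.inl hb, hb ▸ hne'.symm⟩
            · exact ⟨Or.inr hb, hba⟩
        rw [h1, sSup_insert, sup_comm]
        apply Disjoint.disjoint_sup_right_of_disjoint_sup_left (hT.prop.2.1 ha)
        apply hdisj.mono_left
        apply sup_le (le_sSup ha)
        exact sSup_le_sSup Set.sdiff_subset
    · rw [sSup_insert, sup_comm]
      exact hpure
  have h1 := hT.eq_of_subset hmem (Set.subset_insert _ _)
  exact hnotin (h1 ▸ Set.mem_insert _ _)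

end main

end Pool.Agent.R706.ML
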