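import Mathlib

/-!
# Ore extensions

`IsOreExtension σ δ ι x` says that the ring `A` (with `ι : R →+* A` and `x : A`) is the Ore
extension `R[x; σ, δ]`: every element of `A` is uniquely a polynomial `∑ r_i x^i` with left
coefficients, and `x r = σ(r) x + δ(r)`.  We also prove that Ore extensions exist.
-/

namespace Pool.Agent.R706

universe u v

/-- `A`, with the ring homomorphism `ι : R → A` and the element `x`, is the Ore extension
`R[x; σ, δ]`: `x r = σ(r) x + δ(r)` for `r ∈ R`, and every element of `A` can be written in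
exactly one way as a polynomial `∑ r_i x^i` with coefficients `r_i ∈ R` on the left. -/
structure IsOreExtension {R : Type u} {A : Type v} [Ring R] [Ring A] (σ : R →+* R) (δ : R →+ R)
    (ι : R →+* A) (x : A) : Prop where
  /-- the commutation rule -/
  comm : ∀ r : R, x * ι r = ι (σ r) * x + ι (δ r)
  /-- unique representation of elements as polynomials with left coefficients -/
  bij : Function.Bijective fun f : ℕ →₀ R => f.sum fun i r => ι r * x ^ i

namespace OreConstruction

variable {R : Type u} [Ring R] (σ : R →+* R) (δ : R →+ R)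

/-- left multiplication by elements of `R` on polynomials -/
noncomputable def L : R →+* AddMonoid.End (ℕ →₀ R) := Module.toAddMonoidEnd R (ℕ →₀ R)

theorem L_apply (r : R) (f : ℕ →₀ R) : L r f = r • f := rfl

/-- left multiplication by `x` on polynomials -/
noncomputable def X : AddMonoid.End (ℕ →₀ R) :=
  Finsupp.liftAddHom fun i =>
    (Finsupp.singleAddHom (i + 1)).comp σ.toAddMonoidHom + (Finsupp.singleAddHom i).comp δ

theorem X_single (i : ℕ) (r : R) :
    X σ δ (Finsupp.single i r) = Finsupp.single (i + 1) (σ r) + Finsupp.single i (δ r) := by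
  show Finsupp.liftAddHom _ _ = _
  simp

theorem X_mul_L (hδ : ∀ r s, δ (r * s) = δ r * s + σ r * δ s) (r : R) :
    X σ δ * L r = L (σ r) * X σ δ + L (δ r) := by
  apply Finsupp.addHom_ext
  intro i s
  show X σ δ (L r (Finsupp.single i s)) =
    L (σ r) (X σ δ (Finsupp.single i s)) + L (δ r) (Finsupp.single i s)
  rw [L_apply, L_apply, L_apply, Finsupp.smul_single, X_single, X_single, smul_add,
    Finsupp.smul_single, Finsupp.smul_single, Finsupp.smul_single, smul_eq_mul, smul_eq_mul,
    smul_eq_mul, smul_eq_mul, hδ, map_mul, Finsupp.single_add]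
  abel

theorem X_pow_one (hδ : ∀ r s, δ (r * s) = δ r * s + σ r * δ s) (i : ℕ) :
    (X σ δ ^ i) (Finsupp.single 0 1) = Finsupp.single i 1 := by
  have h1 : δ 1 = 0 := by
    have := hδ 1 1
    simpa using this
  induction i with
  | zero => rfl
  | succ i ih =>
    rw [pow_succ']
    show X σ δ ((X σ δ ^ i) (Finsupp.single 0 1)) = _
    rw [ih, X_single, h1, map_one]
    simp

/-- the additive map sending a polynomial to the corresponding endomorphism -/
noncomputable def Phi : (ℕ →₀ R) →+ AddMonoid.End (ℕ →₀ R) :=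
  Finsupp.liftAddHom fun i => (AddMonoidHom.mulRight (X σ δ ^ i)).comp (L (R := R)).toAddMonoidHom

theorem Phi_single (i : ℕ) (r : R) : Phi σ δ (Finsupp.single i r) = L r * X σ δ ^ i := by
  show Finsupp.liftAddHom _ _ = _
  simp

theorem Phi_apply (f : ℕ →₀ R) : Phi σ δ f = f.sum fun i r => L r * X σ δ ^ i := rfl

theorem Phi_one (hδ : ∀ r s, δ (r * s) = δ r * s + σ r * δ s) (f : ℕ →₀ R) :
    Phi σ δ f (Finsupp.single 0 1) = f := by
  induction f using Finsupp.induction_linear with
  | zero => rw [map_zero]; rfl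
  | add f g hf hg => rw [map_add]; exact congrArg₂ (· + ·) hf hg
  | single i r =>
    rw [Phi_single]
    show L r ((X σ δ ^ i) (Finsupp.single 0 1)) = _
    rw [X_pow_one σ δ hδ, L_apply]
    simp

/-- the Ore extension as a subring of the endomorphism ring -/
noncomputable def ring : Subring (AddMonoid.End (ℕ →₀ R)) :=
  Subring.closure (Set.range (L (R := R)) ∪ {X σ δ})

theorem L_mem (r : R) : L r ∈ ring σ δ := Subring.subset_closure (Or.inl ⟨r, rfl⟩)

theorem X_mem : X σ δ ∈ ring σ δ := Subring.subset_closure (Or.inr rfl)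

theorem ring_le (hδ : ∀ r s, δ (r * s) = δ r * s + σ r * δ s) (a : AddMonoid.End (ℕ →₀ R))
    (ha : a ∈ ring σ δ) : ∀ s ∈ (Phi σ δ).range, a * s ∈ (Phi σ δ).range := by
  induction ha using Subring.closure_induction with
  | mem a ha =>
    rintro _ ⟨f, rfl⟩
    induction f using Finsupp.induction_linear with
    | zero => rw [map_zero, mul_zero]; exact zero_mem _
    | add f g hf hg => rw [map_add, mul_add]; exact add_mem hf hg
    | single i s =>
      rw [Phi_single]
      rcases ha with ⟨r, rfl⟩ | rfl
      · refine ⟨Finsupp.single i (r * s), ?_⟩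
        rw [Phi_single, map_mul, mul_assoc]
      · refine ⟨Finsupp.single (i + 1) (σ s) + Finsupp.single i (δ s), ?_⟩
        rw [map_add, Phi_single, Phi_single, ← mul_assoc, X_mul_L σ δ hδ, add_mul, pow_succ',
          mul_assoc]
  | zero => intro s _; rw [zero_mul]; exact zero_mem _
  | one => intro s hs; rwa [one_mul]
  | add a b _ _ ha hb => intro s hs; rw [add_mul]; exact add_mem (ha s hs) (hb s hs)
  | neg a _ ha =>
    intro s hs
    have e : -a * s = -(a * s) := by
      apply AddMonoidHom.ext
      intro f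
      rfl
    rw [e]
    exact neg_mem (ha s hs)
  | mul a b _ _ ha hb => intro s hs; rw [mul_assoc]; exact ha _ (hb s hs)

theorem mem_range (hδ : ∀ r s, δ (r * s) = δ r * s + σ r * δ s) (a : AddMonoid.End (ℕ →₀ R))
    (ha : a ∈ ring σ δ) : a ∈ (Phi σ δ).range := by
  have := ring_le σ δ hδ a ha 1 ⟨Finsupp.single 0 1, by rw [Phi_single, map_one, pow_zero, one_mul]⟩
  rwa [mul_one] at this

/-- the embedding of `R` -/
noncomputable def emb : R →+* ring σ δ := (L (R := R)).codRestrict (ring σ δ) (L_mem σ δ)

theorem isOre (hδ : ∀ r s, δ (r * s) = δ r * s + σ r * δ s) :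
    IsOreExtension σ δ (emb σ δ) ⟨X σ δ, X_mem σ δ⟩ where
  comm r := Subtype.ext (X_mul_L σ δ hδ r)
  bij := by
    have hcoe : ∀ f : ℕ →₀ R, (((f.sum fun i r => emb σ δ r * ⟨X σ δ, X_mem σ δ⟩ ^ i : ring σ δ)) :
        AddMonoid.End (ℕ →₀ R)) = Phi σ δ f := by
      intro f
      rw [Phi_apply]
      show (ring σ δ).subtype _ = _
      rw [Finsupp.sum, Finsupp.sum, map_sum]
      rfl
    constructor
    · intro f g hfg
      have h1 : Phi σ δ f = Phi σ δ g := by
        rw [← hcoe, ← hcoe]
        exact congrArg Subtype.val hfg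
      rw [← Phi_one σ δ hδ f, h1, Phi_one σ δ hδ g]
    · rintro ⟨a, ha⟩
      obtain ⟨f, hf⟩ := mem_range σ δ hδ a ha
      exact ⟨f, Subtype.ext ((hcoe f).trans hf)⟩

end OreConstruction

/-- The Ore extension `R[x; σ, δ]` exists for every endomorphism `σ` and `σ`-derivation `δ`. -/
theorem exists_oreExtension {R : Type u} [Ring R] (σ : R →+* R) (δ : R →+ R)
    (hδ : ∀ r s, δ (r * s) = δ r * s + σ r * δ s) :
    ∃ (A : Type u) (_ : Ring A) (ι : R →+* A) (x : A), IsOreExtension σ δ ι x :=
  ⟨OreConstruction.ring σ δ, inferInstance, _, _, OreConstruction.isOre σ δ hδ⟩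

end Pool.Agent.R706
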