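import Mathlib

/-!
# Positive-primitive formulas of modules
-/

namespace Pool.Agent.R706

/-- An `n`-ary positive-primitive formula `∃ y, A y = B x` over the ring `R` (in the variables
`x_1, …, x_n`), with matrices `A`, `B` over `R` of matching sizes. -/
structure PP (R : Type) (n : ℕ) where
  /-- the number of equations -/
  eqs : ℕ
  /-- the number of bound variables -/
  vars : ℕ
  A : Matrix (Fin eqs) (Fin vars) R
  B : Matrix (Fin eqs) (Fin n) R

namespace PP

variable {R : Type} [Ring R] {n : ℕ}

/-- The tuple `x` satisfies the pp formula `φ` in the left `R`-module `M`. -/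
def Holds (φ : PP R n) (M : Type) [AddCommGroup M] [Module R M] (x : Fin n → M) : Prop :=
  ∃ y : Fin φ.vars → M, ∀ i, ∑ j, φ.A i j • y j = ∑ j, φ.B i j • x j

/-- `φ ≤ ψ` if `φ(M) ⊆ ψ(M)` for every left `R`-module `M`. -/
def le (φ ψ : PP R n) : Prop :=
  ∀ (M : Type) [AddCommGroup M] [Module R M] (x : Fin n → M), φ.Holds M x → ψ.Holds M x

/-- `φ` generates the pp type of the tuple `a` in `M`: `a` satisfies `φ` in `M` and `φ ≤ ψ` for
every pp formula `ψ` that `a` satisfies in `M`. -/
def Generates (φ : PP R n) (M : Type) [AddCommGroup M] [Module R M] (a : Fin n → M) : Prop :=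
  φ.Holds M a ∧ ∀ ψ : PP R n, ψ.Holds M a → φ.le ψ

theorem Holds.map {φ : PP R n} {M N : Type} [AddCommGroup M] [Module R M] [AddCommGroup N]
    [Module R N] {x : Fin n → M} (h : φ.Holds M x) (f : M →ₗ[R] N) :
    φ.Holds N (fun i => f (x i)) := by
  obtain ⟨y, hy⟩ := h
  refine ⟨fun j => f (y j), fun i => ?_⟩
  have := congrArg f (hy i)
  simpa only [map_sum, map_smul] using this

theorem Holds.pi {φ : PP R n} {r : ℕ} {M : Type} [AddCommGroup M] [Module R M]
    {x : Fin n → Fin r → M} (h : ∀ l, φ.Holds M (fun i => x i l)) : φ.Holds (Fin r → M) x := by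
  choose y hy using h
  refine ⟨fun j l => y l j, fun i => ?_⟩
  ext l
  simpa only [Finset.sum_apply, Pi.smul_apply] using hy l i

/-- Presentation formula of a tuple in a finitely presented module. -/
theorem exists_presentation (M : Type) [AddCommGroup M] [Module R M]
    [Module.FinitePresentation R M] (a : Fin n → M) :
    ∃ χ : PP R n, χ.Holds M a ∧ ∀ (L : Type) [AddCommGroup L] [Module R L] (b : Fin n → L),
      χ.Holds L b → ∃ h : M →ₗ[R] L, ∀ i, h (a i) = b i := by
  obtain ⟨m, K, e, hK⟩ := Module.FinitePresentation.exists_fin R M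
  obtain ⟨k, κ, hκ⟩ := Submodule.fg_iff_exists_fin_generating_family.1 hK
  have hα : ∀ i, ∃ v : Fin m → R, K.mkQ v = e (a i) := fun i => K.mkQ_surjective _
  choose α hα using hα
  refine ⟨⟨k + n, m, fun i j => Fin.append κ α i j,
    fun i j => Fin.append (fun _ => (0 : Fin n → R)) (fun i => Pi.single i 1) i j⟩, ?_, ?_⟩
  · -- the bound variables are the images of the basis vectors
    have hlin : ∀ v : Fin m → R,
        ∑ j, v j • e.symm (K.mkQ (Pi.single j 1)) = e.symm (K.mkQ v) := by
      intro v
      conv_rhs => rw [← Finset.univ_sum_single v]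
      rw [map_sum, map_sum]
      apply Finset.sum_congr rfl
      intro j _
      rw [← map_smul, ← map_smul, ← Pi.single_smul, smul_eq_mul, mul_one]
    refine ⟨fun j => e.symm (K.mkQ (Pi.single j 1)), fun i => ?_⟩
    refine Fin.addCases (fun i => ?_) (fun i => ?_) i
    · simp only [Fin.append_left, Pi.zero_apply, zero_smul, Finset.sum_const_zero]
      rw [hlin]
      have : K.mkQ (κ i) = 0 := by
        rw [Submodule.mkQ_apply, Submodule.Quotient.mk_eq_zero, ← hκ]
        exact Submodule.subset_span ⟨i, rfl⟩
      rw [this, map_zero]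
    · simp only [Fin.append_right]
      rw [hlin, hα, LinearEquiv.symm_apply_apply]
      simp [Pi.single_apply]
  · intro L _ _ b ⟨y, hy⟩
    let g : (Fin m → R) →ₗ[R] L := Fintype.linearCombination R y
    have hg : ∀ v, g v = ∑ j, v j • y j := fun v => Fintype.linearCombination_apply R y v
    have hgK : K ≤ LinearMap.ker g := by
      rw [← hκ, Submodule.span_le]
      rintro _ ⟨i, rfl⟩
      have := hy (Fin.castAdd n i)
      simp only [Fin.append_left, Pi.zero_apply, zero_smul, Finset.sum_const_zero] at this
      show g (κ i) = 0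
      rw [hg, this]
    refine ⟨(K.liftQ g hgK).comp e.toLinearMap, fun i => ?_⟩
    have h1 : (K.liftQ g hgK) (e (a i)) = g (α i) := by
      rw [← hα]; rfl
    have h2 := hy (Fin.natAdd k i)
    simp only [Fin.append_right] at h2
    show (K.liftQ g hgK) (e (a i)) = b i
    rw [h1, hg, h2]
    simp [Pi.single_apply]

end PP

end Pool.Agent.R706
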