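import Mathlib

/-!
# A module with dcc on finitely generated endo-submodules, but not on pairs

The module `M = A × U` over the ring `R` used in the counterexample for MP_a8ae26_al.
-/

namespace Pool.Agent.R706.PPChain

/-- eventually constant sequences in `ℚ²` -/
def A : Submodule ℚ (ℕ → ℚ × ℚ) where
  carrier := {a | ∃ N, ∀ j, N ≤ j → a j = a N}
  zero_mem' := ⟨0, fun _ _ => rfl⟩
  add_mem' := by
    rintro a b ⟨N, hN⟩ ⟨N', hN'⟩
    refine ⟨max N N', fun j hj => ?_⟩
    rw [Pi.add_apply, Pi.add_apply, hN j (le_trans (le_max_left _ _) hj), hN _ (le_max_left _ _),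
      hN' j (le_trans (le_max_right _ _) hj), hN' _ (le_max_right _ _)]
  smul_mem' := by
    rintro c a ⟨N, hN⟩
    exact ⟨N, fun j hj => by rw [Pi.smul_apply, Pi.smul_apply, hN j hj]⟩

/-- eventually constant sequences of scalars -/
def O : Subring (ℕ → ℚ) where
  carrier := {a | ∃ N, ∀ j, N ≤ j → a j = a N}
  zero_mem' := ⟨0, fun _ _ => rfl⟩
  one_mem' := ⟨0, fun _ _ => rfl⟩
  add_mem' := by
    rintro a b ⟨N, hN⟩ ⟨N', hN'⟩
    refine ⟨max N N', fun j hj => ?_⟩
    rw [Pi.add_apply, Pi.add_apply, hN j (le_trans (le_max_left _ _) hj), hN _ (le_max_left _ _),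
      hN' j (le_trans (le_max_right _ _) hj), hN' _ (le_max_right _ _)]
  mul_mem' := by
    rintro a b ⟨N, hN⟩ ⟨N', hN'⟩
    refine ⟨max N N', fun j hj => ?_⟩
    rw [Pi.mul_apply, Pi.mul_apply, hN j (le_trans (le_max_left _ _) hj), hN _ (le_max_left _ _),
      hN' j (le_trans (le_max_right _ _) hj), hN' _ (le_max_right _ _)]
  neg_mem' := by
    rintro a ⟨N, hN⟩
    exact ⟨N, fun j hj => by rw [Pi.neg_apply, Pi.neg_apply, hN j hj]⟩

/-- multiplication by an element of `O` on `A` -/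
def mulA (o : O) : A →ₗ[ℚ] A where
  toFun a := ⟨fun j => o.1 j • a.1 j, by
    obtain ⟨N, hN⟩ := o.2
    obtain ⟨N', hN'⟩ := a.2
    refine ⟨max N N', fun j hj => ?_⟩
    show o.1 j • a.1 j = o.1 _ • a.1 _
    rw [hN j (le_trans (le_max_left _ _) hj), hN _ (le_max_left _ _),
      hN' j (le_trans (le_max_right _ _) hj), hN' _ (le_max_right _ _)]⟩
  map_add' a b := by
    apply Subtype.ext; ext1 j
    exact smul_add _ _ _
  map_smul' c a := by
    apply Subtype.ext; ext1 j
    show o.1 j • (c • a.1 j) = c • (o.1 j • a.1 j)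
    rw [smul_comm]

theorem mulA_apply (o : O) (a : A) (j : ℕ) : (mulA o a).1 j = o.1 j • a.1 j := rfl

/-- `v_j = ε_j (x - j y)` -/
def vv (j : ℕ) : A := ⟨Pi.single j (1, -(j : ℚ)), j + 1, fun i hi => by
  rw [Pi.single_eq_of_ne (by omega), Pi.single_eq_of_ne (by omega)]⟩

def xx : A := ⟨fun _ => (1, 0), 0, fun _ _ => rfl⟩
def yy : A := ⟨fun _ => (0, 1), 0, fun _ _ => rfl⟩

theorem vv_self (j : ℕ) : (vv j).1 j = (1, -(j : ℚ)) := Pi.single_eq_same _ _
theorem vv_ne {i j : ℕ} (h : i ≠ j) : (vv j).1 i = 0 := Pi.single_eq_of_ne h _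

/-- the span of the `v_j` -/
def V : Submodule ℚ A where
  carrier := {a | (∀ j, (a.1 j).2 = -(j : ℚ) * (a.1 j).1) ∧ ∃ J, ∀ j, J ≤ j → a.1 j = 0}
  zero_mem' := ⟨fun j => by simp, 0, fun _ _ => rfl⟩
  add_mem' := by
    rintro a b ⟨ha, N, hN⟩ ⟨hb, N', hN'⟩
    refine ⟨fun j => ?_, max N N', fun j hj => ?_⟩
    · show (a.1 j).2 + (b.1 j).2 = -(j : ℚ) * ((a.1 j).1 + (b.1 j).1)
      rw [ha, hb]; ring
    · show a.1 j + b.1 j = 0
      rw [hN j (le_trans (le_max_left _ _) hj), hN' j (le_trans (le_max_right _ _) hj), add_zero]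
  smul_mem' := by
    rintro c a ⟨ha, N, hN⟩
    refine ⟨fun j => ?_, N, fun j hj => ?_⟩
    · show c * (a.1 j).2 = -(j : ℚ) * (c * (a.1 j).1)
      rw [ha]; ring
    · show c • a.1 j = 0
      rw [hN j hj, smul_zero]

theorem vv_mem (j : ℕ) : vv j ∈ V := by
  refine ⟨fun i => ?_, j + 1, fun i hi => vv_ne (by omega)⟩
  by_cases h : i = j
  · subst h; rw [vv_self]; simp
  · rw [vv_ne h]; simp

theorem V_eq_sum {a : A} (ha : a ∈ V) : ∃ J, a = ∑ j ∈ Finset.range J, (a.1 j).1 • vv j := by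
  obtain ⟨h1, J, hJ⟩ := ha
  refine ⟨J, ?_⟩
  apply Subtype.ext
  ext1 i
  have h2 : (∑ j ∈ Finset.range J, (a.1 j).1 • vv j : A).1 i =
      ∑ j ∈ Finset.range J, (a.1 j).1 • (vv j).1 i := by
    rw [Submodule.coe_sum, Finset.sum_apply]
    rfl
  rw [h2]
  by_cases hi : i < J
  · rw [Finset.sum_eq_single i]
    · rw [vv_self]
      ext
      · simp
      · simp [h1 i, mul_comm]
    · intro j _ hj
      rw [vv_ne (Ne.symm hj), smul_zero]
    · intro h
      exact absurd (Finset.mem_range.2 hi) h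
  · rw [hJ i (not_lt.1 hi)]
    symm
    apply Finset.sum_eq_zero
    intro j hj
    rw [vv_ne (by rw [Finset.mem_range] at hj; omega), smul_zero]

theorem mulA_V (o : O) {a : A} (ha : a ∈ V) : mulA o a ∈ V := by
  obtain ⟨h1, J, hJ⟩ := ha
  refine ⟨fun j => ?_, J, fun j hj => ?_⟩
  · rw [mulA_apply]
    show o.1 j * (a.1 j).2 = -(j : ℚ) * (o.1 j * (a.1 j).1)
    rw [h1]; ring
  · rw [mulA_apply, hJ j hj, smul_zero]

/-- the subspace `V × V + ℚ (x, y)` of `A × A` -/
def W : Submodule ℚ (A × A) where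
  carrier := {p | ∃ c : ℚ, p.1 - c • xx ∈ V ∧ p.2 - c • yy ∈ V}
  zero_mem' := ⟨0, by simp⟩
  add_mem' := by
    rintro p q ⟨c, h1, h2⟩ ⟨d, h3, h4⟩
    refine ⟨c + d, ?_, ?_⟩
    · have := V.add_mem h1 h3
      convert this using 1
      rw [Prod.fst_add, add_smul]; abel
    · have := V.add_mem h2 h4
      convert this using 1
      rw [Prod.snd_add, add_smul]; abel
  smul_mem' := by
    rintro e p ⟨c, h1, h2⟩
    refine ⟨e * c, ?_, ?_⟩
    · have := V.smul_mem e h1
      convert this using 1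
      rw [Prod.smul_fst, smul_sub, smul_smul]
    · have := V.smul_mem e h2
      convert this using 1
      rw [Prod.smul_snd, smul_sub, smul_smul]

/-- the auxiliary vector space `U` -/
def U : Type := (A × A) ⧸ W

instance : AddCommGroup U := inferInstanceAs (AddCommGroup ((A × A) ⧸ W))
instance : Module ℚ U := inferInstanceAs (Module ℚ ((A × A) ⧸ W))

/-- the quotient map -/
def quo : (A × A) →ₗ[ℚ] U := W.mkQ

theorem quo_surjective : Function.Surjective quo := W.mkQ_surjective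

theorem quo_eq_zero {p : A × A} : quo p = 0 ↔ p ∈ W := Submodule.Quotient.mk_eq_zero W

/-- the space `A × U` -/
def M : Type := A × U

instance : AddCommGroup M := inferInstanceAs (AddCommGroup (A × U))
instance : Module ℚ M := inferInstanceAs (Module ℚ (A × U))

/-- construct elements of `M` -/
def mk (a : A) (u : U) : M := (a, u)

/-- first component -/
def fstM : M →ₗ[ℚ] A := LinearMap.fst ℚ A U
/-- second component -/
def sndM : M →ₗ[ℚ] U := LinearMap.snd ℚ A U

@[simp] theorem fstM_mk (a : A) (u : U) : fstM (mk a u) = a := rfl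
@[simp] theorem sndM_mk (a : A) (u : U) : sndM (mk a u) = u := rfl

theorem M_ext {m m' : M} (h : fstM m = fstM m') (h' : sndM m = sndM m') : m = m' :=
  Prod.ext h h'

theorem mk_eta (m : M) : mk (fstM m) (sndM m) = m := rfl

theorem mk_add (a a' : A) (u u' : U) : mk a u + mk a' u' = mk (a + a') (u + u') := rfl

/-- the endomorphism `(a, u) ↦ (o a, h a + g u)` of `M` -/
def mkE (o : O) (h : A →ₗ[ℚ] U) (g : U →ₗ[ℚ] U) : Module.End ℚ M where
  toFun m := mk (mulA o (fstM m)) (h (fstM m) + g (sndM m))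
  map_add' m m' := by
    apply M_ext
    · simp only [map_add, fstM_mk]
    · simp only [map_add, sndM_mk]; abel
  map_smul' c m := by
    apply M_ext
    · simp only [map_smul, fstM_mk, RingHom.id_apply]
    · simp only [map_smul, sndM_mk, RingHom.id_apply, smul_add]

theorem mkE_apply (o : O) (h : A →ₗ[ℚ] U) (g : U →ₗ[ℚ] U) (a : A) (u : U) :
    mkE o h g (mk a u) = mk (mulA o a) (h a + g u) := rfl

theorem E_ext {r s : Module.End ℚ M} (h : ∀ a u, r (mk a u) = s (mk a u)) : r = s := by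
  apply LinearMap.ext
  intro m
  rw [← mk_eta m]
  exact h _ _

/-- the ring `R` -/
def R : Subring (Module.End ℚ M) where
  carrier := {r | ∃ o h g, (∀ a ∈ V, h a = 0) ∧ r = mkE o h g}
  zero_mem' := ⟨0, 0, 0, fun _ _ => rfl, by
    apply E_ext
    intro a u
    rw [mkE_apply]
    apply M_ext
    · apply Subtype.ext; ext1 j
      rw [fstM_mk, mulA_apply]
      exact (zero_smul ℚ _).symm
    · simp⟩
  one_mem' := ⟨1, 0, LinearMap.id, fun _ _ => rfl, by
    apply E_ext
    intro a u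
    rw [mkE_apply]
    apply M_ext
    · apply Subtype.ext; ext1 j
      rw [fstM_mk, mulA_apply]
      exact (one_smul ℚ _).symm
    · simp⟩
  add_mem' := by
    rintro _ _ ⟨o, h, g, hh, rfl⟩ ⟨o', h', g', hh', rfl⟩
    refine ⟨o + o', h + h', g + g', fun a ha => by rw [LinearMap.add_apply, hh a ha, hh' a ha, add_zero], ?_⟩
    apply E_ext
    intro a u
    rw [LinearMap.add_apply, mkE_apply, mkE_apply, mkE_apply]
    apply M_ext
    · apply Subtype.ext; ext1 j
      show o.1 j • a.1 j + o'.1 j • a.1 j = (o.1 j + o'.1 j) • a.1 j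
      rw [add_smul]
    · simp only [map_add, sndM_mk, LinearMap.add_apply]; abel
  neg_mem' := by
    rintro _ ⟨o, h, g, hh, rfl⟩
    refine ⟨-o, -h, -g, fun a ha => by rw [LinearMap.neg_apply, hh a ha, neg_zero], ?_⟩
    apply E_ext
    intro a u
    rw [LinearMap.neg_apply, mkE_apply, mkE_apply]
    apply M_ext
    · apply Subtype.ext; ext1 j
      show -(o.1 j • a.1 j) = (-o.1 j) • a.1 j
      rw [neg_smul]
    · simp only [map_neg, sndM_mk, LinearMap.neg_apply]; abel
  mul_mem' := by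
    rintro _ _ ⟨o, h, g, hh, rfl⟩ ⟨o', h', g', hh', rfl⟩
    refine ⟨o * o', h.comp (mulA o') + g.comp h', g.comp g', fun a ha => by
      rw [LinearMap.add_apply, LinearMap.comp_apply, LinearMap.comp_apply, hh' a ha,
        hh _ (mulA_V o' ha), map_zero, add_zero], ?_⟩
    apply E_ext
    intro a u
    rw [Module.End.mul_apply, mkE_apply, mkE_apply, mkE_apply]
    apply M_ext
    · apply Subtype.ext; ext1 j
      show o.1 j • (o'.1 j • a.1 j) = (o.1 j * o'.1 j) • a.1 j
      rw [smul_smul]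
    · simp only [sndM_mk, LinearMap.add_apply, LinearMap.comp_apply, map_add]; abel

instance : Module R M := Module.compHom M R.subtype

/-- elements of `R` from their data -/
def mkR (o : O) (h : A →ₗ[ℚ] U) (g : U →ₗ[ℚ] U) (hh : ∀ a ∈ V, h a = 0) : R :=
  ⟨mkE o h g, o, h, g, hh, rfl⟩

theorem mkR_smul (o : O) (h : A →ₗ[ℚ] U) (g : U →ₗ[ℚ] U) (hh : ∀ a ∈ V, h a = 0) (a : A) (u : U) :
    mkR o h g hh • mk a u = mk (mulA o a) (h a + g u) := rfl

theorem snd_mkR_smul (o : O) (h : A →ₗ[ℚ] U) (g : U →ₗ[ℚ] U) (hh : ∀ a ∈ V, h a = 0) (m : M) :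
    sndM (mkR o h g hh • m) = h (fstM m) + g (sndM m) := rfl

theorem fst_mkR_smul (o : O) (h : A →ₗ[ℚ] U) (g : U →ₗ[ℚ] U) (hh : ∀ a ∈ V, h a = 0) (m : M) :
    fstM (mkR o h g hh • m) = mulA o (fstM m) := rfl

theorem R_cases (r : R) : ∃ o h g hh, r = mkR o h g hh := by
  obtain ⟨_, o, h, g, hh, rfl⟩ := r
  exact ⟨o, h, g, hh, rfl⟩

/-! ### Finite presentation of `M` -/

/-- the projection onto `U` -/
def e2 : R := mkR 0 0 LinearMap.id (fun _ _ => rfl)

/-- `η₁ : A → U` -/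
def eta1 : A →ₗ[ℚ] U := quo.comp (LinearMap.inl ℚ A A)
/-- `η₂ : A → U` -/
def eta2 : A →ₗ[ℚ] U := quo.comp (LinearMap.inr ℚ A A)

theorem eta1_V (a : A) (ha : a ∈ V) : eta1 a = 0 := by
  show quo (a, 0) = 0
  rw [quo_eq_zero]
  exact ⟨0, by simpa using ha, by simp⟩

theorem eta2_V (a : A) (ha : a ∈ V) : eta2 a = 0 := by
  show quo (0, a) = 0
  rw [quo_eq_zero]
  exact ⟨0, by simp, by simpa using ha⟩

theorem eta_xy : eta1 xx + eta2 yy = 0 := by
  show quo (xx, 0) + quo (0, yy) = 0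
  rw [← map_add, quo_eq_zero]
  exact ⟨1, by simp, by simp⟩

/-- there is a vector of `U` that is nonzero -/
theorem exists_ne_U : ∃ u : U, u ≠ 0 := by
  refine ⟨eta1 xx, ?_⟩
  intro h
  have h1 : quo (xx, 0) = 0 := h
  rw [quo_eq_zero] at h1
  obtain ⟨c, ⟨h2, J, hJ⟩, ⟨h4, J', hJ'⟩⟩ := h1
  have h5 := congrArg Prod.snd (hJ' J' le_rfl)
  have h6 := congrArg Prod.fst (hJ J le_rfl)
  simp [xx, yy] at h5 h6
  rw [h5] at h6
  norm_num at h6

/-- the presentation `R² → M` -/
def pres : (Fin 2 → R) →ₗ[R] M where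
  toFun p := p 0 • mk xx 0 + p 1 • mk yy 0
  map_add' p q := by
    simp only [Pi.add_apply, add_smul]; abel
  map_smul' r p := by
    simp only [Pi.smul_apply, smul_eq_mul, mul_smul, smul_add, RingHom.id_apply]

theorem pres_apply (p : Fin 2 → R) : pres p = p 0 • mk xx 0 + p 1 • mk yy 0 := rfl

/-- every functional-like vector `u` is hit -/
theorem xx_notMem : xx ∉ V := by
  rintro ⟨-, J, hJ⟩
  have := congrArg Prod.fst (hJ J le_rfl)
  simp [xx] at this

theorem exists_h' {a : A} (ha : a ∉ V) (u : U) :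
    ∃ h : A →ₗ[ℚ] U, (∀ a ∈ V, h a = 0) ∧ h a = u := by
  obtain ⟨f, hf, hf'⟩ := Submodule.exists_dual_map_eq_bot_of_notMem ha inferInstance
  refine ⟨LinearMap.toSpanSingleton ℚ U ((f a)⁻¹ • u) ∘ₗ f, fun b hb => ?_, ?_⟩
  · have : f b = 0 := by
      have h1 : f b ∈ V.map f := ⟨b, hb, rfl⟩
      rw [hf'] at h1
      exact h1
    rw [LinearMap.comp_apply, this, map_zero]
  · rw [LinearMap.comp_apply, LinearMap.toSpanSingleton_apply, smul_smul, mul_inv_cancel₀ hf, one_smul]

theorem exists_h (u : U) : ∃ h : A →ₗ[ℚ] U, (∀ a ∈ V, h a = 0) ∧ h xx = u :=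
  exists_h' xx_notMem u

theorem pres_surjective : Function.Surjective pres := by
  intro m
  obtain ⟨h, hV, hx⟩ := exists_h (sndM m)
  have hO1 : (fun j => ((fstM m).1 j).1) ∈ O := by
    obtain ⟨N, hN⟩ := (fstM m).2
    exact ⟨N, fun j hj => by show ((fstM m).1 j).1 = ((fstM m).1 N).1; rw [hN j hj]⟩
  have hO2 : (fun j => ((fstM m).1 j).2) ∈ O := by
    obtain ⟨N, hN⟩ := (fstM m).2
    exact ⟨N, fun j hj => by show ((fstM m).1 j).2 = ((fstM m).1 N).2; rw [hN j hj]⟩
  refine ⟨![mkR ⟨_, hO1⟩ h 0 hV, mkR ⟨_, hO2⟩ 0 0 (fun _ _ => rfl)], ?_⟩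
  rw [pres_apply]
  show mkR ⟨_, hO1⟩ h 0 hV • mk xx 0 + mkR ⟨_, hO2⟩ 0 0 (fun _ _ => rfl) • mk yy 0 = m
  rw [mkR_smul, mkR_smul, mk_add]
  apply M_ext
  · rw [fstM_mk]
    apply Subtype.ext
    ext1 j
    show ((fstM m).1 j).1 • ((1 : ℚ), (0 : ℚ)) + ((fstM m).1 j).2 • ((0 : ℚ), (1 : ℚ)) = (fstM m).1 j
    ext <;> simp
  · rw [sndM_mk, hx]
    simp

theorem ker_pres : LinearMap.ker pres =
    Submodule.span R {![e2, 0], ![0, e2], ![mkR 0 eta1 0 eta1_V, mkR 0 eta2 0 eta2_V]} := by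
  apply le_antisymm
  · intro p hp
    have hp' : p 0 • mk xx 0 + p 1 • mk yy 0 = 0 := hp
    obtain ⟨o, h, g, hh, h0⟩ := R_cases (p 0)
    obtain ⟨o', h', g', hh', h1⟩ := R_cases (p 1)
    rw [h0, h1, mkR_smul, mkR_smul, mk_add] at hp'
    have e1 : mulA o xx + mulA o' yy = 0 := congrArg fstM hp'
    have e2' : h xx + g 0 + (h' yy + g' 0) = 0 := congrArg sndM hp'
    rw [map_zero, map_zero, add_zero, add_zero] at e2'
    have ho : o = 0 := by
      apply Subtype.ext; ext1 j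
      have := congrArg (fun a : A => (a.1 j).1) e1
      have h3 : o.1 j * 1 + o'.1 j * 0 = 0 := this
      show o.1 j = 0
      linarith
    have ho' : o' = 0 := by
      apply Subtype.ext; ext1 j
      have := congrArg (fun a : A => (a.1 j).2) e1
      have h3 : o.1 j * 0 + o'.1 j * 1 = 0 := this
      show o'.1 j = 0
      linarith
    subst ho ho'
    -- factor `(h, h')` through the quotient map
    let H : (A × A) →ₗ[ℚ] U := h.comp (LinearMap.fst ℚ A A) + h'.comp (LinearMap.snd ℚ A A)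
    have hH : ∀ q ∈ W, H q = 0 := by
      rintro ⟨a, b⟩ ⟨c, ha, hb⟩
      have h3 := hh _ ha
      have h4 := hh' _ hb
      simp only [map_sub, map_smul] at h3 h4
      show h a + h' b = 0
      rw [sub_eq_zero.1 h3, sub_eq_zero.1 h4, ← smul_add, e2', smul_zero]
    let G : U →ₗ[ℚ] U := W.liftQ H hH
    have hG : ∀ q, G (quo q) = H q := fun q => rfl
    have hdec : p = mkR 0 0 g (fun _ _ => rfl) • ![e2, 0] + mkR 0 0 g' (fun _ _ => rfl) • ![0, e2] +
        mkR 0 0 G (fun _ _ => rfl) • ![mkR 0 eta1 0 eta1_V, mkR 0 eta2 0 eta2_V] := by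
      ext1 i
      fin_cases i
      · show p 0 = mkR 0 0 g (fun _ _ => rfl) * e2 + mkR 0 0 g' (fun _ _ => rfl) * 0 +
          mkR 0 0 G (fun _ _ => rfl) * mkR 0 eta1 0 eta1_V
        rw [h0]
        apply Subtype.ext
        apply E_ext
        intro a u
        show mk (mulA 0 a) (h a + g u) = mk (mulA 0 (mulA 0 a)) (0 + g (0 + u)) +
          mk (mulA 0 0) (0 + g' 0) + mk (mulA 0 (mulA 0 a)) (0 + G (eta1 a + 0))
        have h5 : G (eta1 a) = h a := by
          show G (quo (a, 0)) = h a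
          rw [hG]
          show h a + h' 0 = h a
          rw [map_zero, add_zero]
        have h6 : ∀ b, mulA 0 b = 0 := by
          intro b
          apply Subtype.ext; ext1 j
          exact zero_smul ℚ _
        simp only [h6, map_zero, zero_add, add_zero, h5, mk_add]
        rw [add_comm]
      · show p 1 = mkR 0 0 g (fun _ _ => rfl) * 0 + mkR 0 0 g' (fun _ _ => rfl) * e2 +
          mkR 0 0 G (fun _ _ => rfl) * mkR 0 eta2 0 eta2_V
        rw [h1]
        apply Subtype.ext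
        apply E_ext
        intro a u
        show mk (mulA 0 a) (h' a + g' u) = mk (mulA 0 0) (0 + g 0) +
          mk (mulA 0 (mulA 0 a)) (0 + g' (0 + u)) + mk (mulA 0 (mulA 0 a)) (0 + G (eta2 a + 0))
        have h5 : G (eta2 a) = h' a := by
          show G (quo (0, a)) = h' a
          rw [hG]
          show h 0 + h' a = h' a
          rw [map_zero, zero_add]
        have h6 : ∀ b, mulA 0 b = 0 := by
          intro b
          apply Subtype.ext; ext1 j
          exact zero_smul ℚ _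
        simp only [h6, map_zero, zero_add, add_zero, h5, mk_add]
        rw [add_comm]
    rw [hdec]
    refine add_mem (add_mem ?_ ?_) ?_
    · exact Submodule.smul_mem _ _ (Submodule.subset_span (by simp))
    · exact Submodule.smul_mem _ _ (Submodule.subset_span (by simp))
    · exact Submodule.smul_mem _ _ (Submodule.subset_span (by simp))
  · rw [Submodule.span_le]
    have h6 : ∀ b, mulA 0 b = 0 := by
      intro b
      apply Subtype.ext; ext1 j
      exact zero_smul ℚ _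
    have hz : ∀ m : M, (0 : R) • m = 0 := fun m => zero_smul R m
    rintro p (rfl | rfl | rfl)
    · show e2 • mk xx 0 + (0 : R) • mk yy 0 = 0
      erw [hz, add_zero, e2, mkR_smul, h6]
      show mk 0 ((0 : A →ₗ[ℚ] U) xx + (LinearMap.id : U →ₗ[ℚ] U) 0) = 0
      rw [LinearMap.zero_apply, map_zero, add_zero]
      rfl
    · show (0 : R) • mk xx 0 + e2 • mk yy 0 = 0
      erw [hz, zero_add, e2, mkR_smul, h6]
      show mk 0 ((0 : A →ₗ[ℚ] U) yy + (LinearMap.id : U →ₗ[ℚ] U) 0) = 0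
      rw [LinearMap.zero_apply, map_zero, add_zero]
      rfl
    · show mkR 0 eta1 0 eta1_V • mk xx 0 + mkR 0 eta2 0 eta2_V • mk yy 0 = 0
      rw [mkR_smul, mkR_smul, h6, h6, mk_add, LinearMap.zero_apply, add_zero, add_zero, add_zero,
        eta_xy]
      rfl

instance : Module.FinitePresentation R M := by
  apply Module.finitePresentation_of_surjective pres pres_surjective
  rw [ker_pres]
  exact Submodule.fg_span (Set.toFinite _)

/-! ### Endomorphisms of `M` -/

/-- the projection onto `A`, times an element of `O` -/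
def dg (o : O) : R := mkR o 0 0 (fun _ _ => rfl)

theorem dg_smul (o : O) (m : M) : dg o • m = mk (mulA o (fstM m)) 0 := by
  rw [← mk_eta m]
  show mk (mulA o (fstM m)) (0 + 0) = _
  rw [add_zero]
  rfl

theorem e2_smul (m : M) : e2 • m = mk 0 (sndM m) := by
  rw [← mk_eta m]
  show mk (mulA 0 (fstM m)) (0 + sndM m) = _
  have h6 : mulA 0 (fstM m) = 0 := by
    apply Subtype.ext; ext1 j
    exact zero_smul ℚ _
  rw [h6, zero_add]
  rfl

theorem mulA_one (a : A) : mulA 1 a = a := by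
  apply Subtype.ext; ext1 j
  exact one_smul ℚ _

/-- the first component of an endomorphism -/
theorem end_fst (F : M →ₗ[R] M) (a : A) : sndM (F (mk a 0)) = 0 := by
  have h : mk a 0 = dg 1 • mk a 0 := by rw [dg_smul, fstM_mk, mulA_one]
  rw [h, map_smul, dg_smul]
  rfl

theorem end_snd (F : M →ₗ[R] M) (u : U) : fstM (F (mk 0 u)) = 0 := by
  have h : mk 0 u = e2 • mk 0 u := by rw [e2_smul, sndM_mk]
  rw [h, map_smul, e2_smul]
  rfl

theorem end_add (F : M →ₗ[R] M) (a : A) (u : U) :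
    F (mk a u) = mk (fstM (F (mk a 0))) (sndM (F (mk 0 u))) := by
  have h : mk a u = mk a 0 + mk 0 u := by rw [mk_add, add_zero, zero_add]
  rw [h, map_add]
  apply M_ext
  · rw [map_add, end_snd, add_zero, fstM_mk]
  · rw [map_add, end_fst, zero_add, sndM_mk]

/-- commutation with elements of `O` -/
theorem end_mulA (F : M →ₗ[R] M) (o : O) (a : A) :
    fstM (F (mk (mulA o a) 0)) = mulA o (fstM (F (mk a 0))) := by
  have h : mk (mulA o a) 0 = dg o • mk a 0 := by rw [dg_smul, fstM_mk]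
  rw [h, map_smul, dg_smul, fstM_mk]

/-- an endomorphism of `U` commuting with all endomorphisms is a scalar -/
theorem scalar_of_comm (f : U → U) (h : ∀ (g : U →ₗ[ℚ] U) (u : U), f (g u) = g (f u)) :
    ∃ c : ℚ, ∀ u, f u = c • u := by
  obtain ⟨u0, hu0⟩ := exists_ne_U
  obtain ⟨φ, hφ, -⟩ := Submodule.exists_dual_map_eq_bot_of_notMem (p := (⊥ : Submodule ℚ U))
    (x := u0) (by simpa using hu0) inferInstance
  refine ⟨(φ u0)⁻¹ * φ (f u0), fun u => ?_⟩
  have h1 := h (LinearMap.toSpanSingleton ℚ U u ∘ₗ ((φ u0)⁻¹ • φ)) u0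
  have h2 : (LinearMap.toSpanSingleton ℚ U u ∘ₗ ((φ u0)⁻¹ • φ)) u0 = u := by
    rw [LinearMap.comp_apply, LinearMap.smul_apply, smul_eq_mul, inv_mul_cancel₀ hφ,
      LinearMap.toSpanSingleton_apply, one_smul]
  rw [h2] at h1
  rw [h1]
  rfl

theorem end_structure (F : M →ₗ[R] M) : ∃ c : ℚ, (∀ u, sndM (F (mk 0 u)) = c • u) ∧
    ∀ a, fstM (F (mk a 0)) - c • a ∈ V := by
  obtain ⟨c, hc⟩ := scalar_of_comm (fun u => sndM (F (mk 0 u))) (by
    intro g u
    have h1 : mkR 0 0 g (fun _ _ => rfl) • mk 0 u = mk 0 (g u) := by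
      rw [mkR_smul]
      apply M_ext
      · rw [fstM_mk, fstM_mk, map_zero]
      · rw [sndM_mk, sndM_mk, LinearMap.zero_apply, zero_add]
    have h2 := congrArg F h1
    rw [map_smul] at h2
    have h3 := congrArg sndM h2
    rw [snd_mkR_smul, LinearMap.zero_apply, zero_add] at h3
    exact h3.symm)
  refine ⟨c, hc, fun a => ?_⟩
  by_contra hcon
  obtain ⟨u0, hu0⟩ := exists_ne_U
  obtain ⟨h, hV, hh⟩ := exists_h' hcon u0
  apply hu0
  rw [← hh, map_sub, map_smul]
  have h1 : mkR 0 h 0 hV • mk a 0 = mk 0 (h a) := by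
    apply M_ext
    · rw [fst_mkR_smul, fstM_mk, fstM_mk]
      apply Subtype.ext; ext1 j
      exact zero_smul ℚ _
    · rw [snd_mkR_smul, fstM_mk, sndM_mk, sndM_mk, LinearMap.zero_apply, add_zero]
  have h2 := congrArg F h1
  rw [map_smul] at h2
  have h3 := congrArg sndM h2
  rw [snd_mkR_smul, LinearMap.zero_apply, add_zero, hc] at h3
  rw [h3, sub_self]

/-! ### The endomorphisms `e_j`, `n_j` -/

/-- `(a, u) ↦ ((φ(a_j)) v_j, 0)` -/
def En (φ : ℚ × ℚ →ₗ[ℚ] ℚ) (j : ℕ) : M →ₗ[R] M where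
  toFun m := mk (φ ((fstM m).1 j) • vv j) 0
  map_add' m m' := by
    rw [mk_add, add_zero, ← add_smul, ← map_add]
    rfl
  map_smul' r m := by
    obtain ⟨o, h, g, hh, rfl⟩ := R_cases r
    rw [RingHom.id_apply]
    apply M_ext
    · rw [fst_mkR_smul, fst_mkR_smul, fstM_mk, fstM_mk, mulA_apply, map_smul, map_smul]
      apply Subtype.ext; ext1 i
      show (o.1 j • φ ((fstM m).1 j)) • (vv j).1 i = φ ((fstM m).1 j) • (mulA o (vv j)).1 i
      rw [mulA_apply]
      by_cases hi : i = j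
      · subst hi
        rw [smul_eq_mul, mul_comm, mul_smul]
      · rw [vv_ne hi, smul_zero, smul_zero, smul_zero]
    · rw [snd_mkR_smul, sndM_mk, fstM_mk, sndM_mk, map_smul, hh _ (vv_mem j), smul_zero, map_zero,
        add_zero]

theorem En_apply (φ : ℚ × ℚ →ₗ[ℚ] ℚ) (j : ℕ) (m : M) :
    En φ j m = mk (φ ((fstM m).1 j) • vv j) 0 := rfl

/-! ### The descending chain condition -/

/-- `v_j` as an element of `M` -/
def vh (j : ℕ) : M := mk (vv j) 0

/-- multiplication by a scalar as an endomorphism -/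
def scal (c : ℚ) : M →ₗ[R] M where
  toFun m := c • m
  map_add' m m' := smul_add _ _ _
  map_smul' r m := by
    show c • (r.1 m) = r.1 (c • m)
    rw [map_smul]

/-- the endomorphism ring of `M` -/
abbrev T : Type := Module.End R M

theorem smul_mem_T (F : Submodule T M) (c : ℚ) {m : M} (hm : m ∈ F) : c • m ∈ F :=
  F.smul_mem (scal c : T) hm

theorem vh_mem_of (F : Submodule T M) {m : M} (hm : m ∈ F) {j : ℕ} (h : (fstM m).1 j ≠ 0) :
    vh j ∈ F := by
  have key : ∀ φ : ℚ × ℚ →ₗ[ℚ] ℚ, φ ((fstM m).1 j) ≠ 0 → vh j ∈ F := by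
    intro φ hφ
    have h1 : (En φ j : T) • m ∈ F := F.smul_mem _ hm
    have h2 : (En φ j : T) • m = φ ((fstM m).1 j) • vh j := by
      show mk (φ ((fstM m).1 j) • vv j) 0 = φ ((fstM m).1 j) • mk (vv j) 0
      apply M_ext
      · rw [fstM_mk, map_smul, fstM_mk]
      · rw [sndM_mk, map_smul, sndM_mk, smul_zero]
    rw [h2] at h1
    have h3 := smul_mem_T F (φ ((fstM m).1 j))⁻¹ h1
    rwa [smul_smul, inv_mul_cancel₀ hφ, one_smul] at h3
  by_cases h1 : ((fstM m).1 j).1 = 0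
  · apply key (LinearMap.snd ℚ ℚ ℚ)
    intro h2
    exact h (Prod.ext h1 h2)
  · exact key (LinearMap.fst ℚ ℚ ℚ) h1

/-- `V × 0` -/
def Vh : Submodule ℚ M where
  carrier := {m | fstM m ∈ V ∧ sndM m = 0}
  zero_mem' := ⟨by rw [map_zero]; exact V.zero_mem, map_zero _⟩
  add_mem' := by
    rintro a b ⟨h1, h2⟩ ⟨h3, h4⟩
    exact ⟨by rw [map_add]; exact V.add_mem h1 h3, by rw [map_add, h2, h4, add_zero]⟩
  smul_mem' := by
    rintro c a ⟨h1, h2⟩
    exact ⟨by rw [map_smul]; exact V.smul_mem _ h1, by rw [map_smul, h2, smul_zero]⟩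

theorem mem_of_vh (F F' : Submodule T M) (hv : ∀ j, vh j ∈ F → vh j ∈ F') {m : M}
    (hm : m ∈ F) (hmV : m ∈ Vh) : m ∈ F' := by
  obtain ⟨hV, h0⟩ := hmV
  obtain ⟨J, hJ⟩ := V_eq_sum hV
  have h1 : m = ∑ j ∈ Finset.range J, ((fstM m).1 j).1 • vh j := by
    apply M_ext
    · rw [map_sum]
      conv_lhs => rw [hJ]
      apply Finset.sum_congr rfl
      intro j _
      rw [map_smul]
      rfl
    · rw [map_sum, h0]
      symm
      apply Finset.sum_eq_zero
      intro j _
      rw [map_smul]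
      exact smul_zero _
  rw [h1]
  apply Submodule.sum_mem
  intro j _
  by_cases hj : ((fstM m).1 j).1 = 0
  · rw [hj, zero_smul]; exact F'.zero_mem
  · apply smul_mem_T
    apply hv
    apply vh_mem_of F hm
    intro h2
    apply hj
    rw [h2]
    rfl

/-- a `T`-submodule as a `ℚ`-subspace -/
def Fq (F : Submodule T M) : Submodule ℚ M where
  carrier := F
  zero_mem' := F.zero_mem
  add_mem' := F.add_mem
  smul_mem' c _ hm := smul_mem_T F c hm

theorem end_decomp (t : M →ₗ[R] M) : ∃ c : ℚ, ∀ m, t m - c • m ∈ Vh := by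
  obtain ⟨c, h1, h2⟩ := end_structure t
  refine ⟨c, fun m => ⟨?_, ?_⟩⟩
  · rw [← mk_eta m, end_add, map_sub, map_smul, fstM_mk, fstM_mk]
    exact h2 _
  · rw [← mk_eta m, end_add, map_sub, map_smul, sndM_mk, sndM_mk, h1, sub_self]

theorem end_Vh (t : M →ₗ[R] M) {m : M} (hm : m ∈ Vh) : t m ∈ Vh := by
  obtain ⟨c, hc⟩ := end_decomp t
  have := Vh.add_mem (hc m) (Vh.smul_mem c hm)
  rwa [sub_add_cancel] at this

theorem fg_finite (F : Submodule T M) (hF : F.FG) :
    FiniteDimensional ℚ ((Fq F).map Vh.mkQ) := by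
  obtain ⟨s, hs⟩ := hF
  have h1 : (Fq F).map Vh.mkQ ≤ Submodule.span ℚ (Vh.mkQ '' (s : Set M)) := by
    rintro _ ⟨m, hm, rfl⟩
    have hm' : m ∈ Submodule.span T (s : Set M) := by rw [hs]; exact hm
    clear hm
    induction hm' using Submodule.span_induction with
    | mem x hx => exact Submodule.subset_span ⟨x, hx, rfl⟩
    | zero => rw [map_zero]; exact Submodule.zero_mem _
    | add x y _ _ hx hy => rw [map_add]; exact Submodule.add_mem _ hx hy
    | smul t x _ hx =>
      obtain ⟨c, hc⟩ := end_decomp t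
      have h2 : Vh.mkQ (t • x) = c • Vh.mkQ x := by
        rw [← map_smul, ← sub_eq_zero, ← map_sub]
        exact (Submodule.Quotient.mk_eq_zero _).2 (hc x)
      rw [h2]
      exact Submodule.smul_mem _ _ hx
  have h2 : FiniteDimensional ℚ (Submodule.span ℚ (Vh.mkQ '' (s : Set M))) :=
    FiniteDimensional.span_of_finite ℚ (s.finite_toSet.image _)
  exact Submodule.finiteDimensional_of_le h1

theorem le_of (F F' : Submodule T M) (h1 : (Fq F).map Vh.mkQ ≤ (Fq F').map Vh.mkQ) (hle : F' ≤ F)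
    (hv : ∀ j, vh j ∈ F → vh j ∈ F') : F ≤ F' := by
  intro m hm
  obtain ⟨m', hm', he⟩ := h1 ⟨m, hm, rfl⟩
  have h2 : m - m' ∈ Vh := by
    rw [← Submodule.Quotient.mk_eq_zero, ← Submodule.mkQ_apply, map_sub, he, sub_self]
  have h3 : m - m' ∈ F' := mem_of_vh F F' hv (F.sub_mem hm (hle hm')) h2
  have := F'.add_mem h3 hm'
  rwa [sub_add_cancel] at this

theorem nat_stab (f : ℕ → ℕ) (hf : ∀ i, f (i + 1) ≤ f i) : ∃ N, ∀ n, N ≤ n → f n = f N := by
  have hanti : Antitone f := antitone_nat_of_succ_le hf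
  refine ⟨Function.argmin f, fun n hn => le_antisymm (hanti hn) (Function.argmin_le f n)⟩

/-- eventually all `v_j` lie in `F'` -/
theorem case1 {m : M} {N : ℕ} (hN : ∀ j, N ≤ j → (fstM m).1 j = (fstM m).1 N)
    (hne : (fstM m).1 N ≠ 0) : ∃ E : ℕ, ∀ (F : Submodule T M) (m' : M), m' ∈ F → m - m' ∈ Vh →
      ∀ j, E ≤ j → vh j ∈ F := by
  set p := ((fstM m).1 N).1 with hp
  set q := ((fstM m).1 N).2 with hq
  have key : ∀ (F : Submodule T M) (m' : M), m' ∈ F → m - m' ∈ Vh → ∀ j, N ≤ j →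
      q ≠ -(j : ℚ) * p → vh j ∈ F := by
    intro F m' hm' hV j hj hpq
    apply vh_mem_of F hm'
    intro h0
    apply hpq
    have h1 := hV.1.1 j
    rw [map_sub] at h1
    have h2 : ((fstM m - fstM m' : A).1 j) = (fstM m).1 j - (fstM m').1 j := rfl
    rw [h2, h0, sub_zero, hN j hj] at h1
    exact h1
  by_cases hp0 : p = 0
  · refine ⟨N, fun F m' hm' hV j hj => key F m' hm' hV j hj ?_⟩
    rw [hp0, mul_zero]
    intro hq0
    exact hne (Prod.ext hp0 hq0)
  · obtain ⟨E0, hE0⟩ := exists_nat_gt (-q / p)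
    refine ⟨max N E0, fun F m' hm' hV j hj => key F m' hm' hV j (le_trans (le_max_left _ _) hj) ?_⟩
    intro hpq
    have h1 : (E0 : ℚ) ≤ j := by exact_mod_cast le_trans (le_max_right _ _) hj
    have h2 : -q / p = j := by
      rw [hpq]
      field_simp
    rw [h2] at hE0
    exact absurd hE0 (not_lt.2 h1)

/-- the idempotent `δ_j` of `O` -/
def del (j : ℕ) : O := ⟨Pi.single j 1, j + 1, fun i hi => by
  rw [Pi.single_eq_of_ne (by omega), Pi.single_eq_of_ne (by omega)]⟩

theorem mulA_del (j : ℕ) (a : A) (h : a.1 j = 0) : mulA (del j) a = 0 := by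
  apply Subtype.ext; ext1 i
  rw [mulA_apply]
  show (Pi.single j 1 : ℕ → ℚ) i • a.1 i = 0
  by_cases hi : i = j
  · subst hi; rw [h, smul_zero]
  · rw [Pi.single_eq_of_ne hi, zero_smul]

theorem case2 (F : Submodule T M) (hF : F.FG) (h : ∀ m ∈ F, ∃ N, ∀ j, N ≤ j → (fstM m).1 j = 0) :
    ∃ E : ℕ, ∀ j, E ≤ j → vh j ∉ F := by
  obtain ⟨s, hs⟩ := hF
  have h1 : ∀ m : s, ∃ N, ∀ j, N ≤ j → (fstM (m : M)).1 j = 0 := by
    intro m
    apply h
    rw [← hs]
    exact Submodule.subset_span m.2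
  choose N hN using h1
  refine ⟨Finset.univ.sup N, fun j hj hv => ?_⟩
  have h2 : ∀ m ∈ F, dg (del j) • m = 0 := by
    intro m hm
    rw [← hs] at hm
    induction hm using Submodule.span_induction with
    | mem x hx =>
      rw [dg_smul, mulA_del]
      · rfl
      · exact hN ⟨x, hx⟩ j (le_trans (Finset.le_sup (Finset.mem_univ _)) hj)
    | zero => rw [smul_zero]
    | add x y _ _ hx hy => rw [smul_add, hx, hy, add_zero]
    | smul t x _ hx =>
      have : dg (del j) • (t • x) = t • (dg (del j) • x) := (map_smul t (dg (del j)) x).symm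
      rw [this, hx, smul_zero]
  have h3 := congrArg (fun m => ((fstM m).1 j).1) (h2 _ hv)
  rw [dg_smul] at h3
  have h4 : (Pi.single j 1 : ℕ → ℚ) j * ((vv j).1 j).1 = 0 := h3
  rw [Pi.single_eq_same, vv_self] at h4
  norm_num at h4

theorem dcc (F : ℕ → Submodule T M) (hfg : ∀ i, (F i).FG) (hanti : ∀ i, F (i + 1) ≤ F i) :
    ∃ K, ∀ i, K ≤ i → F i ≤ F (i + 1) := by
  classical
  have hA : Antitone F := antitone_nat_of_succ_le hanti
  have hmono : ∀ {i j}, i ≤ j → (Fq (F j)).map Vh.mkQ ≤ (Fq (F i)).map Vh.mkQ := by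
    intro i j hij
    exact Submodule.map_mono (hA hij)
  -- the images modulo `Vh` stabilise
  have hfin := fun i => fg_finite (F i) (hfg i)
  obtain ⟨N, hN⟩ := nat_stab (fun i => Module.finrank ℚ ((Fq (F i)).map Vh.mkQ)) (fun i => by
    have := hfin i
    exact Submodule.finrank_mono (hmono (Nat.le_succ i)))
  have hD : ∀ i, N ≤ i → (Fq (F i)).map Vh.mkQ = (Fq (F N)).map Vh.mkQ := by
    intro i hi
    have := hfin N
    exact Submodule.eq_of_le_of_finrank_eq (hmono hi) (hN i hi)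
  -- eventually the sets of `v_j` are constant outside a finite set
  obtain ⟨E, hE⟩ : ∃ E : ℕ, ∀ i, N ≤ i → ∀ j, E ≤ j → vh j ∈ F N → vh j ∈ F i := by
    by_cases hc : ∀ m ∈ F N, ∃ N', ∀ j, N' ≤ j → (fstM m).1 j = 0
    · obtain ⟨E, hE⟩ := case2 (F N) (hfg N) hc
      exact ⟨E, fun i _ j hj hv => absurd hv (hE j hj)⟩
    · push Not at hc
      obtain ⟨m, hm, hm2⟩ := hc
      obtain ⟨N', hN'⟩ := (fstM m).2
      have hne : (fstM m).1 N' ≠ 0 := by
        intro h0
        obtain ⟨j, hj, hj2⟩ := hm2 N'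
        exact hj2 (by rw [hN' j hj, h0])
      obtain ⟨E, hE⟩ := case1 hN' hne
      refine ⟨E, fun i hi j hj _ => ?_⟩
      have h1 : Vh.mkQ m ∈ (Fq (F i)).map Vh.mkQ := by rw [hD i hi]; exact ⟨m, hm, rfl⟩
      obtain ⟨m', hm', he⟩ := h1
      refine hE (F i) m' hm' ?_ j hj
      rw [← Submodule.Quotient.mk_eq_zero, ← Submodule.mkQ_apply, map_sub, he, sub_self]
  obtain ⟨K, hK⟩ := nat_stab (fun i => ((Finset.range E).filter fun j => vh j ∈ F (N + i)).card)
    (fun i => by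
      apply Finset.card_le_card
      intro j hj
      rw [Finset.mem_filter] at hj ⊢
      exact ⟨hj.1, hanti _ hj.2⟩)
  refine ⟨N + K, fun i hi => ?_⟩
  apply le_of _ _ (by rw [hD i (by omega), hD (i + 1) (by omega)]) (hanti i)
  intro j hj
  by_cases hjE : E ≤ j
  · exact hE (i + 1) (by omega) j hjE (hA (show N ≤ i by omega) hj)
  · have h1 : ((Finset.range E).filter fun j => vh j ∈ F (N + (i + 1 - N))) =
        ((Finset.range E).filter fun j => vh j ∈ F (N + (i - N))) := by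
      apply Finset.eq_of_subset_of_card_le
      · intro j hj
        rw [Finset.mem_filter] at hj ⊢
        exact ⟨hj.1, hA (by omega) hj.2⟩
      · have e1 := hK (i + 1 - N) (by omega)
        have e2 := hK (i - N) (by omega)
        exact (e2.trans e1.symm).le
    have h2 : j ∈ ((Finset.range E).filter fun j => vh j ∈ F (N + (i - N))) := by
      rw [Finset.mem_filter, Finset.mem_range, show N + (i - N) = i by omega]
      exact ⟨not_le.1 hjE, hj⟩
    rw [← h1, Finset.mem_filter, show N + (i + 1 - N) = i + 1 by omega] at h2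
    exact h2.2

/-! ### The descending chain of pairs -/

/-- `x - ∑_{j < i} v_j` -/
def bx (i : ℕ) : A := xx - ∑ j ∈ Finset.range i, vv j

/-- the pair `(x - ∑_{j < i} v_j, y)` in `M` -/
def bb (i : ℕ) : Fin 2 → M := ![mk (bx i) 0, mk yy 0]

theorem bx_coord (i j : ℕ) : (bx i).1 j = if j < i then (0, (j : ℚ)) else (1, 0) := by
  have h : (bx i).1 j = (1, 0) - ∑ l ∈ Finset.range i, (vv l).1 j := by
    show (1, 0) - (∑ l ∈ Finset.range i, vv l : A).1 j = _
    rw [Submodule.coe_sum, Finset.sum_apply]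
  rw [h]
  split_ifs with hj
  · rw [Finset.sum_eq_single j]
    · rw [vv_self]; ext <;> simp
    · intro l _ hl; exact vv_ne (Ne.symm hl)
    · intro h; exact absurd (Finset.mem_range.2 hj) h
  · rw [Finset.sum_eq_zero, sub_zero]
    intro l hl
    apply vv_ne
    rw [Finset.mem_range] at hl
    omega

theorem forward (i : ℕ) : ∃ t : M →ₗ[R] M, ∀ l, t (bb i l) = bb (i + 1) l := by
  refine ⟨LinearMap.id - En (LinearMap.fst ℚ ℚ ℚ) i, fun l => ?_⟩
  fin_cases l
  · show mk (bx i) 0 - En (LinearMap.fst ℚ ℚ ℚ) i (mk (bx i) 0) = mk (bx (i + 1)) 0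
    rw [En_apply, fstM_mk, bx_coord, if_neg (lt_irrefl i)]
    apply M_ext
    · rw [map_sub, fstM_mk, fstM_mk, fstM_mk]
      show bx i - (1 : ℚ) • vv i = bx (i + 1)
      rw [one_smul, bx, bx, Finset.sum_range_succ]
      abel
    · rw [map_sub, sndM_mk, sndM_mk, sndM_mk, sub_zero]
  · show mk yy 0 - En (LinearMap.fst ℚ ℚ ℚ) i (mk yy 0) = mk yy 0
    rw [En_apply]
    have : (LinearMap.fst ℚ ℚ ℚ) ((fstM (mk yy 0)).1 i) = 0 := rfl
    rw [this, zero_smul]
    apply M_ext
    · rw [map_sub, fstM_mk, fstM_mk, sub_zero]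
    · rw [map_sub, sndM_mk, sndM_mk, sub_zero]

theorem no_backward (i : ℕ) : ¬ ∃ t : M →ₗ[R] M, ∀ l, t (bb (i + 1) l) = bb i l := by
  rintro ⟨t, ht⟩
  have h0 : t (mk (bx (i + 1)) 0) = mk (bx i) 0 := ht 0
  have h1 : t (mk yy 0) = mk yy 0 := ht 1
  -- `ε_i (x - ∑_{j ≤ i} v_j) = i ε_i y`
  have h2 : mulA (del i) (bx (i + 1)) = (i : ℚ) • mulA (del i) yy := by
    apply Subtype.ext; ext1 j
    show (Pi.single i 1 : ℕ → ℚ) j • (bx (i + 1)).1 j = (i : ℚ) • ((Pi.single i 1 : ℕ → ℚ) j • yy.1 j)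
    by_cases hj : j = i
    · subst hj
      rw [bx_coord, if_pos (Nat.lt_succ_self _), Pi.single_eq_same]
      ext <;> simp [yy]
    · rw [Pi.single_eq_of_ne hj, zero_smul, zero_smul, smul_zero]
  have h3 : mulA (del i) (bx i) = mulA (del i) (fstM (t (mk (bx (i + 1)) 0))) := by
    rw [h0, fstM_mk]
  rw [← end_mulA, h2] at h3
  have h4 : mk ((i : ℚ) • mulA (del i) yy) 0 = (i : ℚ) • (dg (del i) • mk yy 0) := by
    rw [dg_smul]
    apply M_ext
    · rw [map_smul]; rfl
    · rw [map_smul]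
      exact (smul_zero _).symm
  have h5 : t ((i : ℚ) • (dg (del i) • mk yy 0)) = (i : ℚ) • (dg (del i) • mk yy 0) := by
    have h6 : ∀ (c : ℚ) (m : M), t (c • m) = c • t m := by
      intro c m
      have h7 : ∃ r : R, ∀ m : M, r • m = c • m := by
        refine ⟨mkR ⟨fun _ => c, 0, fun _ _ => rfl⟩ 0 (c • LinearMap.id) (fun _ _ => rfl), fun m => ?_⟩
        apply M_ext
        · rw [fst_mkR_smul, map_smul]; rfl
        · rw [snd_mkR_smul, map_smul, LinearMap.zero_apply, zero_add]; rfl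
      obtain ⟨r, hr⟩ := h7
      rw [← hr, ← hr, map_smul]
    rw [h6, map_smul, h1]
  rw [h4, h5, ← h4, fstM_mk] at h3
  have h8 := congrArg (fun a : A => (a.1 i).1) h3
  have h9 : (Pi.single i 1 : ℕ → ℚ) i * ((bx i).1 i).1 =
    (i : ℚ) * ((Pi.single i 1 : ℕ → ℚ) i * (yy.1 i).1) := h8
  rw [bx_coord, if_neg (lt_irrefl i), Pi.single_eq_same] at h9
  simp [yy] at h9

end Pool.Agent.R706.PPChain
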