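import Mathlib

/-!
# Skew Laurent series rings

`SkewLaurent A φ` is the ring `A((x, φ))` of formal series `∑_{i ≥ n} a_i x^i` (`n ∈ ℤ`,
`a_i ∈ A`) with coefficientwise addition and with the multiplication determined by
`x a = φ(a) x`, that is `(f g)_m = ∑_i f_i φ^i(g_{m-i})`.
-/

namespace Pool.Agent.R706

universe u

/-- Functions `ℤ → A` that vanish below some integer (with pointwise addition). -/
def leftBounded (A : Type u) [Ring A] : AddSubgroup (ℤ → A) where
  carrier := {f | ∃ n : ℤ, ∀ i < n, f i = 0}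
  zero_mem' := ⟨0, fun _ _ => rfl⟩
  add_mem' := by
    rintro f g ⟨n, hn⟩ ⟨m, hm⟩
    refine ⟨min n m, fun i hi => ?_⟩
    rw [Pi.add_apply, hn i (lt_of_lt_of_le hi (min_le_left _ _)),
      hm i (lt_of_lt_of_le hi (min_le_right _ _)), add_zero]
  neg_mem' := by
    rintro f ⟨n, hn⟩
    exact ⟨n, fun i hi => by rw [Pi.neg_apply, hn i hi, neg_zero]⟩

/-- The underlying additive group of the skew Laurent series ring `A((x, φ))`: a series
`∑ a_i x^i` is given by its coefficient function `i ↦ a_i`, which vanishes below some integer. -/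
def SkewLaurent (A : Type u) [Ring A] (_φ : RingAut A) : Type u := leftBounded A

namespace SkewLaurent

variable {A : Type u} [Ring A] {φ : RingAut A}

instance : AddCommGroup (SkewLaurent A φ) := inferInstanceAs (AddCommGroup (leftBounded A))

/-- The `i`-th coefficient of a skew Laurent series. -/
def coeff (f : SkewLaurent A φ) (i : ℤ) : A := f.1 i

@[ext] theorem ext {f g : SkewLaurent A φ} (h : ∀ i, f.coeff i = g.coeff i) : f = g :=
  Subtype.ext (funext h)

@[simp] theorem coeff_zero (i : ℤ) : (0 : SkewLaurent A φ).coeff i = 0 := rfl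
@[simp] theorem coeff_add (f g : SkewLaurent A φ) (i : ℤ) :
    (f + g).coeff i = f.coeff i + g.coeff i := rfl
@[simp] theorem coeff_neg (f : SkewLaurent A φ) (i : ℤ) : (-f).coeff i = -f.coeff i := rfl

theorem exists_bound (f : SkewLaurent A φ) : ∃ n : ℤ, ∀ i < n, f.coeff i = 0 := f.2

/-- construct a series from its coefficients -/
def mk (c : ℤ → A) (h : ∃ n : ℤ, ∀ i < n, c i = 0) : SkewLaurent A φ := ⟨c, h⟩

@[simp] theorem coeff_mk (c : ℤ → A) (h : ∃ n : ℤ, ∀ i < n, c i = 0) (i : ℤ) :
    (mk c h : SkewLaurent A φ).coeff i = c i := rfl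

theorem term_zero (f g : SkewLaurent A φ) {a b : ℤ} (ha : ∀ i < a, f.coeff i = 0)
    (hb : ∀ i < b, g.coeff i = 0) (m i : ℤ) (h : i < a ∨ m - b < i) :
    f.coeff i * (φ ^ i) (g.coeff (m - i)) = 0 := by
  rcases h with h | h
  · rw [ha i h, zero_mul]
  · rw [hb (m - i) (by omega), map_zero, mul_zero]

/-- Multiplication of skew Laurent series: `(f g)_m = ∑_i f_i φ^i(g_{m-i})` (only finitely many
summands are nonzero). -/
noncomputable instance : Mul (SkewLaurent A φ) where
  mul f g := mk (fun m => ∑ᶠ i : ℤ, f.coeff i * (φ ^ i) (g.coeff (m - i))) (by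
    obtain ⟨a, ha⟩ := exists_bound f
    obtain ⟨b, hb⟩ := exists_bound g
    refine ⟨a + b, fun m hm => ?_⟩
    rw [← finsum_zero (α := ℤ)]
    congr 1
    ext1 i
    exact term_zero f g ha hb m i (by omega))

theorem coeff_mul (f g : SkewLaurent A φ) (m : ℤ) :
    (f * g).coeff m = ∑ᶠ i : ℤ, f.coeff i * (φ ^ i) (g.coeff (m - i)) := rfl

theorem coeff_mul_eq_sum (f g : SkewLaurent A φ) {a b : ℤ} (ha : ∀ i < a, f.coeff i = 0)
    (hb : ∀ i < b, g.coeff i = 0) (m : ℤ) (s : Finset ℤ) (hs : Finset.Icc a (m - b) ⊆ s) :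
    (f * g).coeff m = ∑ i ∈ s, f.coeff i * (φ ^ i) (g.coeff (m - i)) := by
  rw [coeff_mul]
  apply finsum_eq_sum_of_support_subset
  intro i hi
  by_contra hcon
  apply hi
  apply term_zero f g ha hb
  by_contra h
  apply hcon
  apply hs
  rw [Finset.mem_Icc]
  omega

/-- The constant series `1`. -/
noncomputable instance : One (SkewLaurent A φ) where
  one := mk (fun i => if i = 0 then 1 else 0) ⟨0, fun i hi => by rw [if_neg (by omega)]⟩

theorem coeff_one (i : ℤ) : (1 : SkewLaurent A φ).coeff i = if i = 0 then 1 else 0 := rfl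

/-- the monomial `a x^n` -/
noncomputable def mono (n : ℤ) (a : A) : SkewLaurent A φ :=
  mk (fun i => if i = n then a else 0) ⟨n, fun i hi => by rw [if_neg (by omega)]⟩

theorem coeff_mono (n : ℤ) (a : A) (i : ℤ) :
    (mono n a : SkewLaurent A φ).coeff i = if i = n then a else 0 := rfl

theorem one_eq_mono : (1 : SkewLaurent A φ) = mono 0 1 := rfl

theorem coeff_mono_mul (n : ℤ) (a : A) (g : SkewLaurent A φ) (m : ℤ) :
    (mono n a * g).coeff m = a * (φ ^ n) (g.coeff (m - n)) := by
  rw [coeff_mul, finsum_eq_single _ n]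
  · rw [coeff_mono, if_pos rfl]
  · intro i hi
    rw [coeff_mono, if_neg hi, zero_mul]

theorem coeff_mul_mono (n : ℤ) (a : A) (f : SkewLaurent A φ) (m : ℤ) :
    (f * mono n a).coeff m = f.coeff (m - n) * (φ ^ (m - n)) a := by
  rw [coeff_mul, finsum_eq_single _ (m - n)]
  · rw [coeff_mono, if_pos (by omega)]
  · intro i hi
    rw [coeff_mono, if_neg (by omega), map_zero, mul_zero]

theorem mul_assoc' (f g h : SkewLaurent A φ) : f * g * h = f * (g * h) := by
  obtain ⟨a, ha⟩ := exists_bound f
  obtain ⟨b, hb⟩ := exists_bound g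
  obtain ⟨c, hc⟩ := exists_bound h
  have hab : ∀ i < a + b, (f * g).coeff i = 0 := by
    intro m hm
    rw [coeff_mul_eq_sum f g ha hb m _ (Finset.Subset.refl _), Finset.Icc_eq_empty (by omega),
      Finset.sum_empty]
  have hbc : ∀ i < b + c, (g * h).coeff i = 0 := by
    intro m hm
    rw [coeff_mul_eq_sum g h hb hc m _ (Finset.Subset.refl _), Finset.Icc_eq_empty (by omega),
      Finset.sum_empty]
  ext m
  -- left-hand side
  have hL : (f * g * h).coeff m = ∑ i ∈ Finset.Icc (a + b) (m - c), ∑ j ∈ Finset.Icc a (m - b - c),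
      f.coeff j * (φ ^ j) (g.coeff (i - j)) * (φ ^ i) (h.coeff (m - i)) := by
    rw [coeff_mul_eq_sum (f * g) h hab hc m _ (Finset.Subset.refl _)]
    apply Finset.sum_congr rfl
    intro i hi
    rw [Finset.mem_Icc] at hi
    rw [coeff_mul_eq_sum f g ha hb i (Finset.Icc a (m - b - c))
      (Finset.Icc_subset_Icc le_rfl (by omega)), Finset.sum_mul]
  have hR : (f * (g * h)).coeff m = ∑ j ∈ Finset.Icc a (m - b - c), ∑ i ∈ Finset.Icc (a + b) (m - c),
      f.coeff j * (φ ^ j) (g.coeff (i - j)) * (φ ^ i) (h.coeff (m - i)) := by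
    rw [coeff_mul_eq_sum f (g * h) ha hbc m (Finset.Icc a (m - b - c))
      (Finset.Icc_subset_Icc le_rfl (by omega))]
    apply Finset.sum_congr rfl
    intro j hj
    rw [Finset.mem_Icc] at hj
    rw [coeff_mul_eq_sum g h hb hc (m - j) (Finset.Icc (a + b - j) (m - c - j))
      (Finset.Icc_subset_Icc (by omega) (by omega)), map_sum, Finset.mul_sum]
    apply Finset.sum_bij' (fun l _ => l + j) (fun i _ => i - j)
    · intro l hl
      rw [Finset.mem_Icc] at hl ⊢
      omega
    · intro l hl
      rw [Finset.mem_Icc] at hl ⊢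
      omega
    · intro l _
      omega
    · intro l _
      omega
    · intro l _
      rw [map_mul, ← RingAut.mul_apply, ← zpow_add, mul_assoc, add_sub_cancel_right, add_comm l j,
        sub_sub]
  rw [hL, hR, Finset.sum_comm]

theorem mul_add' (f g h : SkewLaurent A φ) : f * (g + h) = f * g + f * h := by
  obtain ⟨a, ha⟩ := exists_bound f
  obtain ⟨b, hb⟩ := exists_bound g
  obtain ⟨c, hc⟩ := exists_bound h
  have hbc : ∀ i < min b c, (g + h).coeff i = 0 := by
    intro i hi
    rw [coeff_add, hb i (by omega), hc i (by omega), add_zero]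
  ext m
  rw [coeff_add, coeff_mul_eq_sum f (g + h) ha hbc m _ (Finset.Subset.refl _),
    coeff_mul_eq_sum f g ha hb m _ (Finset.Icc_subset_Icc le_rfl (by omega) :
      Finset.Icc a (m - b) ⊆ Finset.Icc a (m - min b c)),
    coeff_mul_eq_sum f h ha hc m _ (Finset.Icc_subset_Icc le_rfl (by omega) :
      Finset.Icc a (m - c) ⊆ Finset.Icc a (m - min b c)), ← Finset.sum_add_distrib]
  apply Finset.sum_congr rfl
  intro i _
  rw [coeff_add, map_add, mul_add]

theorem add_mul' (f g h : SkewLaurent A φ) : (f + g) * h = f * h + g * h := by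
  obtain ⟨a, ha⟩ := exists_bound f
  obtain ⟨b, hb⟩ := exists_bound g
  obtain ⟨c, hc⟩ := exists_bound h
  have hab : ∀ i < min a b, (f + g).coeff i = 0 := by
    intro i hi
    rw [coeff_add, ha i (by omega), hb i (by omega), add_zero]
  ext m
  rw [coeff_add, coeff_mul_eq_sum (f + g) h hab hc m _ (Finset.Subset.refl _),
    coeff_mul_eq_sum f h ha hc m _ (Finset.Icc_subset_Icc (by omega) le_rfl :
      Finset.Icc a (m - c) ⊆ Finset.Icc (min a b) (m - c)),
    coeff_mul_eq_sum g h hb hc m _ (Finset.Icc_subset_Icc (by omega) le_rfl :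
      Finset.Icc b (m - c) ⊆ Finset.Icc (min a b) (m - c)), ← Finset.sum_add_distrib]
  apply Finset.sum_congr rfl
  intro i _
  rw [coeff_add, add_mul]

/-- The skew Laurent series ring `A((x, φ))`. -/
noncomputable instance : Ring (SkewLaurent A φ) :=
  { (inferInstance : AddCommGroup (SkewLaurent A φ)) with
    mul := (· * ·)
    one := 1
    left_distrib := mul_add'
    right_distrib := add_mul'
    mul_assoc := mul_assoc'
    zero_mul := fun f => by
      ext m
      rw [coeff_mul]
      simp
    mul_zero := fun f => by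
      ext m
      rw [coeff_mul]
      simp
    one_mul := fun f => by
      ext m
      rw [one_eq_mono, coeff_mono_mul]
      simp
    mul_one := fun f => by
      ext m
      rw [one_eq_mono, coeff_mul_mono]
      simp }

end SkewLaurent

end Pool.Agent.R706
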